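import Mathlib

set_option autoImplicit false

/-! Removing a segment from an open set creates at most one new component. -/

namespace Pool.Agent.MP_b0ee3d_lc

open Set Metric

/-- `U` has at most `m` components. -/
def Cov (U : Set ℂ) (m : ℕ) : Prop :=
  ∃ T : Finset ℂ, T.card ≤ m ∧ ∀ x ∈ U, ∃ t ∈ T, x ∈ connectedComponentIn U t

/-- signed distance from the line through `s` and `t` -/
noncomputable def sd (s t x : ℂ) : ℝ := ((x - s) / (t - s)).im

/-- position along the line through `s` and `t` -/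
noncomputable def ps (s t x : ℂ) : ℝ := ((x - s) / (t - s)).re

theorem mem_segment_iff_ps {s t x : ℂ} (h : s ≠ t) :
    x ∈ segment ℝ s t ↔ sd s t x = 0 ∧ 0 ≤ ps s t x ∧ ps s t x ≤ 1 := by
  have h' : t - s ≠ 0 := sub_ne_zero.mpr h.symm
  rw [segment_eq_image_lineMap]
  constructor
  · rintro ⟨c, hc, rfl⟩
    have : (AffineMap.lineMap s t c - s) / (t - s) = (c : ℂ) := by
      rw [AffineMap.lineMap_apply, div_eq_iff h']
      simp
    simp only [sd, ps, this, Complex.ofReal_im, Complex.ofReal_re]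
    exact ⟨trivial, hc.1, hc.2⟩
  · rintro ⟨h1, h2, h3⟩
    refine ⟨ps s t x, ⟨h2, h3⟩, ?_⟩
    have : (x - s) / (t - s) = (ps s t x : ℂ) := Complex.ext (by simp [ps]) (by simpa [sd] using h1)
    rw [div_eq_iff h'] at this
    rw [AffineMap.lineMap_apply]
    simp only [vsub_eq_sub, Complex.real_smul, vadd_eq_add]
    linear_combination -this

theorem sd_add (s t x : ℂ) (z : ℂ) (h : s ≠ t) : sd s t (x + z * (t - s)) = sd s t x + z.im := by
  have h' : t - s ≠ 0 := sub_ne_zero.mpr h.symm
  have : (x + z * (t - s) - s) / (t - s) = (x - s) / (t - s) + z := by field_simp; ring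
  simp only [sd, this, Complex.add_im]

theorem ps_add (s t x : ℂ) (z : ℂ) (h : s ≠ t) : ps s t (x + z * (t - s)) = ps s t x + z.re := by
  have h' : t - s ≠ 0 := sub_ne_zero.mpr h.symm
  have : (x + z * (t - s) - s) / (t - s) = (x - s) / (t - s) + z := by field_simp; ring
  simp only [ps, this, Complex.add_re]

theorem convex_sd (s t : ℂ) (e : ℝ) : Convex ℝ {x | 0 < e * sd s t x} := by
  intro x hx y hy a b ha hb hab
  have : (a • x + b • y - s) / (t - s) = a * ((x - s) / (t - s)) + b * ((y - s) / (t - s)) := by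
    have : (a : ℂ) + b = 1 := by exact_mod_cast hab
    simp only [Complex.real_smul]
    rw [← mul_div_assoc, ← mul_div_assoc, ← add_div]
    congr 1
    linear_combination s * this
  simp only [mem_ofPred_eq, sd, this, Complex.add_im, Complex.im_ofReal_mul] at hx hy ⊢
  rcases ha.eq_or_lt with rfl | ha'
  · have : b = 1 := by linarith
    subst this; simpa using hy
  · nlinarith [mul_pos ha' hx, mul_nonneg hb hy.le]

theorem convex_ps (s t : ℂ) : Convex ℝ {x | 1 < ps s t x} := by
  intro x hx y hy a b ha hb hab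
  have : (a • x + b • y - s) / (t - s) = a * ((x - s) / (t - s)) + b * ((y - s) / (t - s)) := by
    have : (a : ℂ) + b = 1 := by exact_mod_cast hab
    simp only [Complex.real_smul]
    rw [← mul_div_assoc, ← mul_div_assoc, ← add_div]
    congr 1
    linear_combination s * this
  simp only [mem_ofPred_eq, ps, this, Complex.add_re, Complex.re_ofReal_mul] at hx hy ⊢
  rcases ha.eq_or_lt with rfl | ha'
  · have : b = 1 := by linarith
    subst this; simpa using hy
  · nlinarith [mul_pos ha' (sub_pos.mpr hx), mul_nonneg hb (sub_pos.mpr hy).le]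

/-- a point close to `x` in direction `z * (t - s)` -/
theorem exists_near (x w : ℂ) {V : Set ℂ} (hV : V ∈ nhds x) :
    ∃ c : ℝ, 0 < c ∧ x + c * w ∈ V := by
  have : Filter.Tendsto (fun c : ℝ => x + c * w) (nhdsWithin 0 (Ioi 0)) (nhds x) := by
    have h : ContinuousAt (fun c : ℝ => x + c * w) 0 := by fun_prop
    have := h.tendsto
    simp only [Complex.ofReal_zero, zero_mul, add_zero] at this
    exact this.mono_left nhdsWithin_le_nhds
  obtain ⟨c, hc1, hc2⟩ := ((this.eventually hV).and self_mem_nhdsWithin).exists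
  exact ⟨c, hc2, hc1⟩

/-- All half discs on one side of the segment lie in one component. -/
theorem side_comp {U : Set ℂ} (hU : IsOpen U) {s t : ℂ} (h : s ≠ t)
    (ho : openSegment ℝ s t ⊆ U) (e : ℝ) (he : e = 1 ∨ e = -1) :
    ∃ n : ℂ, ∀ o ∈ segment ℝ s t ∩ U, ∀ r, ball o r ⊆ U → ∀ x ∈ ball o r, 0 < e * sd s t x →
      x ∈ connectedComponentIn (U \ segment ℝ s t) n := by
  set F := U \ segment ℝ s t
  have hsub : ∀ o r, ball o r ⊆ U → ball o r ∩ {x | 0 < e * sd s t x} ⊆ F := by
    rintro o r hr x ⟨h1, h2⟩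
    refine ⟨hr h1, fun h3 => ?_⟩
    have := ((mem_segment_iff_ps h).mp h3).1
    simp [this] at h2
  have hpre : ∀ o r, IsPreconnected (ball o r ∩ {x | 0 < e * sd s t x}) := fun o r =>
    ((convex_ball o r).inter (convex_sd s t e)).isPreconnected
  have hnear : ∀ o ∈ segment ℝ s t, ∀ V ∈ nhds o, ∃ y ∈ V, 0 < e * sd s t y := by
    intro o ho' V hV
    obtain ⟨c, hc, hc'⟩ := exists_near o (e * Complex.I * (t - s)) hV
    refine ⟨_, hc', ?_⟩
    rw [← mul_assoc, sd_add _ _ _ _ h, ((mem_segment_iff_ps h).mp ho').1]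
    rcases he with rfl | rfl <;> simpa using hc
  -- the half discs at `o` lie in the component `C`
  let P : ℂ → Set ℂ → Prop := fun o C => ∀ r, ball o r ⊆ U → ∀ x ∈ ball o r,
    0 < e * sd s t x → connectedComponentIn F x = C
  have hP : ∀ o ∈ segment ℝ s t, ∀ r, ball o r ⊆ U → ∀ y ∈ ball o r, 0 < e * sd s t y →
      ∀ o' ∈ segment ℝ s t, o' ∈ ball o r → P o' (connectedComponentIn F y) := by
    intro o _ r hr y hy hy' o' ho' ho'' r' hr' x hx hx'
    obtain ⟨z, hz, hz'⟩ := hnear o' ho' (ball o r ∩ ball o' r')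
      (Filter.inter_mem (isOpen_ball.mem_nhds ho'')
        (ball_mem_nhds _ (lt_of_le_of_lt dist_nonneg hx)))
    have e1 := (hpre o r).subset_connectedComponentIn (x := z) ⟨hz.1, hz'⟩ (hsub o r hr) ⟨hy, hy'⟩
    have e2 := (hpre o' r').subset_connectedComponentIn (x := z) ⟨hz.2, hz'⟩ (hsub o' r' hr')
      ⟨hx, hx'⟩
    rw [← connectedComponentIn_eq e1, ← connectedComponentIn_eq e2]
  have hconn : IsPreconnected (segment ℝ s t ∩ U) := by
    refine (convex_openSegment s t).isPreconnected.subset_closure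
      (subset_inter (openSegment_subset_segment ℝ s t) ho) ?_
    rw [closure_openSegment]
    exact inter_subset_left
  have hm : midpoint ℝ s t ∈ segment ℝ s t ∩ U :=
    ⟨midpoint_mem_segment s t, ho (midpoint_mem_openSegment s t)⟩
  have hloc : ∀ o ∈ segment ℝ s t ∩ U, ∃ y, ∀ᶠ o' in nhdsWithin o (segment ℝ s t ∩ U),
      P o' (connectedComponentIn F y) := by
    intro o ho'
    obtain ⟨r, hr, hr'⟩ := Metric.isOpen_iff.mp hU o ho'.2
    obtain ⟨y, hy, hy'⟩ := hnear o ho'.1 _ (ball_mem_nhds o hr)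
    refine ⟨y, ?_⟩
    filter_upwards [self_mem_nhdsWithin, nhdsWithin_le_nhds (ball_mem_nhds o hr)] with o' h1 h2
    exact hP o ho'.1 r hr' y hy hy' o' h1.1 h2
  have huniq : ∀ o ∈ segment ℝ s t ∩ U, ∀ C C', P o C → P o C' → C = C' := by
    intro o ho' C C' h1 h2
    obtain ⟨r, hr, hr'⟩ := Metric.isOpen_iff.mp hU o ho'.2
    obtain ⟨y, hy, hy'⟩ := hnear o ho'.1 _ (ball_mem_nhds o hr)
    rw [← h1 r hr' y hy hy', ← h2 r hr' y hy hy']
  obtain ⟨n, hn⟩ := hloc _ hm
  have hn' := hn.self_of_nhdsWithin hm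
  refine ⟨n, fun o ho' r hr x hx hx' => ?_⟩
  have key : ∀ C, P (midpoint ℝ s t) C → P o C := by
    refine hconn.induction₂' (fun a b => ∀ C, P a C → P b C) (fun a ha => ?_)
      (fun a b c _ _ _ h1 h2 C h3 => h2 C (h1 C h3)) hm ho'
    obtain ⟨y, hy⟩ := hloc a ha
    have hy' := hy.self_of_nhdsWithin ha
    filter_upwards [hy, self_mem_nhdsWithin] with b hb hb'
    exact ⟨fun C hC => by rwa [huniq a ha C _ hC hy'], fun C hC => by rwa [huniq b hb' C _ hC hb]⟩
  rw [← key _ hn' r hr x hx hx']
  exact mem_connectedComponentIn (hsub o r hr ⟨hx, hx'⟩)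

/-- Points of the component of `U` that meets the segment are joined to a side of it. -/
theorem side_cover {U : Set ℂ} (hU : IsOpen U) {s t : ℂ} (h : s ≠ t) (hs : s ∉ U)
    (ho : openSegment ℝ s t ⊆ U) :
    ∃ n n' : ℂ, (t ∈ U → n = n') ∧ ∀ x ∈ connectedComponentIn U (midpoint ℝ s t),
      x ∉ segment ℝ s t → x ∈ connectedComponentIn (U \ segment ℝ s t) n ∨
        x ∈ connectedComponentIn (U \ segment ℝ s t) n' := by
  classical
  obtain ⟨n, hn⟩ := side_comp hU h ho 1 (Or.inl rfl)
  obtain ⟨n0, hn0⟩ := side_comp hU h ho (-1) (Or.inr rfl)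
  set S := segment ℝ s t with hS
  set F := U \ S
  have hSc : IsClosed S := by
    rw [hS, segment_eq_image_lineMap]
    exact (isCompact_Icc.image (by fun_prop)).isClosed
  have hF : IsOpen F := hU.sdiff hSc
  have pss : ps s t t = 1 := by simp [ps, div_self (sub_ne_zero.mpr h.symm)]
  have sdt : sd s t t = 0 := by simp [sd, div_self (sub_ne_zero.mpr h.symm)]
  have hfw : t ∈ U → ∀ r, ball t r ⊆ U → ∀ x ∈ ball t r, 1 < ps s t x →
      ∀ m e, (e = 1 ∨ e = -1) → (∀ o ∈ S ∩ U, ∀ r, ball o r ⊆ U → ∀ x ∈ ball o r,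
        0 < e * sd s t x → x ∈ connectedComponentIn F m) → x ∈ connectedComponentIn F m := by
    intro ht r hr x hx hx' m e he hm
    obtain ⟨c, hc, hc'⟩ := exists_near t ((1 + e * Complex.I) * (t - s))
      (ball_mem_nhds t (lt_of_le_of_lt dist_nonneg hx))
    rw [← mul_assoc] at hc'
    have h1 := hm t ⟨right_mem_segment _ _ _, ht⟩ r hr _ hc' (by
      rw [sd_add _ _ _ _ h, sdt]
      rcases he with rfl | rfl <;> simpa using hc)
    have h2 := ((convex_ball t r).inter (convex_ps s t)).isPreconnected.subset_connectedComponentIn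
      (F := F) (x := t + c * (1 + e * Complex.I) * (t - s)) ⟨hc', by
        simp only [mem_ofPred_eq]
        rw [ps_add _ _ _ _ h, pss]
        simpa using hc⟩ (fun y hy => ⟨hr hy.1, fun h3 => by
          have := ((mem_segment_iff_ps h).mp h3).2.2
          have := hy.2
          simp only [mem_ofPred_eq] at this
          linarith⟩) ⟨hx, hx'⟩
    rwa [← connectedComponentIn_eq h1] at h2
  obtain ⟨n', hnn, hn'⟩ : ∃ n', (t ∈ U → n = n') ∧ ∀ o ∈ S ∩ U, ∀ r, ball o r ⊆ U →
      ∀ x ∈ ball o r, 0 < -1 * sd s t x → x ∈ connectedComponentIn F n' := by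
    by_cases ht : t ∈ U
    · refine ⟨n, fun _ => rfl, fun o ho' r hr x hx hx' => ?_⟩
      obtain ⟨r', hr', hr''⟩ := Metric.isOpen_iff.mp hU t ht
      obtain ⟨c, hc, hc'⟩ := exists_near t (t - s) (ball_mem_nhds t hr')
      have h0 : 1 < ps s t (t + c * (t - s)) := by
        rw [ps_add _ _ _ _ h, pss]; simpa using hc
      have h1 := hfw ht r' hr'' _ hc' h0 n 1 (Or.inl rfl) hn
      have h2 := hfw ht r' hr'' _ hc' h0 n0 (-1) (Or.inr rfl) hn0
      rw [connectedComponentIn_eq h1, ← connectedComponentIn_eq h2]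
      exact hn0 o ho' r hr x hx hx'
    · exact ⟨n0, fun h' => absurd h' ht, hn0⟩
  refine ⟨n, n', hnn, fun x hx hxS => ?_⟩
  set G := connectedComponentIn F n ∪ connectedComponentIn F n'
  have hm : midpoint ℝ s t ∈ S ∩ U :=
    ⟨midpoint_mem_segment s t, ho (midpoint_mem_openSegment s t)⟩
  have hA : IsOpen (G ∪ S ∩ U) := by
    rw [isOpen_iff_mem_nhds]
    rintro o (ho' | ho')
    · exact Filter.mem_of_superset
        ((hF.connectedComponentIn.union hF.connectedComponentIn).mem_nhds ho') subset_union_left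
    obtain ⟨r, hr, hr'⟩ := Metric.isOpen_iff.mp hU o ho'.2
    have hside : ∀ r, ball o r ⊆ U → ∀ y ∈ ball o r, sd s t y ≠ 0 → y ∈ G := by
      intro r hr y hy hy'
      rcases lt_or_gt_of_ne hy' with h1 | h1
      · exact Or.inr (hn' o ho' r hr y hy (by linarith))
      · exact Or.inl (hn o ho' r hr y hy (by linarith))
    have hcont : Continuous (ps s t) := by unfold ps; fun_prop
    have h0 : 0 < ps s t o := by
      rcases ((mem_segment_iff_ps h).mp ho'.1).2.1.eq_or_lt with h1 | h1
      · exfalso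
        apply hs
        have h2 := ((mem_segment_iff_ps h).mp ho'.1).1
        have : (o - s) / (t - s) = 0 := Complex.ext h1.symm h2
        rw [div_eq_zero_iff, sub_eq_zero, sub_eq_zero] at this
        rcases this with rfl | rfl
        · exact ho'.2
        · exact absurd rfl h
      · exact h1
    have e0 : ∀ᶠ y in nhds o, 0 < ps s t y := hcont.continuousAt.eventually (lt_mem_nhds h0)
    rcases ((mem_segment_iff_ps h).mp ho'.1).2.2.eq_or_lt with h1 | h1
    · have : o = t := by
        have h2 := ((mem_segment_iff_ps h).mp ho'.1).1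
        have : (o - s) / (t - s) = 1 := Complex.ext h1 h2
        rw [div_eq_one_iff_eq (sub_ne_zero.mpr h.symm)] at this
        exact sub_left_injective this
      subst this
      filter_upwards [e0, ball_mem_nhds o hr] with y hy1 hy2
      by_cases h3 : sd s o y = 0
      · by_cases h4 : ps s o y ≤ 1
        · exact Or.inr ⟨(mem_segment_iff_ps h).mpr ⟨h3, hy1.le, h4⟩, hr' hy2⟩
        · exact Or.inl (Or.inl (hfw ho'.2 r hr' y hy2 (not_le.mp h4) n 1 (Or.inl rfl) hn))
      · exact Or.inl (hside r hr' y hy2 h3)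
    · filter_upwards [e0, ball_mem_nhds o hr,
        hcont.continuousAt.eventually (gt_mem_nhds h1)] with y hy1 hy2 hy3
      by_cases h3 : sd s t y = 0
      · exact Or.inr ⟨(mem_segment_iff_ps h).mpr ⟨h3, hy1.le, hy3.le⟩, hr' hy2⟩
      · exact Or.inl (hside r hr' y hy2 h3)
  have hB : IsOpen (F \ G) := by
    rw [isOpen_iff_mem_nhds]
    rintro y ⟨hy, hy'⟩
    refine Filter.mem_of_superset (hF.connectedComponentIn.mem_nhds (mem_connectedComponentIn hy))
      (fun z hz => ⟨connectedComponentIn_subset _ _ hz, ?_⟩)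
    rintro (h1 | h1)
    · apply hy'; left
      rw [connectedComponentIn_eq h1, ← connectedComponentIn_eq hz]
      exact mem_connectedComponentIn hy
    · apply hy'; right
      rw [connectedComponentIn_eq h1, ← connectedComponentIn_eq hz]
      exact mem_connectedComponentIn hy
  have hW := (isPreconnected_connectedComponentIn (F := U) (x := midpoint ℝ s t)).subset_left_of_subset_union
    hA hB (by
      rw [Set.disjoint_left]
      rintro y (hy | hy) hy'
      · exact hy'.2 hy
      · exact hy'.1.2 hy.1) (fun y hy => by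
      have hyU := connectedComponentIn_subset _ _ hy
      by_cases h1 : y ∈ S
      · exact Or.inl (Or.inr ⟨h1, hyU⟩)
      · by_cases h2 : y ∈ G
        · exact Or.inl (Or.inl h2)
        · exact Or.inr ⟨⟨hyU, h1⟩, h2⟩)
    ⟨_, mem_connectedComponentIn hm.2, Or.inr hm⟩
  rcases hW hx with h1 | h1
  · exact h1
  · exact absurd h1.1 hxS

theorem Cov.step {U : Set ℂ} (hU : IsOpen U) {s t : ℂ} (h : s ≠ t) (hs : s ∉ U)
    (ho : openSegment ℝ s t ⊆ U) {m : ℕ} (hm : Cov U m) {k : ℕ} (hk : t ∈ U ∨ k = 1) :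
    Cov (U \ segment ℝ s t) (m + k) := by
  classical
  obtain ⟨T, hT, hc⟩ := hm
  obtain ⟨n, n', hn, hx⟩ := side_cover hU h hs ho
  have hmU : midpoint ℝ s t ∈ U := ho (midpoint_mem_openSegment s t)
  obtain ⟨t0, ht0, ht0'⟩ := hc _ hmU
  refine ⟨T.erase t0 ∪ {n, n'}, ?_, fun x hx' => ?_⟩
  · have h1 := Finset.card_union_le (T.erase t0) {n, n'}
    have h2 := Finset.card_erase_of_mem ht0
    have h3 := Finset.card_pos.mpr ⟨t0, ht0⟩
    rcases hk with hk | hk
    · rw [← hn hk] at h1 ⊢
      simp only [Finset.mem_singleton, Finset.insert_eq_of_mem, Finset.card_singleton] at h1 ⊢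
      omega
    · have := Finset.card_le_two (a := n) (b := n')
      omega
  obtain ⟨t1, ht1, ht1'⟩ := hc x hx'.1
  by_cases hW : x ∈ connectedComponentIn U (midpoint ℝ s t)
  · rcases hx x hW hx'.2 with h1 | h1
    · exact ⟨n, by simp, h1⟩
    · exact ⟨n', by simp, h1⟩
  refine ⟨t1, ?_, ?_⟩
  · refine Finset.mem_union_left _ (Finset.mem_erase.mpr ⟨?_, ht1⟩)
    rintro rfl
    exact hW (connectedComponentIn_eq ht0' ▸ ht1')
  have ht1U : t1 ∈ U := connectedComponentIn_nonempty_iff.mp ⟨x, ht1'⟩
  refine isPreconnected_connectedComponentIn.subset_connectedComponentIn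
    (F := U \ segment ℝ s t) (mem_connectedComponentIn ht1U) (fun y hy => ?_) ht1'
  refine ⟨connectedComponentIn_subset _ _ hy, fun hy' => ?_⟩
  apply hW
  have hconn : IsPreconnected (segment ℝ s t ∩ U) := by
    refine (convex_openSegment s t).isPreconnected.subset_closure
      (subset_inter (openSegment_subset_segment ℝ s t) ho) ?_
    rw [closure_openSegment]
    exact inter_subset_left
  have h1 := hconn.subset_connectedComponentIn (F := U) (x := midpoint ℝ s t)
    ⟨midpoint_mem_segment s t, hmU⟩ inter_subset_right ⟨hy', connectedComponentIn_subset _ _ hy⟩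
  rw [connectedComponentIn_eq h1, ← connectedComponentIn_eq hy]
  exact ht1'

theorem isClosed_seg (s t : ℂ) : IsClosed (segment ℝ s t) := by
  rw [segment_eq_image_lineMap]
  exact (isCompact_Icc.image (by fun_prop)).isClosed

open Classical in
/-- The number of components of the complement of a polygonal path. -/
theorem cov_path (q : ℕ → ℂ) (L : ℕ) (h1 : ∀ i < L, q i ≠ q (i + 1))
    (h2 : ∀ i < L, ∀ j < i, segment ℝ (q i) (q (i + 1)) ∩ segment ℝ (q j) (q (j + 1)) ⊆
      {q i, q (i + 1)} ∩ {q j, q (j + 1)}) :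
    Cov {x | x ≠ q 0 ∧ ∀ i < L, x ∉ segment ℝ (q i) (q (i + 1))}
      (1 + ((Finset.range L).filter fun i => ∃ j ≤ i, q (i + 1) = q j).card) := by
  induction L with
  | zero =>
    refine ⟨{q 0 + 1}, by simp, fun x hx => ⟨q 0 + 1, by simp, ?_⟩⟩
    have : {x | x ≠ q 0 ∧ ∀ i < 0, x ∉ segment ℝ (q i) (q (i + 1))} = ({q 0} : Set ℂ)ᶜ := by
      ext x; simp
    rw [this] at hx ⊢
    exact (isConnected_compl_singleton_of_one_lt_rank (by simp) (q 0)).isPreconnected.subset_connectedComponentIn
      (by simp) subset_rfl hx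
  | succ L ih =>
    have ih' := ih (fun i hi => h1 i (by omega)) (fun i hi => h2 i (by omega))
    set U := {x | x ≠ q 0 ∧ ∀ i < L, x ∉ segment ℝ (q i) (q (i + 1))} with hU
    have hUo : IsOpen U := by
      have : U = ({q 0} : Set ℂ)ᶜ ∩ ⋂ i ∈ Finset.range L, (segment ℝ (q i) (q (i + 1)))ᶜ := by
        ext x; simp [hU]
      rw [this]
      exact isOpen_compl_singleton.inter
        (isOpen_biInter_finset fun i _ => (isClosed_seg _ _).isOpen_compl)
    have e : {x | x ≠ q 0 ∧ ∀ i < L + 1, x ∉ segment ℝ (q i) (q (i + 1))} =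
        U \ segment ℝ (q L) (q (L + 1)) := by
      ext x
      simp only [hU, mem_ofPred_eq, mem_sdiff, Nat.lt_succ_iff_lt_or_eq]
      constructor
      · exact fun h => ⟨⟨h.1, fun i hi => h.2 i (Or.inl hi)⟩, h.2 L (Or.inr rfl)⟩
      · rintro ⟨h, h'⟩
        exact ⟨h.1, fun i hi => hi.elim (h.2 i) (fun e => e ▸ h')⟩
    have hne := h1 L (by omega)
    have hop : ∀ x ∈ openSegment ℝ (q L) (q (L + 1)), x ≠ q L ∧ x ≠ q (L + 1) := by
      intro x hx
      constructor
      · rintro rfl; exact hne (left_mem_openSegment_iff.mp hx)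
      · rintro rfl; exact hne (right_mem_openSegment_iff.mp hx)
    have := ih'.step hUo hne (fun h => by
        rcases L with _ | L
        · exact h.1 rfl
        · exact h.2 L (by omega) (right_mem_segment _ _ _)) (fun x hx => by
        have key : ∀ i < L, x ∉ segment ℝ (q i) (q (i + 1)) := fun i hi hx' => by
          rcases (h2 L (by omega) i hi ⟨openSegment_subset_segment _ _ _ hx, hx'⟩).1 with h | h
          · exact (hop x hx).1 h
          · exact (hop x hx).2 h
        refine ⟨fun h => ?_, key⟩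
        rcases L with _ | L
        · exact (hop x hx).1 h
        · exact key 0 (by omega) (h ▸ left_mem_segment _ _ _))
      (k := if ∃ j ≤ L, q (L + 1) = q j then 1 else 0) (by
        by_cases h : ∃ j ≤ L, q (L + 1) = q j
        · right; rw [if_pos h]
        · left
          push Not at h
          refine ⟨h 0 (by omega), fun i hi hx => ?_⟩
          rcases (h2 L (by omega) i hi ⟨right_mem_segment _ _ _, hx⟩).2 with h' | h'
          · exact h i (by omega) h'
          · exact h (i + 1) (by omega) h')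
    rw [e, Finset.range_add_one, Finset.filter_insert]
    split_ifs at this ⊢ with h
    · rwa [Finset.card_insert_of_notMem (by simp), ← add_assoc]
    · exact this

/-- Points in different components are few. -/
theorem Cov.card_le {U : Set ℂ} {m : ℕ} (h : Cov U m) (D : Finset ℂ) (hD : ∀ x ∈ D, x ∈ U)
    (hD' : ∀ x ∈ D, ∀ y ∈ D, y ∈ connectedComponentIn U x → x = y) : D.card ≤ m := by
  classical
  obtain ⟨T, hT, hc⟩ := h
  choose! f hf hf' using hc
  refine (Finset.card_le_card_of_injOn f (fun x hx => hf x (hD x hx)) (fun x hx y hy e => ?_)).trans hT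
  refine hD' x hx y hy ?_
  rw [← connectedComponentIn_eq (hf' x (hD x hx)), e]
  exact hf' y (hD y hy)

end Pool.Agent.MP_b0ee3d_lc
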