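import Mathlib

set_option autoImplicit false

namespace Pool.Agent.MP_b0ee3d_lc

/-- The `i`-th point of the closed polygonal curve through the points of `q`, indices read
cyclically. -/
noncomputable def vtx (q : List ℂ) (i : ℕ) : ℂ := q.getD (i % q.length) 0

/-- The `i`-th link. -/
def link (q : List ℂ) (i : ℕ) : Set ℂ := segment ℝ (vtx q i) (vtx q (i + 1))

/-- The points of the plane that are not on the curve. -/
def off (q : List ℂ) : Set ℂ := {x | ∀ i < q.length, x ∉ link q i}

/-- The angle in which the curve leaves its `i`-th point backwards. -/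
noncomputable def angIn (q : List ℂ) (i : ℕ) : ℝ := (vtx q (i + q.length - 1) - vtx q i).arg

/-- The angle in which the curve leaves its `i`-th point forwards. -/
noncomputable def angOut (q : List ℂ) (i : ℕ) : ℝ := (vtx q (i + 1) - vtx q i).arg

/-- `x` lies strictly between `a` and `b`. -/
def Btw (a b x : ℝ) : Prop := (a < x ∧ x < b) ∨ (b < x ∧ x < a)

/-- `q` lists, in the order of the curve, the crossings (each twice) and the bend points of a
polygonal drawing of a sona map on the dots `P`; its link count is the length of `q`. -/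
def IsSona (P q : List ℂ) : Prop :=
  (∀ i < q.length, vtx q i ≠ vtx q (i + 1)) ∧
  (∀ i < q.length, ∀ j < q.length, i ≠ j →
    link q i ∩ link q j ⊆ {vtx q i, vtx q (i + 1)} ∩ {vtx q j, vtx q (j + 1)}) ∧
  (∀ k < q.length, ∀ j < k, ∀ i < j, ¬ (vtx q i = vtx q j ∧ vtx q j = vtx q k)) ∧
  (∀ i < q.length, ∀ j < q.length, i ≠ j → vtx q i = vtx q j →
    Xor (Btw (angIn q i) (angOut q i) (angIn q j)) (Btw (angIn q i) (angOut q i) (angOut q j))) ∧
  (∀ p ∈ P, p ∈ off q ∧ Bornology.IsBounded (connectedComponentIn (off q) p)) ∧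
  (∀ x ∈ off q, Bornology.IsBounded (connectedComponentIn (off q) x) →
    ∃! p, p ∈ P ∧ p ∈ connectedComponentIn (off q) x)

/-- Points with rational coordinates as points of the plane. -/
def toC (P : List (ℚ × ℚ)) : List ℂ := P.map fun p => ⟨p.1, p.2⟩

/-- The least link count for `n ≥ 1` dots. -/
def best (n : ℕ) : ℕ := if n ≤ 8 then [0, 3, 6, 9, 9, 10, 13, 14, 16].getD n 0 else 2 * n - 2

end Pool.Agent.MP_b0ee3d_lc
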