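import Mathlib

set_option autoImplicit false

/-! Winding sums of polygonal cycles. -/

namespace Pool.Agent.MP_b0ee3d_lc

open Set Complex Real

/-- the angle under which the segment from `s` to `t` is seen from `x` -/
noncomputable def ang (s t x : ℂ) : ℝ := ((t - x) / (s - x)).arg

/-- determinant -/
def det (a b : ℂ) : ℝ := a.re * b.im - a.im * b.re

theorem div_mem_slit {s t x : ℂ} (h : x ∉ segment ℝ s t) : (t - x) / (s - x) ∈ slitPlane := by
  have hs : s - x ≠ 0 := fun e => h (sub_eq_zero.mp e ▸ left_mem_segment _ _ _)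
  by_contra hc
  rw [mem_slitPlane_iff, not_or, not_not, not_lt] at hc
  set r := -((t - x) / (s - x)).re with hr
  have h1 : (t - x) / (s - x) = -(r : ℂ) := Complex.ext (by simp [hr]) (by simpa using hc.2)
  rw [div_eq_iff hs] at h1
  have h2 : 0 < 1 + r := by linarith [hc.1]
  apply h
  refine ⟨r / (1 + r), 1 / (1 + r), div_nonneg (by linarith [hc.1]) h2.le, by positivity,
    by field_simp; ring, ?_⟩
  have h3 : (1 + r : ℂ) ≠ 0 := by exact_mod_cast h2.ne'
  simp only [real_smul]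
  push_cast
  field_simp
  linear_combination h1

theorem ang_contAt {s t x : ℂ} (h : x ∉ segment ℝ s t) : ContinuousAt (ang s t) x := by
  have hs : s - x ≠ 0 := fun e => h (sub_eq_zero.mp e ▸ left_mem_segment _ _ _)
  exact (continuousAt_arg (div_mem_slit h)).comp (f := fun x => (t - x) / (s - x))
    (by fun_prop (disch := assumption))

theorem arg_div_int {a b : ℂ} (ha : a ≠ 0) (hb : b ≠ 0) :
    ∃ k : ℤ, (b / a).arg = b.arg - a.arg + 2 * π * k := by
  have := arg_div_coe_angle hb ha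
  rw [← Real.Angle.coe_sub, Real.Angle.angle_eq_iff_two_pi_dvd_sub] at this
  obtain ⟨k, hk⟩ := this
  exact ⟨k, by linarith⟩

theorem ang_int {s t x : ℂ} (h : x ∉ segment ℝ s t) :
    ∃ k : ℤ, ang s t x = (t - x).arg - (s - x).arg + 2 * π * k :=
  arg_div_int (fun e => h (sub_eq_zero.mp e ▸ left_mem_segment _ _ _))
    (fun e => h (sub_eq_zero.mp e ▸ right_mem_segment _ _ _))

/-- the sign of `r` is given by `b` -/
def Sg (b : Bool) (r : ℝ) : Prop := if b then 0 < r else r < 0

/-- signed crossing with a ray -/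
def kk (u v o : Bool) : ℤ := if u && !v && o then 1 else if !u && v && !o then -1 else 0

theorem arg_of_pos {z : ℂ} (h : 0 < z.im) : 0 < z.arg ∧ z.arg < π :=
  ⟨lt_of_le_of_ne (arg_nonneg_iff.mpr h.le) (fun e => h.ne' (arg_eq_zero_iff.mp e.symm).2),
    arg_lt_pi_iff.mpr (Or.inr h.ne')⟩

theorem arg_of_neg {z : ℂ} (h : z.im < 0) : -π < z.arg ∧ z.arg < 0 :=
  ⟨neg_pi_lt_arg z, arg_neg_iff.mpr h⟩

theorem im_div_sg {a b : ℂ} {o : Bool} (ho : Sg o (det a b)) : Sg o (b / a).im := by
  have ha : a ≠ 0 := by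
    rintro rfl
    cases o <;> simp [Sg, det] at ho
  have h1 : (b / a).im = det a b / normSq a := by
    rw [div_im, det]; ring
  have h2 := normSq_pos.mpr ha
  rw [h1]
  cases o
  · exact div_neg_of_neg_of_pos ho h2
  · exact div_pos ho h2

theorem int_eq_of {k m : ℤ} (h1 : 2 * π * k < 2 * π * (m + 1)) (h2 : 2 * π * (m - 1) < 2 * π * k) :
    k = m := by
  have hp : 0 < 2 * π := by positivity
  have a1 : (k : ℝ) < m + 1 := lt_of_mul_lt_mul_left h1 hp.le
  have a2 : (m - 1 : ℝ) < k := lt_of_mul_lt_mul_left h2 hp.le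
  have b1 : k < m + 1 := by exact_mod_cast a1
  have b2 : m - 1 < k := by exact_mod_cast a2
  omega

theorem ang_same {s t x ρ : ℂ} {u : Bool} (hu : Sg u (ρ * (s - x)).im)
    (hv : Sg u (ρ * (t - x)).im) : ang s t x = (ρ * (t - x)).arg - (ρ * (s - x)).arg := by
  have hs : ρ * (s - x) ≠ 0 := by
    intro e; rw [e] at hu; cases u <;> simp [Sg] at hu
  have ht : ρ * (t - x) ≠ 0 := by
    intro e; rw [e] at hv; cases u <;> simp [Sg] at hv
  obtain ⟨k, hk⟩ := arg_div_int hs ht
  rw [mul_div_mul_left _ _ (left_ne_zero_of_mul hs)] at hk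
  have h1 := neg_pi_lt_arg ((t - x) / (s - x))
  have h2 := arg_le_pi ((t - x) / (s - x))
  have : k = 0 := by
    cases u
    · have := arg_of_neg hu
      have := arg_of_neg hv
      apply int_eq_of <;> push_cast <;> linarith [this.1, this.2]
    · have := arg_of_pos hu
      have := arg_of_pos hv
      apply int_eq_of <;> push_cast <;> linarith [this.1, this.2]
  rw [ang, hk, this]; simp

theorem ang_kk {s t x ρ : ℂ} {u v o : Bool} (hu : Sg u (ρ * (s - x)).im)
    (hv : Sg v (ρ * (t - x)).im) (ho : Sg o (det (s - x) (t - x))) :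
    ang s t x = (ρ * (t - x)).arg - (ρ * (s - x)).arg + 2 * π * kk u v o := by
  by_cases huv : u = v
  · subst huv
    rw [ang_same hu hv]
    cases u <;> simp [kk]
  have hs : ρ * (s - x) ≠ 0 := by
    intro e; rw [e] at hu; cases u <;> simp [Sg] at hu
  have ht : ρ * (t - x) ≠ 0 := by
    intro e; rw [e] at hv; cases v <;> simp [Sg] at hv
  obtain ⟨k, hk⟩ := arg_div_int hs ht
  rw [mul_div_mul_left _ _ (left_ne_zero_of_mul hs)] at hk
  have h3 := im_div_sg ho
  have : k = kk u v o := by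
    cases u <;> cases v
    · exact absurd rfl huv
    · obtain ⟨a1, a2⟩ := arg_of_neg hu
      obtain ⟨a3, a4⟩ := arg_of_pos hv
      cases o
      · obtain ⟨a5, a6⟩ := arg_of_neg h3
        rw [show kk false true false = -1 from rfl]
        apply int_eq_of <;> push_cast <;> linarith
      · obtain ⟨a5, a6⟩ := arg_of_pos h3
        rw [show kk false true true = 0 from rfl]
        apply int_eq_of <;> push_cast <;> linarith
    · obtain ⟨a1, a2⟩ := arg_of_pos hu
      obtain ⟨a3, a4⟩ := arg_of_neg hv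
      cases o
      · obtain ⟨a5, a6⟩ := arg_of_neg h3
        rw [show kk true false false = 0 from rfl]
        apply int_eq_of <;> push_cast <;> linarith
      · obtain ⟨a5, a6⟩ := arg_of_pos h3
        rw [show kk true false true = 1 from rfl]
        apply int_eq_of <;> push_cast <;> linarith
    · exact absurd rfl huv
  rw [ang, hk, this]

variable {ι : Type} (Z : Finset ι) (s t : ι → ℂ)

/-- The oriented segments from `s k` to `t k`, `k ∈ Z`, form a cycle. -/
def Cyc : Prop := ∀ f : ℂ → ℝ, ∑ k ∈ Z, f (t k) = ∑ k ∈ Z, f (s k)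

/-- winding sum -/
noncomputable def om (x : ℂ) : ℝ := ∑ k ∈ Z, ang (s k) (t k) x

variable {Z s t}

theorem om_int (hc : Cyc Z s t) {x : ℂ} (hx : ∀ k ∈ Z, x ∉ segment ℝ (s k) (t k)) :
    ∃ z : ℤ, om Z s t x = 2 * π * z := by
  choose! f hf using fun k hk => ang_int (hx k hk)
  refine ⟨∑ k ∈ Z, f k, ?_⟩
  rw [om, Finset.sum_congr rfl hf, Finset.sum_add_distrib, Finset.sum_sub_distrib,
    hc (fun p => (p - x).arg), sub_self, zero_add, ← Finset.mul_sum]
  push_cast; rfl

theorem om_const (hc : Cyc Z s t) {W : Set ℂ} (hW : IsPreconnected W)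
    (hx : ∀ x ∈ W, ∀ k ∈ Z, x ∉ segment ℝ (s k) (t k)) {x y : ℂ} (h1 : x ∈ W) (h2 : y ∈ W) :
    om Z s t x = om Z s t y := by
  have hcont : ContinuousOn (om Z s t) W := fun x hx' =>
    (tendsto_finsetSum Z fun k hk => ang_contAt (hx x hx' k hk)).mono_left nhdsWithin_le_nhds
  have key : ∀ x ∈ W, ∀ y ∈ W, ¬ om Z s t x < om Z s t y := by
    intro x h1 y h2 h
    obtain ⟨a, ha⟩ := om_int hc (hx x h1)
    obtain ⟨b, hb⟩ := om_int hc (hx y h2)
    have hp := Real.pi_pos
    have hab : a + 1 ≤ b := by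
      rw [ha, hb] at h
      have : (a : ℝ) < b := lt_of_mul_lt_mul_left h (by positivity)
      exact_mod_cast this
    have hab' : (a : ℝ) + 1 ≤ b := by exact_mod_cast hab
    obtain ⟨z, hz, hz'⟩ := hW.intermediate_value h1 h2 hcont
      (show 2 * π * a + π ∈ Icc (om Z s t x) (om Z s t y) by
        rw [ha, hb]; constructor <;> nlinarith)
    obtain ⟨c, hc'⟩ := om_int hc (hx z hz)
    rw [hc'] at hz'
    have : (2 * c : ℝ) = 2 * a + 1 := mul_left_cancel₀ hp.ne' (by linarith)
    have : 2 * c = 2 * a + 1 := by exact_mod_cast this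
    omega
  exact le_antisymm (not_lt.mp (key y h2 x h1)) (not_lt.mp (key x h1 y h2))

theorem om_kk (hc : Cyc Z s t) {x ρ : ℂ} {u v o : ι → Bool}
    (hu : ∀ k ∈ Z, Sg (u k) (ρ * (s k - x)).im) (hv : ∀ k ∈ Z, Sg (v k) (ρ * (t k - x)).im)
    (ho : ∀ k ∈ Z, Sg (o k) (det (s k - x) (t k - x))) :
    om Z s t x = 2 * π * (∑ k ∈ Z, kk (u k) (v k) (o k) : ℤ) := by
  rw [om, Finset.sum_congr rfl (fun k hk => ang_kk (hu k hk) (hv k hk) (ho k hk)),
    Finset.sum_add_distrib, Finset.sum_sub_distrib,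
    hc (fun p => (ρ * (p - x)).arg), sub_self, zero_add, ← Finset.mul_sum]
  push_cast; rfl

/-- The winding sum vanishes on unbounded connected sets. -/
theorem om_unbounded (hc : Cyc Z s t) {W : Set ℂ} (hW : IsPreconnected W)
    (hx : ∀ x ∈ W, ∀ k ∈ Z, x ∉ segment ℝ (s k) (t k)) (hb : ¬ Bornology.IsBounded W)
    {x : ℂ} (h1 : x ∈ W) : om Z s t x = 0 := by
  obtain ⟨R, hR⟩ : ∃ R : ℝ, ∀ k ∈ Z, ‖s k‖ ≤ R ∧ ‖t k‖ ≤ R :=
    ⟨∑ k ∈ Z, (‖s k‖ + ‖t k‖), fun k hk => by
      have := Finset.single_le_sum (f := fun k => ‖s k‖ + ‖t k‖) (fun _ _ => by positivity) hk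
      constructor <;> linarith [norm_nonneg (s k), norm_nonneg (t k)]⟩
  obtain ⟨y, hy, hy'⟩ : ∃ y ∈ W, R < ‖y‖ := by
    by_contra h
    push Not at h
    exact hb (isBounded_iff_forall_norm_le.mpr ⟨R, h⟩)
  have key : ∀ p : ℂ, ‖p‖ ≤ R → Sg true (-I * (starRingEnd ℂ) y * (p - y)).im := by
    intro p hp
    have h2 : ((starRingEnd ℂ) y * p).re ≤ ‖y‖ * ‖p‖ := by
      refine (re_le_norm _).trans ?_
      rw [norm_mul, Complex.norm_conj]
    have h3 : ‖y‖ * ‖y‖ = y.re * y.re + y.im * y.im := by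
      rw [← normSq_apply, normSq_eq_norm_sq]; ring
    have h4 : 0 < ‖y‖ := lt_of_le_of_lt ((norm_nonneg p).trans hp) hy'
    have h5 : ‖y‖ * ‖p‖ < ‖y‖ * ‖y‖ := mul_lt_mul_of_pos_left (lt_of_le_of_lt hp hy') h4
    simp [Sg] at h2 ⊢
    linarith
  rw [om_const hc hW hx h1 hy, om,
    Finset.sum_congr rfl (fun k hk => ang_same (key _ (hR k hk).1) (key _ (hR k hk).2)),
    Finset.sum_sub_distrib, hc (fun p => (-I * (starRingEnd ℂ) y * (p - y)).arg), sub_self]

theorem arg_neg_div {a b : ℂ} (ha : a ≠ 0) (hb : b ≠ 0) :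
    (-b / a).arg = b.arg - a.arg + (if b.arg ≤ a.arg then π else -π) := by
  have h1 : ((-b / a).arg : Real.Angle) = ((b.arg - a.arg + π : ℝ) : Real.Angle) := by
    rw [neg_div, arg_neg_coe_angle (div_ne_zero hb ha), arg_div_coe_angle hb ha]
    simp
  rw [Real.Angle.angle_eq_iff_two_pi_dvd_sub] at h1
  obtain ⟨k, hk⟩ := h1
  have a1 := neg_pi_lt_arg (-b / a)
  have a2 := arg_le_pi (-b / a)
  have a3 := neg_pi_lt_arg a
  have a4 := arg_le_pi a
  have a5 := neg_pi_lt_arg b
  have a6 := arg_le_pi b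
  split_ifs with h
  · have : k = 0 := by
      apply int_eq_of <;> push_cast <;> linarith
    rw [this] at hk; simp at hk; linarith
  · have : k = -1 := by
      apply int_eq_of <;> push_cast <;> linarith [not_le.mp h]
    rw [this] at hk; push_cast at hk; linarith

/-- the limit of the angle when approaching `y` in direction `u` -/
noncomputable def lim (s t y u : ℂ) : ℝ :=
  if s = y then (-(t - y) / u).arg else if t = y then (-u / (s - y)).arg else ang s t y

theorem arg_ne_of {y u a : ℂ} (hu : u ≠ 0) (ha : a ≠ y)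
    (h : ∀ e : ℝ, 0 < e → e < 1 → y + e * u ∉ segment ℝ y a) : u.arg ≠ (a - y).arg := by
  intro e
  have ha' : a - y ≠ 0 := sub_ne_zero.mpr ha
  rw [arg_eq_arg_iff hu ha'] at e
  have h1 : 0 < ‖u‖ := norm_pos_iff.mpr hu
  have h2 : 0 < ‖a - y‖ := norm_pos_iff.mpr ha'
  set c := ‖a - y‖ / ‖u‖ with hc
  have hc0 : 0 < c := div_pos h2 h1
  have e' : (c : ℂ) * u = a - y := by rw [← e, hc]; push_cast; rfl
  have h3 : 0 < 1 + c := by linarith
  apply h (c / (1 + c)) (div_pos hc0 h3) ((div_lt_one h3).mpr (by linarith))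
  refine ⟨c / (1 + c), 1 / (1 + c), by positivity, by positivity, by field_simp; ring, ?_⟩
  have h4 : (1 + c : ℂ) ≠ 0 := by exact_mod_cast h3.ne'
  simp only [real_smul]
  push_cast
  field_simp
  linear_combination -e'

theorem neg_div_slit {a b : ℂ} (ha : a ≠ 0) (hb : b ≠ 0) (h : a.arg ≠ b.arg) :
    -b / a ∈ slitPlane := by
  rw [mem_slitPlane_iff_arg, arg_neg_div ha hb]
  refine ⟨fun e => ?_, div_ne_zero (neg_ne_zero.mpr hb) ha⟩
  have a3 := neg_pi_lt_arg a
  have a6 := arg_le_pi b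
  split_ifs at e with h'
  · exact h (by linarith)
  · linarith

theorem tendsto_lim {s t y u : ℂ} (hst : s ≠ t) (hu : u ≠ 0)
    (h : ∀ e : ℝ, 0 < e → e < 1 → y + e * u ∉ segment ℝ s t)
    (hy : y ∈ segment ℝ s t → y = s ∨ y = t) :
    Filter.Tendsto (fun e : ℝ => ang s t (y + e * u)) (nhdsWithin 0 (Ioi 0)) (nhds (lim s t y u)) := by
  unfold lim
  split_ifs with h1 h2
  · subst h1
    have hne := arg_ne_of hu hst.symm h
    have hs := neg_div_slit hu (sub_ne_zero.mpr hst.symm) hne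
    have hc : ContinuousAt (fun e : ℝ => (-(t - s - e * u) / u).arg) 0 :=
      ContinuousAt.comp (g := arg) (f := fun e : ℝ => -(t - s - e * u) / u)
        (by simpa using continuousAt_arg (by simpa using hs)) (by fun_prop)
    have := hc.tendsto.mono_left (nhdsWithin_le_nhds (s := Ioi 0))
    simp only [ofReal_zero, zero_mul, sub_zero] at this
    refine this.congr' ?_
    filter_upwards [self_mem_nhdsWithin] with e he
    have he' : (e : ℂ) ≠ 0 := by exact_mod_cast (ne_of_gt he)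
    rw [ang, ← arg_real_mul ((t - (s + e * u)) / (s - (s + e * u))) he]
    congr 1
    rw [show s - (s + e * u) = -(e * u) by ring]
    field_simp
    ring
  · subst h2
    have hne := arg_ne_of hu hst (fun e h1 h2 => segment_symm ℝ s t ▸ h e h1 h2)
    have hs := neg_div_slit (sub_ne_zero.mpr hst) hu hne.symm
    have hst' : s - t ≠ 0 := sub_ne_zero.mpr hst
    have hc : ContinuousAt (fun e : ℝ => (-u / (s - t - e * u)).arg) 0 :=
      ContinuousAt.comp (g := arg) (f := fun e : ℝ => -u / (s - t - e * u))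
        (by simpa using continuousAt_arg hs)
        (ContinuousAt.div (by fun_prop) (by fun_prop) (by simpa using hst'))
    have := hc.tendsto.mono_left (nhdsWithin_le_nhds (s := Ioi 0))
    simp only [ofReal_zero, zero_mul, sub_zero] at this
    refine this.congr' ?_
    filter_upwards [self_mem_nhdsWithin] with e he
    rw [ang, ← arg_real_mul (-u / (s - t - e * u)) he]
    congr 1
    rw [show s - (t + e * u) = s - t - e * u by ring]
    ring
  · have hy' : y ∉ segment ℝ s t := fun h' => (hy h').elim (fun e => h1 e.symm) (fun e => h2 e.symm)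
    have hc : ContinuousAt (fun e : ℝ => ang s t (y + e * u)) 0 :=
      ContinuousAt.comp (g := ang s t) (f := fun e : ℝ => y + e * u)
        (by simpa using ang_contAt hy') (by fun_prop)
    have := hc.tendsto.mono_left (nhdsWithin_le_nhds (s := Ioi 0))
    simpa using this

/-- The winding sum along a free segment starting at `y`. -/
theorem om_eq_lim (hc : Cyc Z s t) {y u : ℂ} (hst : ∀ k ∈ Z, s k ≠ t k) (hu : u ≠ 0)
    (h : ∀ k ∈ Z, ∀ e : ℝ, 0 < e → e < 1 → y + e * u ∉ segment ℝ (s k) (t k))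
    (hy : ∀ k ∈ Z, y ∈ segment ℝ (s k) (t k) → y = s k ∨ y = t k) :
    om Z s t (y + (1 / 2 : ℝ) * u) = ∑ k ∈ Z, lim (s k) (t k) y u := by
  have h1 := tendsto_finsetSum Z fun k hk => tendsto_lim (hst k hk) hu (h k hk) (hy k hk)
  have hW : IsPreconnected ((fun e : ℝ => y + e * u) '' Ioo 0 1) :=
    isPreconnected_Ioo.image _ (by fun_prop)
  refine tendsto_nhds_unique (tendsto_const_nhds.congr' ?_) h1
  filter_upwards [Ioo_mem_nhdsGT (show (0 : ℝ) < 1 by norm_num)] with e he
  refine om_const hc hW ?_ ⟨1 / 2, ⟨by norm_num, by norm_num⟩, rfl⟩ ⟨e, he, rfl⟩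
  rintro _ ⟨e, he, rfl⟩ k hk
  exact h k hk e he.1 he.2

end Pool.Agent.MP_b0ee3d_lc
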