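import Mathlib
import Pool.Agent.MP_b0ee3d_lc.Defs
import Pool.Agent.MP_b0ee3d_lc.Wind

set_option autoImplicit false

/-! Parity conditions on the Gauss word of a polygonal curve. -/

namespace Pool.Agent.MP_b0ee3d_lc

open Set Complex Real

/-- The conditions on the curve, for a periodic sequence of points. -/
structure Good (q : ℕ → ℂ) (L : ℕ) : Prop where
  pos : 0 < L
  per : ∀ i, q (i + L) = q i
  ne : ∀ i, q i ≠ q (i + 1)
  meet : ∀ i j, i % L ≠ j % L → segment ℝ (q i) (q (i + 1)) ∩ segment ℝ (q j) (q (j + 1)) ⊆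
    {q i, q (i + 1)} ∩ {q j, q (j + 1)}
  tri : ∀ i j k, i % L ≠ j % L → i % L ≠ k % L → j % L ≠ k % L → q i = q j → q i ≠ q k
  cross : ∀ i j, i % L ≠ j % L → q (i + 1) = q (j + 1) →
    Xor (Btw (q i - q (i + 1)).arg (q (i + 2) - q (i + 1)).arg (q j - q (j + 1)).arg)
      (Btw (q i - q (i + 1)).arg (q (i + 2) - q (i + 1)).arg (q (j + 2) - q (j + 1)).arg)

theorem mod_ne {L i j : ℕ} (h1 : i < j) (h2 : j < i + L) : i % L ≠ j % L := by
  intro h
  have := (Nat.modEq_iff_dvd' h1.le).mp h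
  have := Nat.le_of_dvd (by omega) this
  omega

theorem lim_diff {ι : Type} {Z : Finset ι} {s t : ι → ℂ} {y : ℂ} (u v : ℂ) {a b : ι}
    (ha : a ∈ Z) (hb : b ∈ Z) (e1 : s a = y) (e2 : t b = y) (hne : s b ≠ y)
    (u1 : ∀ r ∈ Z, s r = y → r = a) (u2 : ∀ r ∈ Z, t r = y → r = b) :
    ∑ k ∈ Z, lim (s k) (t k) y u - ∑ k ∈ Z, lim (s k) (t k) y v =
      ((-(t a - y) / u).arg + (-u / (s b - y)).arg) -
        ((-(t a - y) / v).arg + (-v / (s b - y)).arg) := by
  rw [← Finset.sum_sub_distrib, Finset.sum_eq_add_of_mem a b ha hb (fun e => hne (e ▸ e1))]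
  · simp only [lim, e1, e2, hne, if_true, if_false]
    ring
  · intro c hc ⟨h1, h2⟩
    simp only [lim, if_neg (fun e => h1 (u1 c hc e)), if_neg (fun e => h2 (u2 c hc e)), sub_self]

theorem lim_diff0 {ι : Type} {Z : Finset ι} {s t : ι → ℂ} {y : ℂ} (u v : ℂ)
    (u1 : ∀ r ∈ Z, s r ≠ y) (u2 : ∀ r ∈ Z, t r ≠ y) :
    ∑ k ∈ Z, lim (s k) (t k) y u = ∑ k ∈ Z, lim (s k) (t k) y v :=
  Finset.sum_congr rfl fun c hc => by simp only [lim, if_neg (u1 c hc), if_neg (u2 c hc)]

open Classical in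
theorem phi_eq {a b u : ℂ} (ha : a ≠ 0) (hb : b ≠ 0) (hu : u ≠ 0) (h1 : u.arg ≠ a.arg)
    (h2 : u.arg ≠ b.arg) : (-b / u).arg + (-u / a).arg = b.arg - a.arg +
      if Btw a.arg b.arg u.arg then (if a.arg < b.arg then -(2 * π) else 2 * π) else 0 := by
  rw [arg_neg_div hu hb, arg_neg_div ha hu]
  unfold Btw
  rcases lt_or_gt_of_ne h1 with h1 | h1 <;> rcases lt_or_gt_of_ne h2 with h2 | h2
  · rw [if_neg (not_le.mpr h2), if_pos h1.le, if_neg (by rintro (h | h) <;> linarith [h.1])]
    ring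
  · rw [if_pos h2.le, if_pos h1.le, if_pos (Or.inr ⟨h2, h1⟩), if_neg (by linarith)]
    ring
  · rw [if_neg (not_le.mpr h2), if_neg (not_le.mpr h1), if_pos (Or.inl ⟨h1, h2⟩),
      if_pos (by linarith)]
    ring
  · rw [if_pos h2.le, if_neg (not_le.mpr h1), if_neg (by rintro (h | h) <;> linarith [h.2])]
    ring

theorem btw_swap {a b u v : ℝ} (_ : u ≠ a) (h2 : u ≠ b) (h3 : v ≠ a) (h4 : v ≠ b)
    (h : Xor (Btw a u v) (Btw a u b)) : Btw a b u ↔ Btw a b v := by
  unfold Btw Xor at *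
  grind

namespace Good

variable {q : ℕ → ℂ} {L : ℕ} (h : Good q L)
include h

theorem out_off {p r : ℕ} (hne : p % L ≠ r % L) (e : ℝ) (h0 : 0 < e) (h1 : e < 1) :
    q p + e * (q (p + 1) - q p) ∉ segment ℝ (q r) (q (r + 1)) := by
  intro hx
  have hm : q p + e * (q (p + 1) - q p) ∈ segment ℝ (q p) (q (p + 1)) :=
    ⟨1 - e, e, by linarith, h0.le, by ring, by simp only [real_smul]; push_cast; ring⟩
  have hu := sub_ne_zero.mpr (h.ne p).symm
  rcases (h.meet p r hne ⟨hm, hx⟩).1 with h2 | h2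
  · have : (e : ℂ) * (q (p + 1) - q p) = 0 := by linear_combination h2
    rcases mul_eq_zero.mp this with h3 | h3
    · exact h0.ne' (by exact_mod_cast h3)
    · exact hu h3
  · have : ((e : ℂ) - 1) * (q (p + 1) - q p) = 0 := by
      rw [mem_singleton_iff] at h2
      linear_combination h2
    rcases mul_eq_zero.mp this with h3 | h3
    · exact h1.ne (by exact_mod_cast sub_eq_zero.mp h3)
    · exact hu h3

theorem in_off {p r : ℕ} (hne : p % L ≠ r % L) (e : ℝ) (h0 : 0 < e) (h1 : e < 1) :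
    q (p + 1) + e * (q p - q (p + 1)) ∉ segment ℝ (q r) (q (r + 1)) := by
  have := h.out_off hne (1 - e) (by linarith) (by linarith)
  rwa [show q p + ((1 - e : ℝ) : ℂ) * (q (p + 1) - q p) = q (p + 1) + e * (q p - q (p + 1)) by
    push_cast; ring] at this

theorem no_par {i j : ℕ} (hne : i % L ≠ j % L) :
    ¬ (q i = q j ∧ q (i + 1) = q (j + 1)) ∧ ¬ (q i = q (j + 1) ∧ q (i + 1) = q j) := by
  have h1 := h.out_off hne (1 / 2) (by norm_num) (by norm_num)
  have hm : q i + ((1 / 2 : ℝ) : ℂ) * (q (i + 1) - q i) ∈ segment ℝ (q i) (q (i + 1)) :=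
    ⟨1 / 2, 1 / 2, by norm_num, by norm_num, by norm_num, by simp only [real_smul]; push_cast; ring⟩
  constructor
  · rintro ⟨e1, e2⟩
    exact h1 (by rwa [← e1, ← e2])
  · rintro ⟨e1, e2⟩
    exact h1 (by rwa [← e1, ← e2, segment_symm])

theorem even_cross {k l i j : ℕ} (hkl : k < l) (hli : l ≤ i) (hij : i < j) (hjk : j ≤ k + L)
    (h1 : q k = q l) (h2 : q i = q j) (h3 : (i = l ∧ j = k + L) ∨ (l < i ∧ j < k + L))
    (S : ℕ → Prop) [DecidablePred S]
    (hS : ∀ p, k < p → p < l → (S p ↔ ∃ r, i < r ∧ r < j ∧ q r = q p)) :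
    Even ((Finset.Ioo k l).filter S).card := by
  classical
  have hc : Cyc (Finset.Ico i j) q (fun r => q (r + 1)) := fun f => by
    rw [← sub_eq_zero, ← Finset.sum_sub_distrib, Finset.sum_Ico_sub (fun r => f (q r)) hij.le, h2,
      sub_self]
  have hfree : ∀ p, k ≤ p → p < l → ∀ r ∈ Finset.Ico i j, p % L ≠ r % L := fun p a b r hr => by
    rw [Finset.mem_Ico] at hr
    exact mod_ne (by omega) (by omega)
  let w : ℕ → ℝ := fun p => om (Finset.Ico i j) q (fun r => q (r + 1))
    (q p + (1 / 2 : ℝ) * (q (p + 1) - q p))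
  have wout : ∀ p, k ≤ p → p < l → w p = ∑ r ∈ Finset.Ico i j,
      lim (q r) (q (r + 1)) (q p) (q (p + 1) - q p) := fun p a b =>
    om_eq_lim hc (fun r _ => h.ne r) (sub_ne_zero.mpr (h.ne p).symm)
      (fun r hr => h.out_off (hfree p a b r hr))
      (fun r hr hy => (h.meet p r (hfree p a b r hr) ⟨left_mem_segment _ _ _, hy⟩).2)
  have win : ∀ p, k ≤ p → p < l → w p = ∑ r ∈ Finset.Ico i j,
      lim (q r) (q (r + 1)) (q (p + 1)) (q p - q (p + 1)) := fun p a b => by
    rw [← om_eq_lim hc (fun r _ => h.ne r) (sub_ne_zero.mpr (h.ne p))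
      (fun r hr => h.in_off (hfree p a b r hr))
      (fun r hr hy => (h.meet p r (hfree p a b r hr) ⟨right_mem_segment _ _ _, hy⟩).2)]
    simp only [w]
    congr 1
    push_cast; ring
  have oo : ∀ p r, p % L ≠ r % L → q r = q p →
      (q (p + 1) - q p).arg ≠ (q (r + 1) - q p).arg := fun p r hne e =>
    arg_ne_of (sub_ne_zero.mpr (h.ne p).symm) (e ▸ (h.ne r).symm)
      (fun x a b => e ▸ h.out_off hne x a b |> fun h' => by simpa [e] using h.out_off hne x a b)
  have oi : ∀ p r, p % L ≠ r % L → q (r + 1) = q p →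
      (q (p + 1) - q p).arg ≠ (q r - q p).arg := fun p r hne e =>
    arg_ne_of (sub_ne_zero.mpr (h.ne p).symm) (e ▸ h.ne r)
      (fun x a b => by simpa [e, segment_symm] using h.out_off hne x a b)
  have io : ∀ p r, p % L ≠ r % L → q r = q (p + 1) →
      (q p - q (p + 1)).arg ≠ (q (r + 1) - q (p + 1)).arg := fun p r hne e =>
    arg_ne_of (sub_ne_zero.mpr (h.ne p)) (e ▸ (h.ne r).symm)
      (fun x a b => by simpa [e] using h.in_off hne x a b)
  have ii : ∀ p r, p % L ≠ r % L → q (r + 1) = q (p + 1) →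
      (q p - q (p + 1)).arg ≠ (q r - q (p + 1)).arg := fun p r hne e =>
    arg_ne_of (sub_ne_zero.mpr (h.ne p)) (e ▸ h.ne r)
      (fun x a b => by simpa [e, segment_symm] using h.in_off hne x a b)
  have hij' : i % L ≠ j % L := mod_ne hij (by omega)
  have step : ∀ p, k ≤ p → p + 1 < l → ∃ z : ℤ, w (p + 1) - w p = 2 * π * z ∧
      (Even z ↔ ¬ S (p + 1)) := by
    intro p a b
    rw [wout (p + 1) (by omega) b, win p a (by omega), hS (p + 1) (by omega) b]
    have hend : q i ≠ q (p + 1) := h.tri i j (p + 1) hij' (mod_ne (by omega) (by omega)).symm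
      (mod_ne (by omega) (by omega)).symm h2
    by_cases hr : ∃ r, i < r ∧ r < j ∧ q r = q (p + 1)
    · obtain ⟨r, r1, r2, r3⟩ := hr
      obtain ⟨r, rfl⟩ : ∃ r', r = r' + 1 := ⟨r - 1, by omega⟩
      have uq : ∀ r', i ≤ r' → r' ≤ j → q r' = q (p + 1) → r' = r + 1 := by
        intro r' a1 a2 a3
        by_contra hne
        refine h.tri (p + 1) (r + 1) r' (mod_ne (by omega) (by omega))
          (mod_ne (by omega) (by omega)) ?_ r3.symm a3.symm
        rcases lt_or_gt_of_ne hne with h' | h'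
        · exact (mod_ne h' (by omega)).symm
        · exact mod_ne h' (by omega)
      have m1 : r + 1 ∈ Finset.Ico i j := Finset.mem_Ico.mpr ⟨by omega, r2⟩
      have m2 : r ∈ Finset.Ico i j := Finset.mem_Ico.mpr ⟨by omega, by omega⟩
      have n1 : q r - q (p + 1) ≠ 0 := sub_ne_zero.mpr (r3 ▸ h.ne r)
      have n2 : q (r + 1 + 1) - q (p + 1) ≠ 0 := sub_ne_zero.mpr (r3 ▸ (h.ne (r + 1)).symm)
      rw [lim_diff (t := fun r => q (r + 1)) _ _ m1 m2 r3 r3 (r3 ▸ h.ne r)
        (fun x hx e => uq x (Finset.mem_Ico.mp hx).1 (Finset.mem_Ico.mp hx).2.le e)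
        (fun x hx e => by
          have := uq (x + 1) (by have := (Finset.mem_Ico.mp hx).1; omega)
            (Finset.mem_Ico.mp hx).2 e
          omega),
        phi_eq n1 n2 (sub_ne_zero.mpr (h.ne _).symm)
          (oi _ _ (hfree _ (by omega) b _ m2) r3) (oo _ _ (hfree _ (by omega) b _ m1) r3),
        phi_eq n1 n2 (sub_ne_zero.mpr (h.ne _))
          (ii _ _ (hfree _ a (by omega) _ m2) r3) (io _ _ (hfree _ a (by omega) _ m1) r3)]
      have hx := h.cross r p (hfree _ a (by omega) _ m2).symm r3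
      rw [r3] at hx
      have hex : ¬ ¬ ∃ r, i < r ∧ r < j ∧ q r = q (p + 1) := not_not.mpr ⟨r + 1, r1, r2, r3⟩
      rcases hx with ⟨x1, x2⟩ | ⟨x1, x2⟩
      · rw [if_pos x1, if_neg x2]
        split_ifs
        · exact ⟨1, by push_cast; ring, iff_of_false (by decide) hex⟩
        · exact ⟨-1, by push_cast; ring, iff_of_false (by decide) hex⟩
      · rw [if_pos x1, if_neg x2]
        split_ifs
        · exact ⟨-1, by push_cast; ring, iff_of_false (by decide) hex⟩
        · exact ⟨1, by push_cast; ring, iff_of_false (by decide) hex⟩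
    · refine ⟨0, ?_, iff_of_true (by decide) hr⟩
      rw [lim_diff0 (t := fun r => q (r + 1)) _ (q p - q (p + 1)), sub_self]
      · simp
      · intro r hr' e
        rw [Finset.mem_Ico] at hr'
        rcases hr'.1.eq_or_lt with rfl | h'
        · exact hend e
        · exact hr ⟨r, h', hr'.2, e⟩
      · intro r hr' e
        rw [Finset.mem_Ico] at hr'
        rcases (show r + 1 ≤ j from hr'.2).eq_or_lt with rfl | h'
        · exact hend (h2.trans e)
        · exact hr ⟨r + 1, by omega, h', e⟩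
  have ind : ∀ p, k ≤ p → p < l → ∃ z : ℤ, w p - w k = 2 * π * z ∧
      (Even z ↔ Even ((Finset.Ioc k p).filter S).card) := by
    intro p a
    induction p, a using Nat.le_induction with
    | base => exact fun _ => ⟨0, by simp, by simp⟩
    | succ p a ih =>
      intro b
      obtain ⟨z, z1, z2⟩ := ih (by omega)
      obtain ⟨y, y1, y2⟩ := step p a b
      refine ⟨z + y, by push_cast; linarith, ?_⟩
      rw [← Finset.insert_Ioc_right_eq_Ioc_add_one a, Finset.filter_insert, Int.even_add, z2, y2]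
      split_ifs with hs
      · rw [Finset.card_insert_of_notMem (by simp), Nat.even_add_one]
        simp [hs]
      · simp [hs]
  obtain ⟨l, rfl⟩ : ∃ l', l = l' + 1 := ⟨l - 1, by omega⟩
  obtain ⟨z, z1, z2⟩ := ind l (by omega) (by omega)
  have hz : w l - w k = 0 := by
    rw [win l (by omega) (by omega), wout k le_rfl hkl, ← h1]
    have hkl' : k % L ≠ (l + 1) % L := mod_ne hkl (by omega)
    rcases h3 with ⟨rfl, rfl⟩ | ⟨a, b⟩
    · obtain ⟨m, hm⟩ : ∃ m, k + L = m + 1 := ⟨k + L - 1, by omega⟩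
      have e1 : q (m + 1) = q k := by rw [← hm, h.per]
      have e2 : q (m + 2) = q (k + 1) := by rw [← h.per (k + 1)]; congr 1; omega
      have m1 : l + 1 ∈ Finset.Ico (l + 1) (k + L) := Finset.mem_Ico.mpr ⟨le_rfl, hij⟩
      have m2 : m ∈ Finset.Ico (l + 1) (k + L) := Finset.mem_Ico.mpr ⟨by omega, by omega⟩
      have uq : ∀ r, l + 1 < r → r < k + L → q r ≠ q k := fun r a b e =>
        h.tri k (l + 1) r hkl' (mod_ne (by omega) b) (mod_ne a (by omega)) h1 e.symm
      have n1 : q m - q k ≠ 0 := sub_ne_zero.mpr (e1 ▸ h.ne m)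
      have n2 : q (l + 1 + 1) - q k ≠ 0 := sub_ne_zero.mpr (h1 ▸ (h.ne (l + 1)).symm)
      have d1 := oi _ _ (hfree k le_rfl hkl _ m2) e1
      have d2 := oo _ _ (hfree k le_rfl hkl _ m1) h1.symm
      have d3 := ii _ _ (hfree l (by omega) (by omega) _ m2) (e1.trans h1)
      have d4 := io _ _ (hfree l (by omega) (by omega) _ m1) rfl
      rw [← h1] at d3 d4
      rw [lim_diff (t := fun r => q (r + 1)) _ _ m1 m2 h1.symm e1 (e1 ▸ h.ne m)
        (fun x hx e => by
          rw [Finset.mem_Ico] at hx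
          by_contra hne
          exact uq x (by omega) hx.2 e)
        (fun x hx e => by
          rw [Finset.mem_Ico] at hx
          by_contra hne
          exact uq (x + 1) (by omega) (by omega) e),
        phi_eq n1 n2 (sub_ne_zero.mpr (h1 ▸ h.ne l)) d3 d4,
        phi_eq n1 n2 (sub_ne_zero.mpr (h.ne _).symm) d1 d2]
      have hx := h.cross m l (hfree l (by omega) (by omega) _ m2).symm (e1.trans h1)
      rw [e1, e2, ← h1] at hx
      have := btw_swap d1 d2 d3 d4 hx
      simp only [this, sub_self]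
    · have uq : ∀ r, l + 1 < r → r < k + L → q r ≠ q k := fun r a b e =>
        h.tri k (l + 1) r hkl' (mod_ne (by omega) b) (mod_ne a (by omega)) h1 e.symm
      rw [lim_diff0 (t := fun r => q (r + 1)) _ (q (k + 1) - q k), sub_self]
      · intro r hr
        rw [Finset.mem_Ico] at hr
        exact uq r (by omega) (by omega)
      · intro r hr
        rw [Finset.mem_Ico] at hr
        exact uq (r + 1) (by omega) (by omega)
  rw [hz] at z1
  have : z = 0 := by
    have := (mul_eq_zero.mp z1.symm).resolve_left (by positivity)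
    exact_mod_cast this
  rw [Finset.Ioo_add_one_right_eq_Ioc, ← z2, this]
  decide

end Good

end Pool.Agent.MP_b0ee3d_lc
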