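import Mathlib
import Pool.Agent.MP_b0ee3d_lc.Defs

set_option autoImplicit false

/-! Exhaustive search through short Gauss words. -/

namespace Pool.Agent.MP_b0ee3d_lc

/-- first position of the point at position `x` -/
def lab (u : ℕ → ℕ) (x : ℕ) : ℕ := cond (Nat.ble 2 (u x)) (Nat.sub (u x) 2) x

/-- bounded universal quantifier -/
noncomputable def allN (n : ℕ) (f : ℕ → Bool) : Bool := Nat.rec true (fun k ih => f k && ih) n

/-- bounded existential quantifier -/
noncomputable def anyN (n : ℕ) (f : ℕ → Bool) : Bool := Nat.rec false (fun k ih => f k || ih) n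

/-- counting -/
noncomputable def cnt (P : ℕ → Bool) (a b : ℕ) : ℕ :=
  Nat.rec 0 (fun k ih => cond (Nat.ble a k && P k) (Nat.succ ih) ih) b

theorem allN_iff {n : ℕ} {f : ℕ → Bool} : allN n f = true ↔ ∀ k < n, f k = true := by
  induction n with
  | zero => simp [allN]
  | succ n ih =>
    change (f n && allN n f) = true ↔ _
    rw [Bool.and_eq_true, ih, Nat.forall_lt_succ_right, and_comm]

theorem anyN_iff {n : ℕ} {f : ℕ → Bool} : anyN n f = true ↔ ∃ k < n, f k = true := by
  induction n with
  | zero => simp [anyN]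
  | succ n ih =>
    change (f n || anyN n f) = true ↔ _
    rw [Bool.or_eq_true, ih, Nat.exists_lt_succ_right, or_comm]

theorem cnt_eq (P : ℕ → Bool) (a b : ℕ) :
    cnt P a b = ((Finset.Ico a b).filter fun x => P x = true).card := by
  induction b with
  | zero => simp [cnt]
  | succ b ih =>
    change cond (Nat.ble a b && P b) (Nat.succ (cnt P a b)) (cnt P a b) = _
    by_cases h : a ≤ b
    · rw [← Finset.insert_Ico_right_eq_Ico_add_one h, Finset.filter_insert, ih,
        Nat.ble_eq_true_of_le h]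
      cases P b
      · simp
      · simp
    · have : Nat.ble a b = false := Bool.eq_false_iff.mpr (fun e => h (Nat.le_of_ble_eq_true e))
      rw [this, ih, Finset.Ico_eq_empty_of_le (by omega), Finset.Ico_eq_empty_of_le (by omega)]
      simp

/-- conditions at position `p` -/
noncomputable def okB (L V p : ℕ) (u : ℕ → ℕ) : Bool :=
  cond (Nat.ble 2 (u p)) (Nat.blt (Nat.sub (u p) 2) p && Nat.beq (u (Nat.sub (u p) 2)) 1 &&
    allN p (fun r => !Nat.beq (u r) (u p)) && !Nat.beq (lab u (Nat.sub p 1)) (Nat.sub (u p) 2) &&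
    Nat.beq (Nat.mod (cnt (fun x => (Nat.beq (u x) 1 &&
      allN p (fun r => !Nat.beq (u r) (Nat.add x 2))) ||
      (Nat.ble 2 (u x) && Nat.blt (u x) (u p))) (Nat.sub (u p) 1) p) 2) 0 &&
    allN (Nat.sub p 1) (fun k => !(Nat.beq (lab u k) (lab u (Nat.sub p 1)) &&
      Nat.beq (lab u (Nat.succ k)) (Nat.sub (u p) 2)) &&
      !(Nat.beq (lab u k) (Nat.sub (u p) 2) && Nat.beq (lab u (Nat.succ k)) (lab u (Nat.sub p 1)))))
  (Nat.ble (Nat.add (cnt (fun x => Nat.beq (u x) 0) 0 (Nat.succ p)) (Nat.mul 2 V)) L &&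
  Nat.ble (Nat.add V (Nat.succ p)) (Nat.add (cnt (fun x => Nat.ble 2 (u x)) 0 (Nat.succ p)) L))

/-- conditions on the whole word -/
noncomputable def finB (L : ℕ) (u : ℕ → ℕ) : Bool :=
  allN L (fun x => !Nat.beq (u x) 1 || anyN L (fun r => Nat.beq (u r) (Nat.add x 2))) &&
  !Nat.beq (lab u (Nat.sub L 1)) 0 &&
  allN (Nat.sub L 1) (fun k => !(Nat.beq (lab u k) (lab u (Nat.sub L 1)) &&
    Nat.beq (lab u (Nat.succ k)) 0) &&
    !(Nat.beq (lab u k) 0 && Nat.beq (lab u (Nat.succ k)) (lab u (Nat.sub L 1)))) &&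
  allN L (fun l => Nat.blt (u l) 2 || allN L (fun b => Nat.ble b l || Nat.blt (u b) 2 ||
    ((Nat.ble (Nat.sub (u b) 2) l || Nat.beq (Nat.mod (cnt (fun x => anyN b
      (fun r => Nat.blt (Nat.sub (u b) 2) r && Nat.beq (u r) (Nat.add x 2))) (Nat.sub (u l) 1) l) 2) 0) &&
    (Nat.ble (u l) (u b) || Nat.beq (Nat.mod (cnt (fun x => anyN L
      (fun r => Nat.blt b r && Nat.beq (u r) (Nat.add x 2)) ||
      (Nat.ble 2 (u x) && Nat.blt (u x) (u b))) (Nat.sub (u l) 1) l) 2) 0))))

/-- digits -/
def dig (s i : ℕ) : ℕ := Nat.mod (Nat.shiftRight s (Nat.mul 5 i)) 32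

theorem dig_eq (s i : ℕ) : dig s i = s / 32 ^ i % 32 := by
  change (s >>> (5 * i)) % 32 = _
  rw [Nat.shiftRight_eq_div_pow, pow_mul]
  norm_num

/-- forces evaluation -/
noncomputable def force (n : ℕ) (f : ℕ → Bool) : Bool := Nat.rec (f 0) (fun m _ => f (Nat.succ m)) n

theorem force_eq (n : ℕ) (f : ℕ → Bool) : force n f = f n := by cases n <;> rfl

/-- depth first search -/
noncomputable def search (L V k : ℕ) : ℕ → ℕ → Bool :=
  Nat.rec (fun _ s => !finB L (dig s)) (fun _ ih p s => allN (Nat.add p 2) fun c =>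
    force (Nat.add s (Nat.mul c (Nat.pow 32 p))) fun s' =>
      !okB L V p (dig s') || force (Nat.succ p) fun p' => ih p' s') k

theorem search_succ (L V k p s : ℕ) : search L V (k + 1) p s = allN (p + 2) fun c =>
    force (s + c * 32 ^ p) fun s' => !okB L V p (dig s') || force (p + 1) fun p' =>
      search L V k p' s' := rfl

/-- a word as a number -/
def num (u : ℕ → ℕ) : ℕ → ℕ
  | 0 => 0
  | p + 1 => num u p + u p * 32 ^ p

theorem num_lt {u : ℕ → ℕ} (h : ∀ i, u i < 32) (p : ℕ) : num u p < 32 ^ p := by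
  induction p with
  | zero => simp [num]
  | succ p ih =>
    have := Nat.mul_le_mul_right (32 ^ p) (Nat.le_sub_one_of_lt (h p))
    rw [num, pow_succ]
    omega

theorem dig_num {u : ℕ → ℕ} (h : ∀ i, u i < 32) (p : ℕ) :
    dig (num u p) = fun i => if i < p then u i else 0 := by
  funext i
  induction p with
  | zero => simp [num, dig_eq]
  | succ p ih =>
    rw [num]
    rcases lt_trichotomy i p with h1 | rfl | h1
    · rw [if_pos h1] at ih
      rw [if_pos (by omega), ← ih, dig_eq, dig_eq]
      obtain ⟨d, rfl⟩ : ∃ d, p = i + 1 + d := ⟨p - (i + 1), by omega⟩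
      rw [show u (i + 1 + d) * 32 ^ (i + 1 + d) = (u (i + 1 + d) * 32 ^ d * 32) * 32 ^ i by ring,
        Nat.add_mul_div_right _ _ (by positivity), Nat.add_mul_mod_self_right]
    · rw [if_pos (by omega), dig_eq, Nat.add_mul_div_right _ _ (by positivity),
        Nat.div_eq_of_lt (num_lt h i), zero_add, Nat.mod_eq_of_lt (h i)]
    · rw [if_neg (by omega), dig_eq, Nat.div_eq_of_lt]
      exact (num_lt h (p + 1)).trans_le (Nat.pow_le_pow_right (by omega) h1)

theorem search_sound {L V : ℕ} {u : ℕ → ℕ} (h : ∀ i, u i < 32) (h1 : ∀ p < L, u p < p + 2)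
    (h2 : ∀ p < L, okB L V p (fun i => if i < p + 1 then u i else 0) = true)
    (h3 : finB L (fun i => if i < L then u i else 0) = true) (k p : ℕ) (hp : p + k = L) :
    search L V k p (num u p) = false := by
  induction k generalizing p with
  | zero =>
    subst hp
    change (!finB p (dig (num u p))) = false
    rw [dig_num h]
    simpa using h3
  | succ k ih =>
    rw [search_succ, ← Bool.not_eq_true, allN_iff]
    intro h4
    have := h4 (u p) (h1 p (by omega))
    rw [force_eq, force_eq, ← num, dig_num h, h2 p (by omega), ih (p + 1) (by omega)] at this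
    simp at this

theorem search_0 : ∀ V ≤ 5, search (2 * V + 2) (V + 1) (2 * V + 2) 0 0 = true := by decide +kernel

theorem search_14 : search 14 7 14 0 0 = true := by decide +kernel

theorem search_1 : ∀ L ≤ 10, ∀ V ≤ 7, 2 * V < L + 1 → L + 1 < best (V + 1) →
    search (L + 1) V L 1 0 = true := by decide +kernel

theorem search_12 : search 12 5 11 1 0 = true := by decide +kernel

theorem search_13 : search 13 6 12 1 0 = true := by decide +kernel

theorem search_15 : search 15 7 14 1 0 = true := by decide +kernel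

theorem search_even {V : ℕ} (h0 : 0 < V) (h2 : V ≤ 7) : search (2 * V) V (2 * V) 0 0 = true := by
  by_cases h : V = 7
  · subst h; exact search_14
  · obtain ⟨V, rfl⟩ : ∃ W, V = W + 1 := ⟨V - 1, by omega⟩
    exact search_0 V (by omega)

theorem search_odd {L V : ℕ} (h1 : 2 * V < L + 1) (h2 : V ≤ 7) (h3 : L + 1 < best (V + 1)) :
    search (L + 1) V L 1 0 = true := by
  by_cases h : L ≤ 10
  · exact search_1 L h V h2 h1 h3
  · interval_cases V <;> simp only [best] at h3 <;> norm_num at h3 <;> (try omega)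
    · obtain rfl : L = 11 := by omega
      exact search_12
    · obtain rfl : L = 12 := by omega
      exact search_13
    · obtain rfl : L = 14 := by omega
      exact search_15

end Pool.Agent.MP_b0ee3d_lc
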