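import Mathlib
import Pool.Agent.MP_b0ee3d_lc.Gauss
import Pool.Agent.MP_b0ee3d_lc.Search
import Pool.Agent.MP_b0ee3d_lc.Comp

set_option autoImplicit false

/-! The lower bound. -/

namespace Pool.Agent.MP_b0ee3d_lc

open Set

open Classical in
/-- the Gauss word: `0` for a bend, `1` for a first visit, `r + 2` for a return to position `r` -/
noncomputable def code (q : ℕ → ℂ) (L p : ℕ) : ℕ :=
  if p < L then (if h : ∃ r < p, q r = q p then Nat.find h + 2
    else if ∃ r, p < r ∧ r < L ∧ q r = q p then 1 else 0) else 0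

theorem code_two {q : ℕ → ℂ} {L p : ℕ} (h : 2 ≤ code q L p) :
    p < L ∧ code q L p - 2 < p ∧ q (code q L p - 2) = q p := by
  classical
  unfold code at h ⊢
  split_ifs at h ⊢ with h1 h2 h3 <;> try omega
  exact ⟨h1, Nat.find_spec h2⟩

theorem code_lt (q : ℕ → ℂ) (L p : ℕ) : code q L p < p + 2 := by
  by_cases h : 2 ≤ code q L p
  · have := code_two h; omega
  · omega

theorem two_le_code {q : ℕ → ℂ} {L p r : ℕ} (h1 : r < p) (h2 : p < L) (e : q r = q p) :
    2 ≤ code q L p := by
  rw [code, if_pos h2, dif_pos ⟨r, h1, e⟩]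
  omega

theorem code_one {q : ℕ → ℂ} {L p : ℕ} (h : code q L p = 1) : ∃ r, p < r ∧ r < L ∧ q r = q p := by
  unfold code at h
  split_ifs at h with h1 h2 h3
  all_goals first | assumption | omega

theorem code_zero {q : ℕ → ℂ} {L p r : ℕ} (hp : p < L) (h : code q L p = 0) (hr : r < L)
    (e : q r = q p) : r = p := by
  unfold code at h
  rw [if_pos hp] at h
  by_cases h2 : ∃ r < p, q r = q p
  · rw [dif_pos h2] at h; omega
  rw [dif_neg h2] at h
  rcases lt_trichotomy r p with h' | h' | h'
  · exact absurd ⟨r, h', e⟩ h2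
  · exact h'
  · rw [if_pos ⟨r, h', hr, e⟩] at h; omega

theorem q_lab (q : ℕ → ℂ) (L x : ℕ) : q (lab (code q L) x) = q x := by
  unfold lab
  cases h : Nat.ble 2 (code q L x)
  · rfl
  · exact (code_two (Nat.le_of_ble_eq_true h)).2.2

theorem lab_tr (u : ℕ → ℕ) {p x : ℕ} (h : x < p) :
    lab (fun i => if i < p then u i else 0) x = lab u x := by
  simp only [lab, if_pos h]

theorem mod_two (n : ℕ) : Nat.mod n 2 = 0 ↔ Even n := Nat.even_iff.symm

/-- number of returns -/
noncomputable def ret (q : ℕ → ℂ) (L : ℕ) : ℕ :=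
  ((Finset.range L).filter fun p => 2 ≤ code q L p).card

namespace Good

variable {q : ℕ → ℂ} {L : ℕ} (h : Good q L)
include h

theorem tri' {i j k : ℕ} (h1 : i < j) (h2 : j < k) (h3 : k < i + L) (e : q i = q j) : q i ≠ q k :=
  h.tri i j k (mod_ne h1 (by omega)) (mod_ne (by omega) h3) (mod_ne h2 (by omega)) e

theorem code_eq {x r : ℕ} (h1 : x < r) (h2 : r < L) : code q L r = x + 2 ↔ q r = q x := by
  constructor
  · intro e
    have := (code_two (q := q) (L := L) (p := r) (by omega)).2.2
    rw [e] at this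
    exact this.symm
  · intro e
    have h3 := two_le_code h1 h2 e.symm
    obtain ⟨-, h4, h5⟩ := code_two h3
    by_contra hne
    rcases lt_or_gt_of_ne (show code q L r - 2 ≠ x by omega) with h' | h'
    · exact h.tri' h' h1 (by omega) (h5.trans e) h5
    · exact h.tri' h' h4 (by omega) (h5.trans e).symm e.symm

theorem code_eq_one {x r : ℕ} (h1 : x < r) (h2 : r < L) (e : q r = q x) : code q L x = 1 := by
  have : ¬ ∃ r' < x, q r' = q x := by
    rintro ⟨r', a, b⟩
    exact h.tri' a h1 (by omega) b (b.trans e.symm)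
  rw [code, if_pos (by omega), dif_neg this, if_pos ⟨r, h1, h2, e⟩]

theorem count_eq : ((Finset.range L).filter fun p => code q L p = 0).card + 2 * ret q L = L := by
  have h1 : ((Finset.range L).filter fun p => code q L p = 1).card = ret q L := by
    symm
    refine Finset.card_bij (fun r _ => code q L r - 2) (fun r hr => ?_) (fun r hr r' hr' e => ?_)
      (fun x hx => ?_)
    · simp only [Finset.mem_filter, Finset.mem_range] at hr ⊢
      obtain ⟨a, b, c⟩ := code_two hr.2
      exact ⟨by omega, h.code_eq_one b a c.symm⟩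
    · simp only [Finset.mem_filter, Finset.mem_range] at hr hr'
      obtain ⟨a, b, c⟩ := code_two hr.2
      obtain ⟨a', b', c'⟩ := code_two hr'.2
      by_contra hne
      rcases lt_or_gt_of_ne hne with h' | h'
      · exact h.tri' b h' (by omega) c (e ▸ c')
      · exact h.tri' b' h' (by omega) c' (e ▸ c)
    · simp only [Finset.mem_filter, Finset.mem_range] at hx
      obtain ⟨r, a, b, c⟩ := code_one hx.2
      have := (h.code_eq a b).mpr c
      exact ⟨r, by simp [b, this], by omega⟩
  have h2 := Finset.card_filter_add_card_filter_not (s := Finset.range L) (fun p => code q L p = 0)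
  have h3 := Finset.card_filter_add_card_filter_not
    (s := (Finset.range L).filter fun p => ¬ code q L p = 0) (fun p => code q L p = 1)
  rw [Finset.filter_filter, Finset.filter_filter,
    Finset.filter_congr (q := fun p => code q L p = 1) (fun x _ => by omega),
    Finset.filter_congr (p := fun p => ¬ code q L p = 0 ∧ ¬ code q L p = 1)
      (q := fun p => 2 ≤ code q L p) (fun x _ => by omega), h1] at h3
  rw [Finset.card_range] at h2
  unfold ret at *
  omega

theorem outside {x a b : ℕ} (h1 : a < x) (h2 : x < b) (h3 : b < L) :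
    (∃ r, b < r ∧ r < a + L ∧ q r = q x) ↔ (∃ r, b < r ∧ r < L ∧ code q L r = x + 2) ∨
      (2 ≤ code q L x ∧ code q L x < a + 2) := by
  constructor
  · rintro ⟨r, r1, r2, r3⟩
    by_cases hr : r < L
    · exact Or.inl ⟨r, r1, hr, (h.code_eq (by omega) hr).mpr r3⟩
    · obtain ⟨r, rfl⟩ : ∃ r', r = r' + L := ⟨r - L, by omega⟩
      rw [h.per] at r3
      have := (h.code_eq (x := r) (r := x) (by omega) (by omega)).mpr r3.symm
      omega
  · rintro (⟨r, r1, r2, r3⟩ | ⟨r1, r2⟩)
    · exact ⟨r, r1, by omega, (h.code_eq (by omega) r2).mp r3⟩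
    · obtain ⟨-, a1, a2⟩ := code_two r1
      exact ⟨code q L x - 2 + L, by omega, by omega, by rw [h.per, a2]⟩

theorem ok {p : ℕ} (hp : p < L) :
    okB L (ret q L) p (fun i => if i < p + 1 then code q L i else 0) = true := by
  unfold okB
  simp only [Nat.lt_add_one, if_true]
  cases hc : Nat.ble 2 (code q L p)
  · simp only [cond_false, Bool.and_eq_true, Nat.ble_eq, cnt_eq, Nat.add_eq, Nat.mul_eq,
      Nat.succ_eq_add_one, Nat.beq_eq]
    constructor
    · refine le_trans (Nat.add_le_add_right (Finset.card_le_card (fun x hx => ?_)) _) h.count_eq.le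
      simp only [Finset.mem_filter, Finset.mem_range, Finset.mem_Ico] at hx ⊢
      rw [if_pos hx.1.2] at hx
      exact ⟨by omega, hx.2⟩
    · have : ret q L ≤ (((Finset.Ico 0 (p + 1)).filter fun x =>
          2 ≤ if x < p + 1 then code q L x else 0) ∪ Finset.Ico (p + 1) L).card := by
        refine Finset.card_le_card (fun x hx => ?_)
        simp only [Finset.mem_filter, Finset.mem_range, Finset.mem_Ico, Finset.mem_union] at hx ⊢
        by_cases h' : x < p + 1
        · left; rw [if_pos h']; omega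
        · right; omega
      have := this.trans (Finset.card_union_le _ _)
      rw [Nat.card_Ico] at this
      omega
  have hc' := Nat.le_of_ble_eq_true hc
  obtain ⟨-, a1, a2⟩ := code_two hc'
  set i := code q L p - 2 with hi
  have hi' : code q L p = i + 2 := by omega
  obtain ⟨p, rfl⟩ : ∃ p', p = p' + 1 := ⟨p - 1, by omega⟩
  simp only [cond_true, Bool.and_eq_true, Nat.blt_eq, cnt_eq, Nat.sub_eq, ← hi,
    Nat.succ_eq_add_one, Nat.beq_eq, allN_iff, Bool.not_eq_true', Nat.add_eq, Nat.add_sub_cancel,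
    mod_two, Bool.or_eq_true, Nat.ble_eq, ← Bool.not_eq_true]
  refine ⟨⟨⟨⟨⟨a1, ?_⟩, fun r hr => ?_⟩, ?_⟩, ?_⟩, fun k hk => ?_⟩
  · rw [if_pos (by omega)]
    exact h.code_eq_one a1 hp a2.symm
  · rw [if_pos (by omega), hi']
    intro e
    obtain ⟨-, b1, b2⟩ := code_two (q := q) (L := L) (p := r) (by omega)
    rw [e] at b1 b2
    exact h.tri' b1 hr (by omega) b2 a2
  · rw [lab_tr _ (by omega)]
    intro e
    apply h.ne p
    rw [← q_lab q L p, e, a2]
  · rw [hi', show i + 2 - 1 = i + 1 by omega, Finset.Ico_add_one_left_eq_Ioo]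
    refine h.even_cross a1 le_rfl (show p + 1 < i + L by omega) le_rfl a2
      (by rw [h.per, a2]) (Or.inl ⟨rfl, rfl⟩) _ (fun x x1 x2 => ?_)
    rw [h.outside x1 x2 hp, if_pos (by omega)]
    refine or_congr_left ⟨fun ⟨b1, b2⟩ => ?_, fun ⟨r, r1, r2, r3⟩ => ?_⟩
    · obtain ⟨r, r1, r2, r3⟩ := code_one b1
      have r4 := (h.code_eq r1 r2).mpr r3
      refine ⟨r, ?_, r2, r4⟩
      by_contra hr
      rcases (not_lt.mp hr).eq_or_lt with rfl | hr
      · omega
      · exact b2 r hr (by rw [if_pos (by omega), r4])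
    · have r4 := (h.code_eq (by omega) r2).mp r3
      refine ⟨h.code_eq_one (by omega) r2 r4, fun r' hr' => ?_⟩
      rw [if_pos (by omega)]
      intro e
      obtain ⟨-, b1, b2⟩ := code_two (q := q) (L := L) (p := r') (by omega)
      rw [e] at b1 b2
      exact h.tri' b1 (show r' < r by omega) (by omega) b2 r4.symm
  · rw [lab_tr _ (by omega), lab_tr _ (by omega), lab_tr _ (by omega)]
    have := h.no_par (i := k) (j := p) (mod_ne hk (by omega))
    rw [← q_lab q L k, ← q_lab q L (k + 1), ← q_lab q L p, ← a2] at this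
    constructor
    · intro hh
      exact this.1 ⟨by rw [hh.1], by rw [hh.2]⟩
    · intro hh
      exact this.2 ⟨by rw [hh.1], by rw [hh.2]⟩

theorem fin : finB L (fun i => if i < L then code q L i else 0) = true := by
  have e : (fun i => if i < L then code q L i else 0) = code q L := by
    funext i
    split_ifs with h'
    · rfl
    · rw [code, if_neg h']
  rw [e]
  obtain ⟨M, rfl⟩ : ∃ M, L = M + 1 := ⟨L - 1, by have := h.pos; omega⟩
  have hM : q (M + 1) = q 0 := by simpa using h.per 0
  unfold finB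
  simp only [Bool.and_eq_true, Nat.blt_eq, cnt_eq, Nat.sub_eq, anyN_iff,
    Nat.succ_eq_add_one, Nat.beq_eq, allN_iff, Bool.not_eq_true', Nat.add_eq, Nat.add_sub_cancel,
    mod_two, Bool.or_eq_true, Nat.ble_eq, ← Bool.not_eq_true]
  refine ⟨⟨⟨fun x hx => ?_, ?_⟩, fun k hk => ?_⟩, fun l hl => ?_⟩
  · by_cases h1 : code q (M + 1) x = 1
    · obtain ⟨r, r1, r2, r3⟩ := code_one h1
      exact Or.inr ⟨r, r2, (h.code_eq r1 r2).mpr r3⟩
    · exact Or.inl h1
  · intro e
    apply h.ne M
    rw [← q_lab q (M + 1) M, e, hM]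
  · have := h.no_par (i := k) (j := M) (mod_ne hk (by omega))
    rw [← q_lab q (M + 1) k, ← q_lab q (M + 1) (k + 1), ← q_lab q (M + 1) M, hM] at this
    constructor
    · intro hh
      exact this.1 ⟨by rw [hh.1], by rw [hh.2]⟩
    · intro hh
      exact this.2 ⟨by rw [hh.1], by rw [hh.2]⟩
  by_cases h1 : code q (M + 1) l < 2
  · exact Or.inl h1
  refine Or.inr (fun b hb => ?_)
  by_cases h2 : b ≤ l
  · exact Or.inl (Or.inl h2)
  by_cases h3 : code q (M + 1) b < 2
  · exact Or.inl (Or.inr h3)
  obtain ⟨-, a1, a2⟩ := code_two (not_lt.mp h1)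
  obtain ⟨-, b1, b2⟩ := code_two (not_lt.mp h3)
  obtain ⟨k, hk⟩ : ∃ k, code q (M + 1) l = k + 2 := ⟨code q (M + 1) l - 2, by omega⟩
  obtain ⟨a, ha⟩ : ∃ k, code q (M + 1) b = k + 2 := ⟨code q (M + 1) b - 2, by omega⟩
  simp only [hk, ha, Nat.add_sub_cancel] at a1 a2 b1 b2 ⊢
  rw [show k + 2 - 1 = k + 1 by omega, Finset.Ico_add_one_left_eq_Ioo]
  refine Or.inr ⟨?_, ?_⟩
  · by_cases h4 : a ≤ l
    · exact Or.inl h4
    right
    refine h.even_cross a1 (not_le.mp h4).le b1 (by omega) a2 b2 (Or.inr ⟨by omega, by omega⟩) _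
      (fun x x1 x2 => ⟨fun ⟨r, r1, r2, r3⟩ => ⟨r, r2, r1, (h.code_eq (by omega) (by omega)).mp r3⟩,
        fun ⟨r, r1, r2, r3⟩ => ⟨r, r2, r1, (h.code_eq (by omega) (by omega)).mpr r3⟩⟩)
  · by_cases h4 : k + 2 ≤ a + 2
    · exact Or.inl h4
    right
    refine h.even_cross a1 (not_le.mp h2).le (show b < a + (M + 1) by omega) (by omega) a2
      (by rw [h.per, b2]) (Or.inr ⟨by omega, by omega⟩) _ (fun x x1 x2 => ?_)
    rw [h.outside (by omega) (by omega) hb]
    exact or_congr_left ⟨fun ⟨r, r1, r2, r3⟩ => ⟨r, r2, r1, r3⟩, fun ⟨r, r1, r2, r3⟩ => ⟨r, r2, r1, r3⟩⟩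

theorem shift (c : ℕ) : Good (fun i => q (i + c)) L where
  pos := h.pos
  per i := by rw [Nat.add_right_comm, h.per]
  ne i := by rw [Nat.add_right_comm]; exact h.ne _
  meet i j hij := by
    rw [Nat.add_right_comm i, Nat.add_right_comm j]
    exact h.meet _ _ (fun e => hij (Nat.ModEq.add_right_cancel' c e))
  tri i j k a b d := h.tri _ _ _ (fun e => a (Nat.ModEq.add_right_cancel' c e))
    (fun e => b (Nat.ModEq.add_right_cancel' c e)) (fun e => d (Nat.ModEq.add_right_cancel' c e))
  cross i j hij := by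
    simp only [Nat.add_right_comm _ _ c]
    exact h.cross _ _ (fun e => hij (Nat.ModEq.add_right_cancel' c e))

theorem per_mul (i m : ℕ) : q (i + L * m) = q i := by
  induction m with
  | zero => rfl
  | succ m ih => rw [Nat.mul_succ, ← add_assoc, h.per, ih]

theorem per_mod (i : ℕ) : q (i % L) = q i := by
  conv_rhs => rw [← Nat.mod_add_div i L, h.per_mul]

theorem per_mod' (i : ℕ) : q (i % L + 1) = q (i + 1) := by
  conv_rhs => rw [← Nat.mod_add_div i L, Nat.add_right_comm, h.per_mul]

theorem off_eq (c : ℕ) : {x | ∀ i < L, x ∉ segment ℝ (q (i + c)) (q (i + 1 + c))} =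
    {x | ∀ i < L, x ∉ segment ℝ (q i) (q (i + 1))} := by
  have hs := h.shift c
  ext x
  constructor
  · intro hx i hi
    have := hx ((i + (L - 1) * c) % L) (Nat.mod_lt _ h.pos)
    have e1 := hs.per_mod (i + (L - 1) * c)
    have e2 := hs.per_mod' (i + (L - 1) * c)
    obtain ⟨M, rfl⟩ : ∃ M, L = M + 1 := ⟨L - 1, by have := h.pos; omega⟩
    rw [e1, e2, Nat.add_sub_cancel, show i + M * c + c = i + (M + 1) * c by ring,
      show i + M * c + 1 + c = i + 1 + (M + 1) * c by ring, h.per_mul, h.per_mul] at this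
    exact this
  · intro hx i _
    have := hx ((i + c) % L) (Nat.mod_lt _ h.pos)
    rwa [h.per_mod, h.per_mod', Nat.add_right_comm] at this

theorem cov : Cov {x | ∀ i < L, x ∉ segment ℝ (q i) (q (i + 1))} (ret q L + 2) := by
  classical
  obtain ⟨T, h1, h2⟩ := cov_path q L (fun i _ => h.ne i)
    (fun i hi j hj => h.meet i j (mod_ne hj (by omega)).symm)
  have e : {x | x ≠ q 0 ∧ ∀ i < L, x ∉ segment ℝ (q i) (q (i + 1))} =
      {x | ∀ i < L, x ∉ segment ℝ (q i) (q (i + 1))} := by
    ext x
    refine ⟨fun hx => hx.2, fun hx => ⟨?_, hx⟩⟩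
    rintro rfl
    exact hx 0 h.pos (left_mem_segment _ _ _)
  rw [e] at h2
  refine ⟨T, h1.trans ?_, h2⟩
  have : ((Finset.range L).filter fun i => ∃ j ≤ i, q (i + 1) = q j) ⊆
      insert (L - 1) (((Finset.range L).filter fun p => 2 ≤ code q L p).image (· - 1)) := by
    intro i hi
    simp only [Finset.mem_filter, Finset.mem_range, Finset.mem_insert, Finset.mem_image] at hi ⊢
    obtain ⟨a, j, b, c⟩ := hi
    by_cases h' : i = L - 1
    · exact Or.inl h'
    · exact Or.inr ⟨i + 1, ⟨by omega, two_le_code (r := j) (by omega) (by omega) c.symm⟩, rfl⟩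
  have := (Finset.card_le_card this).trans ((Finset.card_insert_le _ _).trans
    (Nat.add_le_add_right Finset.card_image_le 1))
  unfold ret
  omega

theorem best_le_ret (hV : ret q L ≤ 7) (h0 : L = 2 * ret q L ∨ code q L 0 = 0) :
    best (ret q L + 1) ≤ L := by
  by_contra hc
  rw [not_le] at hc
  have h16 : best (ret q L + 1) ≤ 16 := by
    generalize ret q L = V at hV
    interval_cases V <;> decide
  have h32 : ∀ i, code q L i < 32 := fun i => by
    by_cases h' : 2 ≤ code q L i
    · have := code_two h'; omega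
    · omega
  have key := search_sound h32 (fun p _ => code_lt q L p) (fun p hp => h.ok hp) h.fin
  have h2 := h.count_eq
  have h3 := h.pos
  by_cases h1 : L = 2 * ret q L
  · have := key L 0 (by omega)
    have h4 := search_even (V := ret q L) (by omega) hV
    rw [← h1] at h4
    exact absurd (h4.symm.trans this) (by decide)
  · have h5 := h0.resolve_left h1
    obtain ⟨M, rfl⟩ : ∃ M, L = M + 1 := ⟨L - 1, by omega⟩
    have := key M 1 (by omega)
    rw [num, num, h5] at this
    have h4 := search_odd (L := M) (V := ret q (M + 1)) (by omega) hV hc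
    exact absurd (h4.symm.trans this) (by decide)

theorem best_le {n : ℕ} (hn : ∀ m, Cov {x | ∀ i < L, x ∉ segment ℝ (q i) (q (i + 1))} m →
    n + 1 ≤ m) : best n ≤ L := by
  have key : ∀ q' : ℕ → ℂ, Good q' L → (L = 2 * ret q' L ∨ code q' L 0 = 0) →
      n ≤ ret q' L + 1 → best n ≤ L := by
    intro q' h' h0 h1
    have h2 := h'.count_eq
    by_cases h3 : ret q' L ≤ 7
    · refine le_trans ?_ (h'.best_le_ret h3 h0)
      generalize ret q' L = V at h1 h3
      interval_cases V <;> interval_cases n <;> decide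
    · unfold best
      split_ifs with h4
      · interval_cases n <;> simp <;> omega
      · omega
  by_cases h1 : L = 2 * ret q L
  · exact key q h (Or.inl h1) (by have := hn _ h.cov; omega)
  · have h2 := h.count_eq
    obtain ⟨c, hc⟩ := Finset.card_pos.mp
      (show 0 < ((Finset.range L).filter fun p => code q L p = 0).card by omega)
    simp only [Finset.mem_filter, Finset.mem_range] at hc
    have hs := h.shift c
    refine key _ hs (Or.inr ?_) (by have := hn _ (h.off_eq c ▸ hs.cov); omega)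
    rw [code, if_pos h.pos, dif_neg (by simp), if_neg]
    rintro ⟨r, r1, r2, r3⟩
    simp only [zero_add] at r3
    have := code_zero hc.1 hc.2 (Nat.mod_lt (r + c) h.pos) ((h.per_mod _).trans r3)
    have h4 := mod_ne (L := L) (i := c) (j := r + c) (by omega) (by omega)
    rw [this, Nat.mod_eq_of_lt hc.1] at h4
    exact h4 rfl

end Good

theorem vtx_mod (q : List ℂ) (i : ℕ) : vtx q (i % q.length) = vtx q i := by simp [vtx]

theorem vtx_mod_add (q : List ℂ) (i k : ℕ) : vtx q (i % q.length + k) = vtx q (i + k) := by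
  simp [vtx]

theorem good_of {q : List ℂ} {A : Prop} (h : (∀ i < q.length, vtx q i ≠ vtx q (i + 1)) ∧
  (∀ i < q.length, ∀ j < q.length, i ≠ j →
    link q i ∩ link q j ⊆ {vtx q i, vtx q (i + 1)} ∩ {vtx q j, vtx q (j + 1)}) ∧
  (∀ k < q.length, ∀ j < k, ∀ i < j, ¬ (vtx q i = vtx q j ∧ vtx q j = vtx q k)) ∧
  (∀ i < q.length, ∀ j < q.length, i ≠ j → vtx q i = vtx q j →
    Xor (Btw (angIn q i) (angOut q i) (angIn q j)) (Btw (angIn q i) (angOut q i) (angOut q j))) ∧ A)
    (hq : 0 < q.length) : Good (vtx q) q.length where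
  pos := hq
  per i := by simp [vtx]
  ne i := by
    have := h.1 _ (Nat.mod_lt i hq)
    rwa [vtx_mod, vtx_mod_add] at this
  meet i j hij := by
    have := h.2.1 _ (Nat.mod_lt i hq) _ (Nat.mod_lt j hq) hij
    simpa only [link, vtx_mod, vtx_mod_add] using this
  tri i j k a b c e1 e2 := by
    have h3 := h.2.2.1
    rw [← vtx_mod q i, ← vtx_mod q j] at e1
    rw [← vtx_mod q i, ← vtx_mod q k] at e2
    have := Nat.mod_lt i hq
    have := Nat.mod_lt j hq
    have := Nat.mod_lt k hq
    generalize i % q.length = i at *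
    generalize j % q.length = j at *
    generalize k % q.length = k at *
    rcases lt_or_gt_of_ne a with a | a <;> rcases lt_or_gt_of_ne b with b | b <;>
      rcases lt_or_gt_of_ne c with c | c
    · exact h3 k ‹_› j c i a ⟨e1, e1.symm.trans e2⟩
    · exact h3 j ‹_› k c i b ⟨e2, e2.symm.trans e1⟩
    · omega
    · exact h3 j ‹_› i a k b ⟨e2.symm, e1⟩
    · exact h3 k ‹_› i b j a ⟨e1.symm, e2⟩
    · omega
    · exact h3 i ‹_› k b j c ⟨e1.symm.trans e2, e2.symm⟩
    · exact h3 i ‹_› j a k c ⟨e2.symm.trans e1, e1.symm⟩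
  cross i j hij e := by
    have hin : ∀ i, angIn q ((i + 1) % q.length) = (vtx q i - vtx q (i + 1)).arg := fun i => by
      rw [angIn, vtx_mod, Nat.add_sub_assoc hq, vtx_mod_add,
        show i + 1 + (q.length - 1) = i + q.length by omega]
      simp [vtx]
    have hout : ∀ i, angOut q ((i + 1) % q.length) = (vtx q (i + 2) - vtx q (i + 1)).arg :=
      fun i => by rw [angOut, vtx_mod, vtx_mod_add]
    have := h.2.2.2.1 _ (Nat.mod_lt (i + 1) hq) _ (Nat.mod_lt (j + 1) hq)
      (fun e => hij (Nat.ModEq.add_right_cancel' 1 e)) (by rwa [vtx_mod, vtx_mod])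
    rwa [hin, hin, hout, hout] at this

/-- There is an unbounded component. -/
theorem exists_unbounded (q : List ℂ) :
    ∃ x ∈ off q, ¬ Bornology.IsBounded (connectedComponentIn (off q) x) := by
  obtain ⟨R, hR⟩ : ∃ R : ℝ, ∀ i < q.length + 1, (vtx q i).re ≤ R :=
    ⟨∑ i ∈ Finset.range (q.length + 1), |(vtx q i).re|, fun i hi => (le_abs_self _).trans
      (Finset.single_le_sum (f := fun i => |(vtx q i).re|) (fun _ _ => abs_nonneg _)
        (Finset.mem_range.mpr hi))⟩
  have hsub : {z : ℂ | R < z.re} ⊆ off q := fun z hz i hi hz' =>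
    not_le.mpr (show R < z.re from hz) (show z.re ≤ R from
      (convex_halfSpace_re_le R).segment_subset (hR i (by omega)) (hR (i + 1) (by omega)) hz')
  have hx : ((R + 1 : ℝ) : ℂ) ∈ {z : ℂ | R < z.re} := by simp
  refine ⟨_, hsub hx, fun hb => ?_⟩
  obtain ⟨C, hC⟩ := isBounded_iff_forall_norm_le.mp (hb.subset
    ((convex_halfSpace_re_gt R).isPreconnected.subset_connectedComponentIn hx hsub))
  have := hC ((|R| + |C| + 1 : ℝ) : ℂ) (by
    simp only [mem_ofPred_eq, Complex.ofReal_re]
    linarith [le_abs_self R, abs_nonneg C])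
  rw [Complex.norm_real, Real.norm_eq_abs, abs_of_pos (by positivity)] at this
  linarith [le_abs_self C, abs_nonneg R]

theorem IsSona.best_le {P q : List ℂ} (h : IsSona P q) (hP : P.Nodup) (hne : P ≠ []) :
    best P.length ≤ q.length := by
  classical
  obtain ⟨x, hx, hx'⟩ := exists_unbounded q
  have hq : 0 < q.length := by
    by_contra h0
    obtain ⟨p, hp⟩ := List.exists_mem_of_ne_nil P hne
    have e : off q = univ := eq_univ_of_forall (fun y i hi => by omega)
    have := (h.2.2.2.2.1 p hp).2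
    rw [e, connectedComponentIn_univ, PreconnectedSpace.connectedComponent_eq_univ] at this hx'
    exact hx' this
  refine (good_of h hq).best_le (fun m hm => ?_)
  have hxP : x ∉ P.toFinset := fun hp => hx' (h.2.2.2.2.1 x (List.mem_toFinset.mp hp)).2
  have := hm.card_le (insert x P.toFinset) (fun y hy => by
      rcases Finset.mem_insert.mp hy with rfl | hy
      · exact hx
      · exact (h.2.2.2.2.1 y (List.mem_toFinset.mp hy)).1) (fun y hy z hz hyz => by
      change z ∈ connectedComponentIn (off q) y at hyz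
      rw [Finset.mem_insert] at hy hz
      rcases hy with rfl | hy <;> rcases hz with rfl | hz
      · rfl
      · exact absurd (connectedComponentIn_eq hyz ▸ (h.2.2.2.2.1 z (List.mem_toFinset.mp hz)).2) hx'
      · exact absurd (connectedComponentIn_eq hyz ▸ (h.2.2.2.2.1 y (List.mem_toFinset.mp hy)).2) hx'
      · have hy' := h.2.2.2.2.1 y (List.mem_toFinset.mp hy)
        exact (h.2.2.2.2.2 y hy'.1 hy'.2).unique
          ⟨List.mem_toFinset.mp hy, mem_connectedComponentIn hy'.1⟩ ⟨List.mem_toFinset.mp hz, hyz⟩)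
  rwa [Finset.card_insert_of_notMem hxP, List.toFinset_card_of_nodup hP] at this

end Pool.Agent.MP_b0ee3d_lc
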