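import Mathlib
import Pool.Agent.MP_b0ee3d_lc.Lower

set_option autoImplicit false

/-! Combinatorial layouts and their geometric realisation. -/

namespace Pool.Agent.MP_b0ee3d_lc

open Set Complex Real

/-- slot, level, above or below -/
abbrev R := ℕ × ℕ × Bool

/-- previous, current, next, colour -/
abbrev Q := R × R × R × Bool

def ls (a b : R) : Bool := Nat.blt a.1 b.1
def ll (a b : R) : Bool := Nat.blt a.2.1 b.2.1
def same (a b : R) : Bool := !(ll a b || ll b a)
def eqb (a b : Bool) : Bool := cond a b (!b)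
def ori1 (a b c : R) : Bool :=
  cond (ls b c) a.2.2 (cond (ls c b) (!a.2.2) (cond (ll c b) (eqb b.2.2 (ls b a)) (eqb c.2.2 (ls a c))))
def ori (a b c : R) : Bool :=
  cond (ll b a && ll c a) (ori1 a b c) (cond (ll c b) (ori1 b c a) (ori1 c a b))
def maj (a b c : Bool) : Bool := (a && b) || (b && c) || (a && c)
def cyc (p x y z : R) : Bool := maj (ori p x y) (ori p y z) (ori p z x)
def sepB (a b c d : R) : Bool :=
  cond (same a c) (!same b d) (cond (same a d) (!same b c) (same b c || same b d ||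
    eqb (ori a b c) (ori a b d) || eqb (ori c d a) (ori c d b)))
def crossB (p a b c d : R) : Bool :=
  !same a b && !same a c && !same a d && !same b c && !same b d && !same c d &&
    !eqb (cyc p a c b) (cyc p a d b)
def twoB (x y : Q) : Bool :=
  cond (same x.2.1 y.2.1) (!ls x.2.1 y.2.1 && !ls y.2.1 x.2.1 && eqb x.2.1.2.2 y.2.1.2.2 &&
    !eqb x.2.2.2 y.2.2.2 && crossB x.2.1 x.1 x.2.2.1 y.1 y.2.2.1)
    (ls x.2.1 y.2.1 || ls y.2.1 x.2.1) && sepB x.2.1 x.2.2.1 y.2.1 y.2.2.1
def dot (j : ℕ) : R := (8 * j + 4, 0, false)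
def kw (a b d : R) : ℤ := kk a.2.2 b.2.2 (ori a b d)
def prs {α : Type} (l : List α) : List (α × α) := l.zip (l.tail ++ l.take 1)
def windL (l : List R) (d : R) : ℤ := ((prs l).map fun e => kw e.1 e.2 d).sum

theorem eqb_iff {a b : Bool} : eqb a b = true ↔ a = b := by cases a <;> cases b <;> simp [eqb]

theorem same_iff {a b : R} : same a b = true ↔ a.2.1 = b.2.1 := by
  simp only [same, ll, Bool.not_eq_true', ← Bool.not_eq_true, Bool.or_eq_true, Nat.blt_eq]
  omega

theorem same_false {a b : R} : same a b = false ↔ a.2.1 ≠ b.2.1 := by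
  rw [← Bool.not_eq_true, same_iff]

theorem prs_fst {α : Type} (l : List α) : (prs l).map Prod.fst = l :=
  List.map_fst_zip (by cases l <;> simp)

theorem prs_snd {α : Type} (l : List α) : ((prs l).map Prod.snd).Perm l := by
  rw [prs, List.map_snd_zip (by cases l <;> simp)]
  cases l with
  | nil => simp
  | cons a l => simp

theorem prs_map {α β : Type} (f : α → β) (l : List α) :
    prs (l.map f) = (prs l).map (Prod.map f f) := by
  simp [prs, ← List.zip_map, List.map_take]

/-- A correct layout for `n` dots with `L` links. -/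
structure Valid (n L : ℕ) (τ : ℕ → Q) : Prop where
  pos : 0 < L
  chain : ∀ p < L, (τ p).2.2.1 = (τ ((p + 1) % L)).2.1 ∧ (τ p).2.1 = (τ ((p + 1) % L)).1
  one : ∀ p < L, (τ p).2.1.1 < 8 * n ∧ 0 < (τ p).2.1.2.1 ∧ same (τ p).2.1 (τ p).2.2.1 = false
  two : ∀ p < L, ∀ p' < L, p ≠ p' → twoB (τ p) (τ p') = true ∨ twoB (τ p') (τ p) = true
  cnt : ∃ B : Finset ℕ, (∀ p ∈ B, p < L ∧ ∀ p' < L, p' ≠ p → same (τ p).2.1 (τ p').2.1 = false) ∧
    L + 2 ≤ 2 * n + B.card
  dots : ∃ (js : ℕ) (cy : ℕ → List R),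
    ∑ p ∈ Finset.range L, kw (τ p).2.1 (τ p).2.2.1 (dot js) ≠ 0 ∧ ∀ j < n, j ≠ js →
      (∀ e ∈ prs (cy j), ∃ p < L, e = ((τ p).2.1, (τ p).2.2.1) ∨ e = ((τ p).2.2.1, (τ p).2.1)) ∧
      windL (cy j) (dot j) ≠ 0 ∧ ∀ j' < n, j' ≠ j → windL (cy j) (dot j') = 0

/-- A placement of the records in the plane. -/
structure Model (n : ℕ) (pt : R → ℂ) (ρ : ℂ) : Prop where
  ori : ∀ a b c : R, a.1 < 8 * n → b.1 < 8 * n → c.1 < 8 * n → a.2.1 ≠ b.2.1 → a.2.1 ≠ c.2.1 →
    b.2.1 ≠ c.2.1 → a.1 ≠ b.1 → Sg (ori a b c) (det (pt b - pt a) (pt c - pt a))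
  up : ∀ (a : R) (j : ℕ), a.1 < 8 * n → 0 < a.2.1 → j < n →
    Sg a.2.2 (ρ * (pt a - pt (dot j))).im
  inj : ∀ a b : R, a.1 < 8 * n → b.1 < 8 * n → a.2.1 ≠ b.2.1 → pt a ≠ pt b

theorem Sg.ne {o : Bool} {r : ℝ} (h : Sg o r) : r ≠ 0 := by
  cases o
  · exact ne_of_lt h
  · exact ne_of_gt h

theorem det_of_mem {a b x : ℂ} (h : x ∈ segment ℝ a b) : det (b - a) (x - a) = 0 := by
  obtain ⟨u, v, -, -, h, rfl⟩ := h
  obtain rfl : u = 1 - v := by linarith
  simp [det]; ring

theorem seg_symm {a b x : ℂ} (h : x ∈ segment ℝ a b) : x ∈ segment ℝ b a := segment_symm ℝ a b ▸ h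

theorem seg_share {a b d x : ℂ} (h : det (b - a) (d - a) ≠ 0) (h1 : x ∈ segment ℝ a b)
    (h2 : x ∈ segment ℝ a d) : x = a := by
  have h3 := det_of_mem h1
  obtain ⟨u, v, -, -, h4, rfl⟩ := h2
  obtain rfl : u = 1 - v := by linarith
  have : v * det (b - a) (d - a) = 0 := by
    rw [← h3]; simp [det]; ring
  rw [(mul_eq_zero.mp this).resolve_right h]
  simp

theorem seg_disj {a b c d x : ℂ} {o : Bool} (h : Sg o (det (b - a) (c - a)))
    (h' : Sg o (det (b - a) (d - a))) (h1 : x ∈ segment ℝ a b) (h2 : x ∈ segment ℝ c d) : False := by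
  have h3 := det_of_mem h1
  obtain ⟨u, v, hu, hv, h4, rfl⟩ := h2
  obtain rfl : u = 1 - v := by linarith
  have : (1 - v) * det (b - a) (c - a) + v * det (b - a) (d - a) = 0 := by
    rw [← h3]; simp [det]; ring
  cases o <;> simp only [Sg, if_true, Bool.false_eq_true, if_false] at h h'
  · rcases hv.eq_or_lt with rfl | hv
    · simp at this; linarith
    · nlinarith [mul_nonneg hu (neg_pos.mpr h).le, mul_pos hv (neg_pos.mpr h')]
  · rcases hv.eq_or_lt with rfl | hv
    · simp at this; linarith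
    · nlinarith [mul_nonneg hu h.le, mul_pos hv h']

theorem det_arg {x y : ℂ} {o : Bool} (h : Sg o (det x y)) :
    if o then (x.arg < y.arg ∧ y.arg < x.arg + π) ∨ y.arg + π < x.arg
    else (y.arg < x.arg ∧ x.arg < y.arg + π) ∨ x.arg + π < y.arg := by
  have hx : x ≠ 0 := by rintro rfl; exact h.ne (by simp [det])
  have hy : y ≠ 0 := by rintro rfl; exact h.ne (by simp [det])
  obtain ⟨k, hk⟩ := arg_div_int hx hy
  have h1 := im_div_sg h
  have a3 := neg_pi_lt_arg x
  have a4 := arg_le_pi x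
  have a5 := neg_pi_lt_arg y
  have a6 := arg_le_pi y
  cases o
  · obtain ⟨b1, b2⟩ := arg_of_neg h1
    simp only [Bool.false_eq_true, if_false]
    by_cases hc : y.arg < x.arg
    · have : k = 0 := by apply int_eq_of <;> push_cast <;> linarith
      rw [this] at hk
      left; constructor <;> simp at hk <;> linarith
    · have : k = -1 := by apply int_eq_of <;> push_cast <;> linarith
      rw [this] at hk
      right; push_cast at hk; linarith
  · obtain ⟨b1, b2⟩ := arg_of_pos h1
    simp only [if_true]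
    by_cases hc : x.arg < y.arg
    · have : k = 0 := by apply int_eq_of <;> push_cast <;> linarith
      rw [this] at hk
      left; constructor <;> simp at hk <;> linarith
    · have : k = 1 := by apply int_eq_of <;> push_cast <;> linarith
      rw [this] at hk
      right; push_cast at hk; linarith

theorem btw_maj {a c b : ℂ} {o1 o2 o3 : Bool} (h1 : Sg o1 (det a c)) (h2 : Sg o2 (det c b))
    (h3 : Sg o3 (det b a)) : Btw a.arg b.arg c.arg ↔ (maj o1 o2 o3 = true ↔ a.arg < b.arg) := by
  have e1 := det_arg h1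
  have e2 := det_arg h2
  have e3 := det_arg h3
  have a1 := neg_pi_lt_arg a
  have a2 := arg_le_pi a
  have a3 := neg_pi_lt_arg b
  have a4 := arg_le_pi b
  have a5 := neg_pi_lt_arg c
  have a6 := arg_le_pi c
  unfold Btw
  generalize a.arg = α at *
  generalize b.arg = β at *
  generalize c.arg = γ at *
  generalize π = P at *
  cases o1 <;> cases o2 <;> cases o3 <;> simp only [maj] at * <;> grind

theorem arg_ne_det {x y : ℂ} {o : Bool} (h : Sg o (det x y)) : x.arg ≠ y.arg := by
  have := det_arg h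
  have := Real.pi_pos
  cases o <;> grind

theorem xor_swap {a b c d : ℝ} (h1 : a ≠ c) (h2 : a ≠ d) (h3 : b ≠ c) (h4 : b ≠ d)
    (h : Xor (Btw a b c) (Btw a b d)) : Xor (Btw c d a) (Btw c d b) := by
  unfold Btw Xor at *
  grind

theorem sum_succ_mod {L : ℕ} (f : ℕ → ℝ) :
    ∑ p ∈ Finset.range L, f ((p + 1) % L) = ∑ p ∈ Finset.range L, f p := by
  rcases L with _ | L
  · simp
  · rw [Finset.sum_range_succ, Finset.sum_range_succ', Nat.mod_self]
    congr 1
    exact Finset.sum_congr rfl fun p hp => by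
      rw [Nat.mod_eq_of_lt (by simpa using hp)]

theorem det_cyc (a b x : ℂ) : det (a - x) (b - x) = det (b - a) (x - a) := by
  simp [det]; ring

namespace Valid

variable {n L : ℕ} {τ : ℕ → Q} (h : Valid n L τ) {pt : R → ℂ} {ρ : ℂ} (M : Model n pt ρ)

/-- records of vertices -/
def V (L : ℕ) (τ : ℕ → Q) (a : R) : Prop := ∃ p < L, (τ p).2.1 = a

include h

theorem V_next {p : ℕ} (hp : p < L) : V L τ (τ p).2.2.1 :=
  ⟨_, Nat.mod_lt _ h.pos, (h.chain p hp).1.symm⟩

theorem prev_eq {p : ℕ} (hp : p < L) : (τ p).1 = (τ ((p + L - 1) % L)).2.1 ∧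
    (τ p).2.1 = (τ ((p + L - 1) % L)).2.2.1 := by
  have := h.chain _ (Nat.mod_lt (p + L - 1) h.pos)
  rw [Nat.mod_add_mod, show p + L - 1 + 1 = p + L by omega, Nat.add_mod_right,
    Nat.mod_eq_of_lt hp] at this
  exact ⟨this.2.symm, this.1.symm⟩

theorem V_prev {p : ℕ} (hp : p < L) : V L τ (τ p).1 :=
  ⟨_, Nat.mod_lt _ h.pos, (h.prev_eq hp).1.symm⟩

theorem V_lt {a : R} (ha : V L τ a) : a.1 < 8 * n ∧ 0 < a.2.1 := by
  obtain ⟨p, hp, rfl⟩ := ha
  exact ⟨(h.one p hp).1, (h.one p hp).2.1⟩

theorem gp {a b : R} (ha : V L τ a) (hb : V L τ b) :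
    (same a b = true → a = b) ∧ (same a b = false → a.1 ≠ b.1) := by
  have key : ∀ x y : Q, twoB x y = true → (same x.2.1 y.2.1 = true → x.2.1 = y.2.1) ∧
      (same x.2.1 y.2.1 = false → x.2.1.1 ≠ y.2.1.1) := by
    intro x y hxy
    rw [twoB, Bool.and_eq_true] at hxy
    refine ⟨fun hs => ?_, fun hs => ?_⟩
    · have := hxy.1
      simp only [hs, cond_true, Bool.and_eq_true, eqb_iff, ls, Bool.not_eq_true',
        ← Bool.not_eq_true, Nat.blt_eq] at this
      exact Prod.ext (by omega) (Prod.ext (same_iff.mp hs) this.1.1.2)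
    · have := hxy.1
      simp only [hs, cond_false, Bool.or_eq_true, ls, Nat.blt_eq] at this
      omega
  obtain ⟨p, hp, rfl⟩ := ha
  obtain ⟨p', hp', rfl⟩ := hb
  by_cases e : p = p'
  · subst e
    exact ⟨fun _ => rfl, fun h' => absurd rfl (same_false.mp h')⟩
  rcases h.two p hp p' hp' e with h1 | h1
  · exact key _ _ h1
  · exact ⟨fun hs => ((key _ _ h1).1 (same_iff.mpr (same_iff.mp hs).symm)).symm,
      fun hs => ((key _ _ h1).2 (same_false.mpr (same_false.mp hs).symm)).symm⟩

include M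

theorem det_sg {a b c : R} (ha : V L τ a) (hb : V L τ b) (hc : V L τ c) (h1 : same a b = false)
    (h2 : same a c = false) (h3 : same b c = false) :
    Sg (ori a b c) (det (pt b - pt a) (pt c - pt a)) :=
  M.ori a b c (h.V_lt ha).1 (h.V_lt hb).1 (h.V_lt hc).1 (same_false.mp h1) (same_false.mp h2)
    (same_false.mp h3) ((h.gp ha hb).2 h1)

theorem det_dot {a b : R} (ha : V L τ a) (hb : V L τ b) (h1 : same a b = false) {j : ℕ}
    (hj : j < n) : Sg (ori a b (dot j)) (det (pt b - pt a) (pt (dot j) - pt a)) :=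
  M.ori a b _ (h.V_lt ha).1 (h.V_lt hb).1 (by simp only [dot]; omega) (same_false.mp h1)
    (h.V_lt ha).2.ne' (h.V_lt hb).2.ne' ((h.gp ha hb).2 h1)

theorem det_dot' {a b : R} (ha : V L τ a) (hb : V L τ b) (h1 : same a b = false) {j : ℕ}
    (hj : j < n) : Sg (ori a b (dot j)) (det (pt a - pt (dot j)) (pt b - pt (dot j))) := by
  rw [det_cyc]
  exact h.det_dot M ha hb h1 hj

theorem same_of_eq {a b : R} (ha : V L τ a) (hb : V L τ b) (e : pt a = pt b) : same a b = true := by
  by_contra hs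
  exact M.inj a b (h.V_lt ha).1 (h.V_lt hb).1 (fun e' => hs (same_iff.mpr e')) e

theorem sep {a b c d : R} (ha : V L τ a) (hb : V L τ b) (hc : V L τ c) (hd : V L τ d)
    (hab : same a b = false) (hcd : same c d = false) (hs : sepB a b c d = true) :
    segment ℝ (pt a) (pt b) ∩ segment ℝ (pt c) (pt d) ⊆ {pt a, pt b} ∩ {pt c, pt d} := by
  have sy : ∀ {a b : R}, same a b = false → same b a = false := fun h =>
    same_false.mpr (same_false.mp h).symm
  rintro x ⟨h1, h2⟩
  unfold sepB at hs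
  cases h3 : same a c
  swap
  · obtain rfl := (h.gp ha hc).1 h3
    simp only [h3, cond_true, Bool.not_eq_true'] at hs
    rw [seg_share (h.det_sg M ha hb hd hab hcd hs).ne h1 h2]
    simp
  cases h4 : same a d
  swap
  · obtain rfl := (h.gp ha hd).1 h4
    simp only [h3, h4, cond_true, cond_false, Bool.not_eq_true'] at hs
    rw [seg_share (h.det_sg M ha hb hc hab h3 hs).ne h1 (seg_symm h2)]
    simp
  cases h5 : same b c
  swap
  · obtain rfl := (h.gp hb hc).1 h5
    rw [seg_share (h.det_sg M hb ha hd (sy hab) hcd h4).ne (seg_symm h1) h2]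
    simp
  cases h6 : same b d
  swap
  · obtain rfl := (h.gp hb hd).1 h6
    rw [seg_share (h.det_sg M hb ha hc (sy hab) h5 h3).ne (seg_symm h1)
      (seg_symm h2)]
    simp
  simp only [h3, h4, h5, h6, cond_false, Bool.false_or, Bool.or_eq_true, eqb_iff] at hs
  exfalso
  rcases hs with hs | hs
  · exact seg_disj (h.det_sg M ha hb hc hab h3 h5) (hs ▸ h.det_sg M ha hb hd hab h4 h6) h1 h2
  · exact seg_disj (h.det_sg M hc hd ha hcd (sy h3) (sy h4))
      (hs ▸ h.det_sg M hc hd hb hcd (sy h5) (sy h6)) h2 h1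

theorem cross {p a b c d : R} (hp : V L τ p) (ha : V L τ a) (hb : V L τ b) (hc : V L τ c)
    (hd : V L τ d) (h1 : same p a = false) (h2 : same p b = false) (h3 : same p c = false)
    (h4 : same p d = false) (hs : crossB p a b c d = true) :
    Xor (Btw (pt a - pt p).arg (pt b - pt p).arg (pt c - pt p).arg)
      (Btw (pt a - pt p).arg (pt b - pt p).arg (pt d - pt p).arg) ∧
    Xor (Btw (pt c - pt p).arg (pt d - pt p).arg (pt a - pt p).arg)
      (Btw (pt c - pt p).arg (pt d - pt p).arg (pt b - pt p).arg) := by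
  have sy : ∀ {a b : R}, same a b = false → same b a = false := fun h =>
    same_false.mpr (same_false.mp h).symm
  simp only [crossB, Bool.and_eq_true, Bool.not_eq_true'] at hs
  obtain ⟨⟨⟨⟨⟨⟨ab, ac⟩, ad⟩, bc⟩, bd⟩, -⟩, hs⟩ := hs
  have e1 := h.det_sg M hp ha hc h1 h3 ac
  have e2 := h.det_sg M hp hc hb h3 h2 (sy bc)
  have e3 := h.det_sg M hp hb ha h2 h1 (sy ab)
  have e4 := h.det_sg M hp ha hd h1 h4 ad
  have e5 := h.det_sg M hp hd hb h4 h2 (sy bd)
  have key : Xor (Btw (pt a - pt p).arg (pt b - pt p).arg (pt c - pt p).arg)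
      (Btw (pt a - pt p).arg (pt b - pt p).arg (pt d - pt p).arg) := by
    rw [btw_maj e1 e2 e3, btw_maj e4 e5 e3]
    rw [← Bool.not_eq_true, eqb_iff] at hs
    unfold cyc at hs
    revert hs
    cases maj (ori p a c) (ori p c b) (ori p b a) <;> cases maj (ori p a d) (ori p d b) (ori p b a) <;>
      simp [Xor] <;> exact le_or_gt _ _ |>.symm.imp id id |> fun h => by tauto
  exact ⟨key, xor_swap (arg_ne_det e1) (arg_ne_det e4) (arg_ne_det e2).symm (arg_ne_det e5).symm key⟩

theorem isSona : IsSona ((List.range n).map fun j => pt (dot j))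
    ((List.range L).map fun p => pt (τ p).2.1) := by
  classical
  set q := (List.range L).map fun p => pt (τ p).2.1 with hq
  have hL : q.length = L := by simp [hq]
  have hv : ∀ i, vtx q i = pt (τ (i % L)).2.1 := fun i => by
    have := Nat.mod_lt i h.pos
    rw [vtx, hL, List.getD_eq_getElem _ _ (by rwa [hL])]
    simp [hq]
  have hv0 : ∀ i < L, vtx q i = pt (τ i).2.1 := fun i hi => by rw [hv, Nat.mod_eq_of_lt hi]
  have hv1 : ∀ i < L, vtx q (i + 1) = pt (τ i).2.2.1 := fun i hi => by rw [hv, (h.chain i hi).1]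
  have hv2 : ∀ i < L, vtx q (i + L - 1) = pt (τ i).1 := fun i hi => by rw [hv, (h.prev_eq hi).1]
  have hV : ∀ i < L, V L τ (τ i).2.1 := fun i hi => ⟨i, hi, rfl⟩
  have sy : ∀ {a b : R}, same a b = false → same b a = false := fun h =>
    same_false.mpr (same_false.mp h).symm
  have hprev : ∀ i < L, same (τ i).2.1 (τ i).1 = false := fun i hi => by
    rw [(h.prev_eq hi).1, (h.prev_eq hi).2]
    exact sy (h.one _ (Nat.mod_lt _ h.pos)).2.2
  have hcol : ∀ i < L, ∀ j < L, i ≠ j → vtx q i = vtx q j → (τ i).2.2.2 ≠ (τ j).2.2.2 := by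
    intro i hi j hj hij e
    rw [hv0 i hi, hv0 j hj] at e
    have e1 := h.same_of_eq M (hV i hi) (hV j hj) e
    have e2 := h.same_of_eq M (hV j hj) (hV i hi) e.symm
    rcases h.two i hi j hj hij with h1 | h1 <;>
      simp only [twoB, e1, e2, cond_true, Bool.and_eq_true, Bool.not_eq_true', ← Bool.not_eq_true,
        eqb_iff] at h1
    · exact h1.1.1.2
    · exact fun e => h1.1.1.2 e.symm
  have hcurve : (∀ i < q.length, vtx q i ≠ vtx q (i + 1)) ∧
      (∀ i < q.length, ∀ j < q.length, i ≠ j →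
        link q i ∩ link q j ⊆ {vtx q i, vtx q (i + 1)} ∩ {vtx q j, vtx q (j + 1)}) ∧
      (∀ k < q.length, ∀ j < k, ∀ i < j, ¬ (vtx q i = vtx q j ∧ vtx q j = vtx q k)) ∧
      (∀ i < q.length, ∀ j < q.length, i ≠ j → vtx q i = vtx q j →
        Xor (Btw (angIn q i) (angOut q i) (angIn q j)) (Btw (angIn q i) (angOut q i) (angOut q j))) ∧
      True := by
    rw [hL]
    refine ⟨fun i hi e => ?_, fun i hi j hj hij => ?_, fun k hk j hj i hi e => ?_,
      fun i hi j hj hij e => ?_, trivial⟩
    · rw [hv0 i hi, hv1 i hi] at e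
      have := h.same_of_eq M (hV i hi) (h.V_next hi) e
      rw [(h.one i hi).2.2] at this
      exact absurd this (by decide)
    · simp only [link, hv0 i hi, hv1 i hi, hv0 j hj, hv1 j hj]
      rcases h.two i hi j hj hij with h1 | h1 <;> rw [twoB, Bool.and_eq_true] at h1
      · exact h.sep M (hV i hi) (h.V_next hi) (hV j hj) (h.V_next hj) (h.one i hi).2.2
          (h.one j hj).2.2 h1.2
      · rw [inter_comm, inter_comm ({_, _} : Set ℂ)]
        exact h.sep M (hV j hj) (h.V_next hj) (hV i hi) (h.V_next hi) (h.one j hj).2.2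
          (h.one i hi).2.2 h1.2
    · have a1 := hcol i (by omega) j (by omega) (by omega) e.1
      have a2 := hcol j (by omega) k hk (by omega) e.2
      have a3 := hcol i (by omega) k hk (by omega) (e.1.trans e.2)
      revert a1 a2 a3
      cases (τ i).2.2.2 <;> cases (τ j).2.2.2 <;> cases (τ k).2.2.2 <;> simp
    · simp only [angIn, angOut, hL, hv0 i hi, hv1 i hi, hv0 j hj, hv1 j hj, hv2 i hi, hv2 j hj]
      rw [hv0 i hi, hv0 j hj] at e
      have e1 := h.same_of_eq M (hV i hi) (hV j hj) e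
      have e2 := h.same_of_eq M (hV j hj) (hV i hi) e.symm
      have e3 := (h.gp (hV i hi) (hV j hj)).1 e1
      rcases h.two i hi j hj hij with h1 | h1 <;>
        simp only [twoB, e1, e2, cond_true, Bool.and_eq_true] at h1
      · rw [← e3]
        exact (h.cross M (hV i hi) (h.V_prev hi) (h.V_next hi) (h.V_prev hj) (h.V_next hj)
          (hprev i hi) (h.one i hi).2.2 (e3 ▸ hprev j hj) (e3 ▸ (h.one j hj).2.2) h1.1.2).1
      · rw [e3]
        exact (h.cross M (hV j hj) (h.V_prev hj) (h.V_next hj) (h.V_prev hi) (h.V_next hi)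
          (hprev j hj) (h.one j hj).2.2 (e3 ▸ hprev i hi) (e3 ▸ (h.one i hi).2.2) h1.1.2).2
  have hg := good_of hcurve (by rw [hL]; exact h.pos)
  have hoff : ∀ x, x ∈ off q ↔ ∀ p < L, x ∉ segment ℝ (pt (τ p).2.1) (pt (τ p).2.2.1) := by
    intro x
    simp only [off, mem_ofPred_eq, hL, link]
    exact forall₂_congr fun i hi => by rw [hv0 i hi, hv1 i hi]
  have hdot : ∀ j < n, pt (dot j) ∈ off q := fun j hj => (hoff _).mpr fun p hp hx =>
    (h.det_dot M (hV p hp) (h.V_next hp) (h.one p hp).2.2 hj).ne (det_of_mem hx)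
  obtain ⟨js, cy, d1, d2⟩ := h.dots
  -- short cycles
  have short : ∀ j < n, j ≠ js → ∃ f : ℂ → ℝ, (∀ x ∈ off q, ∀ y ∈ connectedComponentIn (off q) x,
      f y = f x) ∧ (∀ x ∈ off q, ¬ Bornology.IsBounded (connectedComponentIn (off q) x) → f x = 0) ∧
      ∀ j' < n, f (pt (dot j')) = 2 * π * windL (cy j) (dot j') := by
    intro j hj hjs
    have hE : ∀ k : Fin (prs (cy j)).length, V L τ (prs (cy j))[k.1].1 ∧ V L τ (prs (cy j))[k.1].2 ∧
        same (prs (cy j))[k.1].1 (prs (cy j))[k.1].2 = false ∧ ∀ x ∈ off q,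
        x ∉ segment ℝ (pt (prs (cy j))[k.1].1) (pt (prs (cy j))[k.1].2) := by
      intro k
      obtain ⟨p, hp, e | e⟩ := (d2 j hj hjs).1 _ (List.getElem_mem k.2) <;> rw [e]
      · exact ⟨hV p hp, h.V_next hp, (h.one p hp).2.2, fun x hx => (hoff x).mp hx p hp⟩
      · exact ⟨h.V_next hp, hV p hp, sy (h.one p hp).2.2,
          fun x hx hx' => (hoff x).mp hx p hp (seg_symm hx')⟩
    have hc : Cyc Finset.univ (fun k : Fin (prs (cy j)).length => pt (prs (cy j))[k.1].1)
        (fun k => pt (prs (cy j))[k.1].2) := fun f => by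
      rw [Fin.sum_univ_fun_getElem (prs (cy j)) (fun e => f (pt e.2)),
        Fin.sum_univ_fun_getElem (prs (cy j)) (fun e => f (pt e.1))]
      have := ((prs_snd (cy j)).map (fun a => f (pt a))).sum_eq
      conv_rhs at this => rw [← prs_fst (cy j)]
      simpa only [List.map_map, Function.comp_def] using this
    refine ⟨om Finset.univ _ _, fun x hx y hy => om_const hc isPreconnected_connectedComponentIn
      (fun z hz k _ => (hE k).2.2.2 z (connectedComponentIn_subset _ _ hz)) hy
      (mem_connectedComponentIn hx), fun x hx hb => om_unbounded hc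
      isPreconnected_connectedComponentIn
      (fun z hz k _ => (hE k).2.2.2 z (connectedComponentIn_subset _ _ hz)) hb
      (mem_connectedComponentIn hx), fun j' hj' => ?_⟩
    rw [om_kk hc (fun k _ => M.up _ j' (h.V_lt (hE k).1).1 (h.V_lt (hE k).1).2 hj')
      (fun k _ => M.up _ j' (h.V_lt (hE k).2.1).1 (h.V_lt (hE k).2.1).2 hj')
      (fun k _ => h.det_dot' M (hE k).1 (hE k).2.1 (hE k).2.2.1 hj'), windL,
      ← Fin.sum_univ_fun_getElem]
    rfl
  have hp2 : (2 * π : ℝ) ≠ 0 := by positivity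
  have hbd : ∀ j < n, Bornology.IsBounded (connectedComponentIn (off q) (pt (dot j))) := by
    intro j hj
    by_contra hb
    by_cases hjs : j = js
    · subst hjs
      have hc : Cyc (Finset.range L) (fun p => pt (τ p).2.1) (fun p => pt (τ p).2.2.1) := fun f => by
        rw [← sum_succ_mod (fun p => f (pt (τ p).2.1))]
        exact Finset.sum_congr rfl fun p hp => by rw [← (h.chain p (Finset.mem_range.mp hp)).1]
      have h1 := om_unbounded hc isPreconnected_connectedComponentIn (fun z hz k hk =>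
        (hoff z).mp (connectedComponentIn_subset _ _ hz) k (Finset.mem_range.mp hk)) hb
        (mem_connectedComponentIn (hdot j hj))
      rw [om_kk hc (fun k hk => M.up _ j (h.one k (Finset.mem_range.mp hk)).1
          (h.one k (Finset.mem_range.mp hk)).2.1 hj)
        (fun k hk => M.up _ j (h.V_lt (h.V_next (Finset.mem_range.mp hk))).1
          (h.V_lt (h.V_next (Finset.mem_range.mp hk))).2 hj)
        (fun k hk => h.det_dot' M (hV k (Finset.mem_range.mp hk))
          (h.V_next (Finset.mem_range.mp hk)) (h.one k (Finset.mem_range.mp hk)).2.2 hj)] at h1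
      exact d1 (by exact_mod_cast (mul_eq_zero.mp h1).resolve_left hp2)
    · obtain ⟨f, -, f2, f3⟩ := short j hj hjs
      have h1 := f2 _ (hdot j hj) hb
      rw [f3 j hj] at h1
      exact (d2 j hj hjs).2.1 (by exact_mod_cast (mul_eq_zero.mp h1).resolve_left hp2)
  have hsep : ∀ j < n, ∀ j' < n, pt (dot j') ∈ connectedComponentIn (off q) (pt (dot j)) →
      j = j' := by
    have key : ∀ j < n, ∀ j' < n, j ≠ js →
        pt (dot j') ∈ connectedComponentIn (off q) (pt (dot j)) → j = j' := by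
      intro j hj j' hj' hjs hm
      by_contra hne
      obtain ⟨f, f1, -, f3⟩ := short j hj hjs
      have h1 := f1 _ (hdot j hj) _ hm
      rw [f3 j hj, f3 j' hj', (d2 j hj hjs).2.2 j' hj' (Ne.symm hne)] at h1
      apply (d2 j hj hjs).2.1
      exact_mod_cast (mul_left_cancel₀ hp2 h1).symm
    intro j hj j' hj' hm
    by_cases hjs : j = js
    · by_contra hne
      refine hne (key j' hj' j hj (fun e => hne (hjs.trans e.symm)) ?_).symm
      rw [← connectedComponentIn_eq hm]
      exact mem_connectedComponentIn (hdot j hj)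
    · exact key j hj j' hj' hjs hm
  refine ⟨hcurve.1, hcurve.2.1, hcurve.2.2.1, hcurve.2.2.2.1, fun p hp => ?_, fun x hx hb => ?_⟩
  · simp only [List.mem_map, List.mem_range] at hp
    obtain ⟨j, hj, rfl⟩ := hp
    exact ⟨hdot j hj, hbd j hj⟩
  have hex : ∃ j < n, pt (dot j) ∈ connectedComponentIn (off q) x := by
    by_contra hno
    push Not at hno
    obtain ⟨y, hy, hy'⟩ := exists_unbounded q
    obtain ⟨B, b1, b2⟩ := h.cnt
    have c1 := hg.count_eq
    have c2 : B.card ≤ ((Finset.range q.length).filter fun p => code (vtx q) q.length p = 0).card := by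
      refine Finset.card_le_card fun p hp => ?_
      obtain ⟨a1, a2⟩ := b1 p hp
      have a3 : ∀ r < L, r ≠ p → vtx q r ≠ vtx q p := fun r hr hne e => by
        rw [hv0 r hr, hv0 p a1] at e
        have := h.same_of_eq M (hV p a1) (hV r hr) e.symm
        rw [a2 r hr hne] at this
        exact absurd this (by decide)
      rw [Finset.mem_filter, Finset.mem_range, hL, code, if_pos a1, dif_neg, if_neg]
      · exact ⟨a1, rfl⟩
      · rintro ⟨r, r1, r2, r3⟩
        exact a3 r r2 r1.ne' r3
      · rintro ⟨r, r1, r3⟩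
        exact a3 r (by omega) r1.ne r3
    set D := (Finset.range n).image fun j => pt (dot j) with hD
    have hDm : ∀ z ∈ D, ∃ j < n, pt (dot j) = z := fun z hz => by simpa [hD] using hz
    have hxy : x ≠ y := fun e => hy' (e ▸ hb)
    have hxD : x ∉ D := fun hz => by
      obtain ⟨j, hj, rfl⟩ := hDm _ hz
      exact hno j hj (mem_connectedComponentIn hx)
    have hyD : y ∉ D := fun hz => by
      obtain ⟨j, hj, rfl⟩ := hDm _ hz
      exact hy' (hbd j hj)
    have c3 := hg.cov.card_le (insert x (insert y D)) (fun z hz => by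
      simp only [Finset.mem_insert] at hz
      rcases hz with rfl | rfl | hz
      · exact hx
      · exact hy
      · obtain ⟨j, hj, rfl⟩ := hDm _ hz
        exact hdot j hj) (fun z hz z' hz' hm => by
      change z' ∈ connectedComponentIn (off q) z at hm
      have e := connectedComponentIn_eq hm
      simp only [Finset.mem_insert] at hz hz'
      rcases hz with rfl | rfl | hz <;> rcases hz' with rfl | rfl | hz'
      · rfl
      · exact absurd (e ▸ hb) hy'
      · obtain ⟨j, hj, rfl⟩ := hDm _ hz'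
        exact absurd hm (hno j hj)
      · exact absurd (e ▸ hb) hy'
      · rfl
      · obtain ⟨j, hj, rfl⟩ := hDm _ hz'
        exact absurd (e ▸ hbd j hj) hy'
      · obtain ⟨j, hj, rfl⟩ := hDm _ hz
        exact absurd (e ▸ mem_connectedComponentIn (hdot j hj)) (hno j hj)
      · obtain ⟨j, hj, rfl⟩ := hDm _ hz
        exact absurd (e ▸ hbd j hj) hy'
      · obtain ⟨j, hj, rfl⟩ := hDm _ hz
        obtain ⟨j', hj', rfl⟩ := hDm _ hz'
        rw [hsep j hj j' hj' hm])
    rw [Finset.card_insert_of_notMem (by simp [hxy, hxD]), Finset.card_insert_of_notMem hyD, hD,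
      Finset.card_image_of_injOn (fun j hj j' hj' e => hsep j (by simpa using hj) j'
        (by simpa using hj') (by
          rw [← show pt (dot j) = pt (dot j') from e]
          exact mem_connectedComponentIn (hdot j (by simpa using hj)))), Finset.card_range] at c3
    rw [hL] at c1 c2 c3
    omega
  obtain ⟨j, hj, hm⟩ := hex
  refine ⟨pt (dot j), ⟨by simpa using ⟨j, hj, rfl⟩, hm⟩, fun y hy => ?_⟩
  obtain ⟨h1, h2⟩ := hy
  simp only [List.mem_map, List.mem_range] at h1
  obtain ⟨j', hj', rfl⟩ := h1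
  rw [hsep j hj j' hj' (connectedComponentIn_eq hm ▸ h2)]

end Valid

end Pool.Agent.MP_b0ee3d_lc
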