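import Mathlib
import Pool.Agent.MP_b0ee3d_lc.Layout

set_option autoImplicit false

/-! Checking layouts: single tables, and invariance under monotone renumbering. -/

namespace Pool.Agent.MP_b0ee3d_lc

/-- all pairs -/
def pw {α : Type} (f : α → α → Bool) : List α → Bool
  | [] => true
  | a :: l => l.all (f a) && pw f l

theorem pw_getD {α : Type} {f : α → α → Bool} {l : List α} (h : pw f l = true) (d : α) {i j : ℕ}
    (hij : i < j) (hj : j < l.length) : f (l.getD i d) (l.getD j d) = true := by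
  induction l generalizing i j with
  | nil => simp at hj
  | cons a l ih =>
    rw [pw, Bool.and_eq_true, List.all_eq_true] at h
    obtain ⟨j, rfl⟩ : ∃ k, j = k + 1 := ⟨j - 1, by omega⟩
    have hj' : j < l.length := by simpa using hj
    rcases i with _ | i
    · rw [List.getD_cons_zero, List.getD_cons_succ, List.getD_eq_getElem _ _ hj']
      exact h.1 _ (List.getElem_mem hj')
    · rw [List.getD_cons_succ, List.getD_cons_succ]
      exact ih h.2 (by omega) hj'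

theorem all_getD {α : Type} {f : α → Bool} {l : List α} (h : l.all f = true) (d : α) {i : ℕ}
    (hi : i < l.length) : f (l.getD i d) = true := by
  rw [List.getD_eq_getElem _ _ hi]
  exact List.all_eq_true.mp h _ (List.getElem_mem hi)

theorem any_getD {α : Type} {f : α → Bool} {l : List α} (h : l.any f = true) (d : α) :
    ∃ i < l.length, f (l.getD i d) = true := by
  obtain ⟨x, hx, h⟩ := List.any_eq_true.mp h
  obtain ⟨i, hi, rfl⟩ := List.getElem_of_mem hx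
  exact ⟨i, hi, by rwa [List.getD_eq_getElem _ _ hi]⟩

theorem sum_getD {α : Type} (f : α → ℤ) (l : List α) (d : α) :
    ∑ p ∈ Finset.range l.length, f (l.getD p d) = (l.map f).sum := by
  rw [← Fin.sum_univ_fun_getElem, Finset.sum_range]
  exact Finset.sum_congr rfl fun i _ => by rw [List.getD_eq_getElem _ _ i.2]

def eqR (a b : R) : Bool := Nat.beq a.1 b.1 && Nat.beq a.2.1 b.2.1 && eqb a.2.2 b.2.2

theorem eqR_iff {a b : R} : eqR a b = true ↔ a = b := by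
  simp [eqR, eqb_iff, Prod.ext_iff, and_assoc]

def dQ : Q := ((0, 0, false), (0, 0, false), (0, 0, false), false)

def isZ (z : ℤ) : Bool := match z with
  | Int.ofNat n => Nat.beq n 0
  | Int.negSucc _ => false

theorem isZ_iff {z : ℤ} : isZ z = true ↔ z = 0 := by
  cases z <;> simp [isZ]

/-- a table is a correct layout -/
noncomputable def tabOK (n : ℕ) (T : List Q) (C : List (List R)) (js : ℕ) (Bd : List ℕ) : Bool :=
  Nat.blt 0 T.length &&
  allN T.length (fun p => eqR (T.getD p dQ).2.2.1 (T.getD ((p + 1) % T.length) dQ).2.1 &&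
    eqR (T.getD p dQ).2.1 (T.getD ((p + 1) % T.length) dQ).1) &&
  T.all (fun x => Nat.blt x.2.1.1 (8 * n) && Nat.blt 0 x.2.1.2.1 && !same x.2.1 x.2.2.1) &&
  pw twoB T && decide Bd.Nodup &&
  Bd.all (fun p => Nat.blt p T.length && allN T.length fun p' =>
    Nat.beq p' p || !same (T.getD p dQ).2.1 (T.getD p' dQ).2.1) &&
  Nat.ble (T.length + 2) (2 * n + Bd.length) &&
  !isZ (T.map fun x => kw x.2.1 x.2.2.1 (dot js)).sum &&
  allN n (fun j => Nat.beq j js || ((prs (C.getD j [])).all (fun e => T.any fun x =>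
      (eqR e.1 x.2.1 && eqR e.2 x.2.2.1) || (eqR e.1 x.2.2.1 && eqR e.2 x.2.1)) &&
    !isZ (windL (C.getD j []) (dot j)) &&
    allN n fun j' => Nat.beq j' j || isZ (windL (C.getD j []) (dot j'))))

theorem valid_of_tab {n : ℕ} {T : List Q} {C : List (List R)} {js : ℕ} {Bd : List ℕ}
    (h : tabOK n T C js Bd = true) : Valid n T.length (fun p => T.getD p dQ) := by
  simp only [tabOK, Bool.and_eq_true, allN_iff, Nat.blt_eq, Nat.ble_eq, eqR_iff, Bool.or_eq_true,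
    Nat.beq_eq, decide_eq_true_eq, Bool.not_eq_true', ← Bool.not_eq_true (isZ _), isZ_iff] at h
  obtain ⟨⟨⟨⟨⟨⟨⟨⟨h1, h2⟩, h3⟩, h4⟩, h5⟩, h6⟩, h7⟩, h8⟩, h9⟩ := h
  refine ⟨h1, h2, fun p hp => ?_, fun p hp p' hp' hne => ?_, ⟨Bd.toFinset, fun p hp => ?_, ?_⟩,
    js, fun j => C.getD j [], ?_, fun j hj hjs => ?_⟩
  · simpa [and_assoc] using all_getD h3 dQ hp
  · rcases lt_or_gt_of_ne hne with h' | h'
    · exact Or.inl (pw_getD h4 dQ h' hp')
    · exact Or.inr (pw_getD h4 dQ h' hp)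
  · have := List.all_eq_true.mp h6 p (List.mem_toFinset.mp hp)
    simp only [Bool.and_eq_true, allN_iff, Nat.blt_eq, Bool.or_eq_true, Nat.beq_eq,
      Bool.not_eq_true'] at this
    exact ⟨this.1, fun p' hp' hne => (this.2 p' hp').resolve_left hne⟩
  · rwa [List.toFinset_card_of_nodup h5]
  · rwa [sum_getD (fun x : Q => kw x.2.1 x.2.2.1 (dot js))]
  · obtain ⟨⟨a1, a2⟩, a3⟩ := (h9 j hj).resolve_left hjs
    refine ⟨fun e he => ?_, a2, fun j' hj' hne => (a3 j' hj').resolve_left hne⟩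
    obtain ⟨p, hp, a4⟩ := any_getD (List.all_eq_true.mp a1 e he) dQ
    simp only [Bool.and_eq_true, eqR_iff, Bool.or_eq_true] at a4
    exact ⟨p, hp, a4.imp (fun a => Prod.ext a.1 a.2) (fun a => Prod.ext a.1 a.2)⟩

/-- monotone renumbering -/
def psi (A u : ℕ) (Δ : ℕ → ℕ) (x : ℕ) : ℕ := if x = 0 then 0 else x + u * Δ ((x + u - A) / u)

theorem psi_mono (A u : ℕ) {Δ : ℕ → ℕ} (h : Monotone Δ) : StrictMono (psi A u Δ) := by
  intro x y hxy
  unfold psi
  rw [if_neg (show y ≠ 0 by omega)]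
  split_ifs
  · omega
  · have := Nat.mul_le_mul_left u (h (Nat.div_le_div_right (c := u)
      (show x + u - A ≤ y + u - A by omega)))
    omega

def mp (A A' : ℕ) (Δ : ℕ → ℕ) (a : R) : R := (psi A 48 Δ a.1, psi A' 6 Δ a.2.1, a.2.2)

def mpQ (A A' : ℕ) (Δ : ℕ → ℕ) (x : Q) : Q :=
  (mp A A' Δ x.1, mp A A' Δ x.2.1, mp A A' Δ x.2.2.1, x.2.2.2)

section
variable {A A' : ℕ} {Δ : ℕ → ℕ} (h : Monotone Δ)
include h

theorem ls_mp (a b : R) : ls (mp A A' Δ a) (mp A A' Δ b) = ls a b := by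
  rw [Bool.eq_iff_iff, ls, ls, Nat.blt_eq, Nat.blt_eq]
  exact (psi_mono A 48 h).lt_iff_lt

theorem ll_mp (a b : R) : ll (mp A A' Δ a) (mp A A' Δ b) = ll a b := by
  rw [Bool.eq_iff_iff, ll, ll, Nat.blt_eq, Nat.blt_eq]
  exact (psi_mono A' 6 h).lt_iff_lt

omit h in
theorem up_mp (a : R) : (mp A A' Δ a).2.2 = a.2.2 := rfl

theorem same_mp (a b : R) : same (mp A A' Δ a) (mp A A' Δ b) = same a b := by
  simp only [same, ll_mp h]

theorem ori_mp (a b c : R) : ori (mp A A' Δ a) (mp A A' Δ b) (mp A A' Δ c) = ori a b c := by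
  simp only [ori, ori1, ll_mp h, ls_mp h, up_mp]

theorem twoB_mp (x y : Q) : twoB (mpQ A A' Δ x) (mpQ A A' Δ y) = twoB x y := by
  simp only [twoB, mpQ, sepB, crossB, cyc, same_mp h, ori_mp h, ls_mp h, up_mp]

theorem kw_mp (a b c : R) : kw (mp A A' Δ a) (mp A A' Δ b) (mp A A' Δ c) = kw a b c := by
  simp only [kw, ori_mp h, up_mp]

theorem windL_mp (l : List R) (d : R) : windL (l.map (mp A A' Δ)) (mp A A' Δ d) = windL l d := by
  simp only [windL, prs_map, List.map_map, Function.comp_def, Prod.map_fst, Prod.map_snd, kw_mp h]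

end

/-- symbolic records -/
abbrev SR := (ℕ × ℕ) × (ℕ × ℕ) × Bool

abbrev SQ := SR × SR × SR × Bool

def val (z t i : ℕ) : ℕ := cond (Nat.beq z 0) 0 (cond (Nat.beq z 1) t i)

def ev (t i : ℕ) (s : SR) : R :=
  (Nat.add s.1.1 (Nat.mul 48 (val s.1.2 t i)), Nat.add s.2.1.1 (Nat.mul 6 (val s.2.1.2 t i)), s.2.2)

def evQ (t i : ℕ) (x : SQ) : Q := (ev t i x.1, ev t i x.2.1, ev t i x.2.2.1, x.2.2.2)

theorem val_eq (z t i : ℕ) : val z t i = if z = 0 then 0 else if z = 1 then t else i := by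
  rcases z with _ | _ | z <;> rfl

theorem ev_eq (t i : ℕ) (s : SR) :
    ev t i s = (s.1.1 + 48 * val s.1.2 t i, s.2.1.1 + 6 * val s.2.1.2 t i, s.2.2) := rfl

def rgE (A u : ℕ) (c : ℕ × ℕ) : Bool :=
  (Nat.beq c.2 0 && Nat.blt c.1 A) || (Nat.beq c.2 1 && Nat.ble A (c.1 + u))

def rgB (A u : ℕ) (c : ℕ × ℕ) : Bool :=
  Nat.beq c.2 2 && Nat.ble A (c.1 + u) && Nat.blt c.1 (A + u) && Nat.blt 0 c.1

def isE (A A' : ℕ) (s : SR) : Bool := rgE A 48 s.1 && rgE A' 6 s.2.1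

def isB (A A' : ℕ) (s : SR) : Bool :=
  rgB A 48 s.1 && (rgB A' 6 s.2.1 || (Nat.beq s.2.1.1 0 && Nat.beq s.2.1.2 0))

theorem rgE_map {A u : ℕ} (hu : u = 48 ∨ u = 6) {c : ℕ × ℕ} (hc : rgE A u c = true) {Δ : ℕ → ℕ}
    {t t0 : ℕ} (i i0 : ℕ) (h0 : Δ 0 = 0) (h1 : 1 ≤ t0) (h2 : ∀ m, t0 ≤ m → t = t0 + Δ m) :
    c.1 + u * val c.2 t i = psi A u Δ (c.1 + u * val c.2 t0 i0) := by
  simp only [rgE, Bool.or_eq_true, Bool.and_eq_true, Nat.beq_eq, Nat.blt_eq, Nat.ble_eq] at hc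
  unfold psi
  rcases hc with ⟨a, b⟩ | ⟨a, b⟩
  · simp only [a, val_eq, if_true, mul_zero, add_zero]
    rw [show (c.1 + u - A) / u = 0 by rcases hu with rfl | rfl <;> omega, h0]
    split_ifs <;> omega
  · simp only [a, val_eq, if_true, one_ne_zero, if_false]
    rw [if_neg (by rcases hu with rfl | rfl <;> omega),
      h2 ((c.1 + u * t0 + u - A) / u) (by rcases hu with rfl | rfl <;> omega)]
    ring

theorem rgB_map {A u : ℕ} (hu : u = 48 ∨ u = 6) {c : ℕ × ℕ} (hc : rgB A u c = true) {Δ : ℕ → ℕ}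
    (t t0 : ℕ) {i i0 : ℕ} (h1 : i = i0 + Δ i0) (h2 : i = i0 + Δ (i0 + 1)) :
    c.1 + u * val c.2 t i = psi A u Δ (c.1 + u * val c.2 t0 i0) := by
  simp only [rgB, Bool.and_eq_true, Nat.beq_eq, Nat.blt_eq, Nat.ble_eq] at hc
  obtain ⟨⟨⟨a, b⟩, d⟩, e⟩ := hc
  unfold psi
  simp only [a, val_eq, OfNat.ofNat_ne_zero, OfNat.ofNat_ne_one, if_false]
  rw [if_neg (by omega)]
  have : (c.1 + u * i0 + u - A) / u = i0 ∨ (c.1 + u * i0 + u - A) / u = i0 + 1 := by
    rcases hu with rfl | rfl <;> omega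
  rcases this with h | h <;> rw [h]
  · conv_lhs => rw [h1]
    ring
  · conv_lhs => rw [h2]
    ring

theorem evE_map {A A' : ℕ} {s : SR} (hs : isE A A' s = true) {Δ : ℕ → ℕ}
    {t t0 : ℕ} (i i0 : ℕ) (h0 : Δ 0 = 0) (h1 : 1 ≤ t0) (h2 : ∀ m, t0 ≤ m → t = t0 + Δ m) :
    ev t i s = mp A A' Δ (ev t0 i0 s) := by
  rw [isE, Bool.and_eq_true] at hs
  rw [ev_eq, ev_eq, mp, rgE_map (Or.inl rfl) hs.1 i i0 h0 h1 h2,
    rgE_map (Or.inr rfl) hs.2 i i0 h0 h1 h2]

theorem evB_map {A A' : ℕ} {s : SR} (hs : isB A A' s = true) {Δ : ℕ → ℕ}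
    (t t0 : ℕ) {i i0 : ℕ} (h1 : i = i0 + Δ i0) (h2 : i = i0 + Δ (i0 + 1)) :
    ev t i s = mp A A' Δ (ev t0 i0 s) := by
  rw [isB, Bool.and_eq_true, Bool.or_eq_true, Bool.and_eq_true, Nat.beq_eq, Nat.beq_eq] at hs
  rw [ev_eq, ev_eq, mp, rgB_map (Or.inl rfl) hs.1 t t0 h1 h2]
  rcases hs.2 with h | h
  · rw [rgB_map (Or.inr rfl) h t t0 h1 h2]
  · simp [h.1, h.2, val_eq, psi]

theorem scEE (A A' : ℕ) {t : ℕ} (ht : 1 ≤ t) : ∃ Δ, Monotone Δ ∧
    ∀ s, isE A A' s = true → ∀ i, ev t i s = mp A A' Δ (ev 1 0 s) :=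
  ⟨fun m => if m = 0 then 0 else t - 1, fun a b h => by dsimp only; split_ifs <;> omega,
    fun s hs i => evE_map hs i 0 rfl le_rfl (fun m hm => by rw [if_neg (by omega)]; omega)⟩

theorem scES (A A' : ℕ) {t i : ℕ} (ht : i < t) : ∃ Δ, Monotone Δ ∧ ∃ i0 < 2, ∃ k < 2,
    (∀ s, isE A A' s = true → ∀ j, ev t j s = mp A A' Δ (ev (i0 + 1 + k) 0 s)) ∧
    ∀ s, isB A A' s = true → ev t i s = mp A A' Δ (ev (i0 + 1 + k) i0 s) :=
  ⟨fun m => if m < min i 1 then 0 else if m ≤ min i 1 + 1 then i - min i 1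
      else t - (min i 1 + 1 + min (t - i - 1) 1),
    fun a b h => by dsimp only; split_ifs <;> omega, min i 1, by omega, min (t - i - 1) 1, by omega,
    fun s hs j => evE_map hs j 0 (by split_ifs <;> omega) (by omega)
      (fun m hm => by split_ifs <;> omega),
    fun s hs => evB_map hs _ _ (by split_ifs <;> omega) (by split_ifs <;> omega)⟩

theorem scSS (A A' t : ℕ) {i i' : ℕ} (h : i ≤ i') : ∃ Δ, Monotone Δ ∧ ∃ k < 3, (k = 0 ↔ i = i') ∧
    (∀ s, isB A A' s = true → ev t i s = mp A A' Δ (ev 0 0 s)) ∧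
    ∀ s, isB A A' s = true → ev t i' s = mp A A' Δ (ev 0 k s) :=
  ⟨fun m => if m ≤ 1 then i else i' - min (i' - i) 2,
    fun a b h => by dsimp only; split_ifs <;> omega, min (i' - i) 2, by omega, by omega,
    fun s hs => evB_map hs _ _ (by simp) (by simp),
    fun s hs => evB_map hs _ _ (by split_ifs <;> omega) (by split_ifs <;> omega)⟩

def eqS (s s' : SR) : Bool := Nat.beq s.1.1 s'.1.1 && Nat.beq s.1.2 s'.1.2 &&
  Nat.beq s.2.1.1 s'.2.1.1 && Nat.beq s.2.1.2 s'.2.1.2 && eqb s.2.2 s'.2.2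

/-- `s` and `s'` have the types `z`, `2`, and their constants differ by `k` periods -/
def relS (z k : ℕ) (s s' : SR) : Bool := Nat.beq s.1.2 z && Nat.beq s.2.1.2 z && Nat.beq s'.1.2 2 &&
  Nat.beq s'.2.1.2 2 && eqb s.2.2 s'.2.2 &&
  Nat.beq (s.1.1 + 48) (s'.1.1 + 48 * k) && Nat.beq (s.2.1.1 + 6) (s'.2.1.1 + 6 * k)

theorem eqS_ev {s s' : SR} (h : eqS s s' = true) : s = s' := by
  simpa [eqS, eqb_iff, Prod.ext_iff, and_assoc] using h

theorem relS_ev {z k : ℕ} {s s' : SR} (h : relS z k s s' = true) {t i i' : ℕ}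
    (e : val z t i + k = i' + 1) : ev t i s = ev t i' s' := by
  simp only [relS, Bool.and_eq_true, Nat.beq_eq, eqb_iff] at h
  obtain ⟨⟨⟨⟨⟨⟨a, b⟩, c⟩, d⟩, f⟩, g⟩, j⟩ := h
  have : val 2 t i' = i' := rfl
  rw [ev_eq, ev_eq, a, b, c, d, f, this]
  congr 1
  · omega
  · congr 1; omega

end Pool.Agent.MP_b0ee3d_lc
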