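import Mathlib
import Pool.Agent.MP_b0ee3d_lc.Check

set_option autoImplicit false

/-! Infinite families of layouts. -/

namespace Pool.Agent.MP_b0ee3d_lc

/-- a family of layouts: three special stretches and three strands through `t` blocks -/
structure Fam where
  n0 : ℕ
  c0 : ℕ
  A : ℕ
  A' : ℕ
  g0 : ℕ
  g1 : ℕ
  g2 : ℕ
  d0 : ℕ
  d1 : ℕ
  d2 : ℕ
  js : ℕ
  E : List SQ
  B : List SQ
  CE : List (List SR)
  CB : List (List SR)

def dSR : SR := ((0, 0), (0, 0), false)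

def dSQ : SQ := (dSR, dSR, dSR, false)

def blk (d t m : ℕ) : ℕ := if d = 0 then m else t - 1 - m

def mt (f : SR → SR → Bool) (e : SR × SR) (x : SQ) : Bool :=
  (f e.1 x.2.1 && f e.2 x.2.2.1) || (f e.1 x.2.2.1 && f e.2 x.2.1)

def chn (f : SR → SR → Bool) (x y : SQ) : Bool := f x.2.2.1 y.2.1 && f x.2.1 y.1

def all3 (f : SR → Bool) (x : SQ) : Bool := f x.1 && f x.2.1 && f x.2.2.1

namespace Fam

variable (F : Fam)

def G : ℕ := F.g0 + F.g1 + F.g2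

def desc (t p : ℕ) : ℕ × ℕ × ℕ :=
  if p < F.g0 then (0, p, 0)
  else if p < F.g0 + 4 * t then (1, (p - F.g0) % 4, blk F.d0 t ((p - F.g0) / 4))
  else if p < F.g0 + F.g1 + 4 * t then (0, p - 4 * t, 0)
  else if p < F.g0 + F.g1 + 8 * t then (1, 4 + (p - F.g0 - F.g1 - 4 * t) % 4,
    blk F.d1 t ((p - F.g0 - F.g1 - 4 * t) / 4))
  else if p < F.g0 + F.g1 + F.g2 + 8 * t then (0, p - 8 * t, 0)
  else (1, 8 + (p - F.g0 - F.g1 - F.g2 - 8 * t) % 4,
    blk F.d2 t ((p - F.g0 - F.g1 - F.g2 - 8 * t) / 4))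

def pos (t : ℕ) (a : ℕ × ℕ × ℕ) : ℕ :=
  if a.1 = 0 then (if a.2.1 < F.g0 then a.2.1 else if a.2.1 < F.g0 + F.g1 then a.2.1 + 4 * t
    else a.2.1 + 8 * t)
  else if a.2.1 < 4 then F.g0 + 4 * blk F.d0 t a.2.2 + a.2.1
  else if a.2.1 < 8 then F.g0 + F.g1 + 4 * t + 4 * blk F.d1 t a.2.2 + (a.2.1 - 4)
  else F.g0 + F.g1 + F.g2 + 8 * t + 4 * blk F.d2 t a.2.2 + (a.2.1 - 8)

def okD (t : ℕ) (a : ℕ × ℕ × ℕ) : Prop :=
  (a.1 = 0 ∧ a.2.1 < F.G ∧ a.2.2 = 0) ∨ (a.1 = 1 ∧ a.2.1 < 12 ∧ a.2.2 < t)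

def tri (t : ℕ) (a : ℕ × ℕ × ℕ) : Q :=
  evQ t a.2.2 (if a.1 = 0 then F.E.getD a.2.1 dSQ else F.B.getD a.2.1 dSQ)

def cum (o : ℕ) : ℕ := if o < 4 then F.g0 else if o < 8 then F.g0 + F.g1 else F.G

def cum' (o : ℕ) : ℕ := if o < 4 then F.g0 else if o < 8 then F.g0 + F.g1 else 0

def dir (o : ℕ) : ℕ := if o < 4 then F.d0 else if o < 8 then F.d1 else F.d2

theorem blk_lt {d t m : ℕ} (h : m < t) : blk d t m < t := by unfold blk; split_ifs <;> omega

theorem blk_blk {d t m : ℕ} (h : m < t) : blk d t (blk d t m) = m := by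
  unfold blk; split_ifs <;> omega

theorem desc0 (t : ℕ) {p : ℕ} (h : p < F.g0) : F.desc t p = (0, p, 0) := if_pos h

theorem desc1 {t m r : ℕ} (h : m < t) (h' : r < 4) :
    F.desc t (F.g0 + 4 * m + r) = (1, r, blk F.d0 t m) := by
  rw [desc, if_neg (by omega), if_pos (by omega), show (F.g0 + 4 * m + r - F.g0) % 4 = r by omega,
    show (F.g0 + 4 * m + r - F.g0) / 4 = m by omega]

theorem desc2 (t : ℕ) {e : ℕ} (h : F.g0 ≤ e) (h' : e < F.g0 + F.g1) :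
    F.desc t (e + 4 * t) = (0, e, 0) := by
  rw [desc, if_neg (by omega), if_neg (by omega), if_pos (by omega), Nat.add_sub_cancel]

theorem desc3 {t m r : ℕ} (h : m < t) (h' : r < 4) :
    F.desc t (F.g0 + F.g1 + 4 * t + 4 * m + r) = (1, 4 + r, blk F.d1 t m) := by
  rw [desc, if_neg (by omega), if_neg (by omega), if_neg (by omega), if_pos (by omega),
    show (F.g0 + F.g1 + 4 * t + 4 * m + r - F.g0 - F.g1 - 4 * t) % 4 = r by omega,
    show (F.g0 + F.g1 + 4 * t + 4 * m + r - F.g0 - F.g1 - 4 * t) / 4 = m by omega]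

theorem desc4 (t : ℕ) {e : ℕ} (h : F.g0 + F.g1 ≤ e) (h' : e < F.g0 + F.g1 + F.g2) :
    F.desc t (e + 8 * t) = (0, e, 0) := by
  rw [desc, if_neg (by omega), if_neg (by omega), if_neg (by omega), if_neg (by omega),
    if_pos (by omega), Nat.add_sub_cancel]

theorem desc5 (t m : ℕ) {r : ℕ} (h' : r < 4) :
    F.desc t (F.g0 + F.g1 + F.g2 + 8 * t + 4 * m + r) = (1, 8 + r, blk F.d2 t m) := by
  rw [desc, if_neg (by omega), if_neg (by omega), if_neg (by omega), if_neg (by omega),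
    if_neg (by omega),
    show (F.g0 + F.g1 + F.g2 + 8 * t + 4 * m + r - F.g0 - F.g1 - F.g2 - 8 * t) % 4 = r by omega,
    show (F.g0 + F.g1 + F.g2 + 8 * t + 4 * m + r - F.g0 - F.g1 - F.g2 - 8 * t) / 4 = m by omega]

theorem seg {t p : ℕ} (hp : p < F.G + 12 * t) : p < F.g0 ∨
    (∃ m < t, ∃ r < 4, p = F.g0 + 4 * m + r) ∨
    (∃ e, F.g0 ≤ e ∧ e < F.g0 + F.g1 ∧ p = e + 4 * t) ∨
    (∃ m < t, ∃ r < 4, p = F.g0 + F.g1 + 4 * t + 4 * m + r) ∨
    (∃ e, F.g0 + F.g1 ≤ e ∧ e < F.g0 + F.g1 + F.g2 ∧ p = e + 8 * t) ∨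
    (∃ m < t, ∃ r < 4, p = F.g0 + F.g1 + F.g2 + 8 * t + 4 * m + r) := by
  unfold G at hp
  by_cases h0 : p < F.g0
  · exact Or.inl h0
  by_cases h1 : p < F.g0 + 4 * t
  · exact Or.inr (Or.inl ⟨(p - F.g0) / 4, by omega, (p - F.g0) % 4, by omega, by omega⟩)
  by_cases h2 : p < F.g0 + F.g1 + 4 * t
  · exact Or.inr (Or.inr (Or.inl ⟨p - 4 * t, by omega, by omega, by omega⟩))
  by_cases h3 : p < F.g0 + F.g1 + 8 * t
  · exact Or.inr (Or.inr (Or.inr (Or.inl ⟨(p - (F.g0 + F.g1 + 4 * t)) / 4, by omega,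
      (p - (F.g0 + F.g1 + 4 * t)) % 4, by omega, by omega⟩)))
  by_cases h4 : p < F.g0 + F.g1 + F.g2 + 8 * t
  · exact Or.inr (Or.inr (Or.inr (Or.inr (Or.inl ⟨p - 8 * t, by omega, by omega, by omega⟩))))
  · exact Or.inr (Or.inr (Or.inr (Or.inr (Or.inr ⟨(p - (F.g0 + F.g1 + F.g2 + 8 * t)) / 4, by omega,
      (p - (F.g0 + F.g1 + F.g2 + 8 * t)) % 4, by omega, by omega⟩))))

theorem desc_ok {t p : ℕ} (hp : p < F.G + 12 * t) :
    F.okD t (F.desc t p) ∧ F.pos t (F.desc t p) = p := by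
  rcases F.seg hp with h | ⟨m, a, r, b, rfl⟩ | ⟨e, a, b, rfl⟩ | ⟨m, a, r, b, rfl⟩ | ⟨e, a, b, rfl⟩ |
    ⟨m, a, r, b, rfl⟩
  · rw [F.desc0 t h]
    exact ⟨Or.inl ⟨rfl, by simp only [G]; omega, rfl⟩, by simp [pos, h]⟩
  · rw [F.desc1 a b]
    exact ⟨Or.inr ⟨rfl, by simp only; omega, blk_lt a⟩, by simp [pos, b, blk_blk a]⟩
  · rw [F.desc2 t a b]
    exact ⟨Or.inl ⟨rfl, by simp only [G]; omega, rfl⟩, by simp [pos, b, a]⟩
  · rw [F.desc3 a b]
    exact ⟨Or.inr ⟨rfl, by simp only; omega, blk_lt a⟩, by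
      simp [pos, show 4 + r < 8 by omega, blk_blk a]⟩
  · rw [F.desc4 t a b]
    exact ⟨Or.inl ⟨rfl, by simp only [G]; omega, rfl⟩, by
      simp [pos, a.not_gt, show ¬ e < F.g0 by omega]⟩
  · rw [F.desc5 t m b]
    exact ⟨Or.inr ⟨rfl, by simp only; omega, blk_lt a⟩, by
      simp [pos, show ¬ 8 + r < 4 by omega, blk_blk a]⟩

theorem pos_ok {t : ℕ} {a : ℕ × ℕ × ℕ} (ha : F.okD t a) :
    F.pos t a < F.G + 12 * t ∧ F.desc t (F.pos t a) = a := by
  obtain ⟨a, b, c⟩ := a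
  simp only [okD, G] at ha
  simp only [pos, G]
  rcases ha with ⟨rfl, h, rfl⟩ | ⟨rfl, h, h'⟩
  · rw [if_pos rfl]
    split_ifs with h1 h2
    · exact ⟨by omega, F.desc0 t h1⟩
    · exact ⟨by omega, F.desc2 t (by omega) h2⟩
    · exact ⟨by omega, F.desc4 t (by omega) h⟩
  · rw [if_neg one_ne_zero]
    split_ifs with h1 h2
    · have := blk_lt (d := F.d0) h'
      exact ⟨by omega, by rw [F.desc1 this h1, blk_blk h']⟩
    · have := blk_lt (d := F.d1) h'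
      exact ⟨by omega, by rw [F.desc3 this (by omega), blk_blk h', show 4 + (b - 4) = b by omega]⟩
    · have := blk_lt (d := F.d2) h'
      exact ⟨by omega, by rw [F.desc5 t _ (by omega), blk_blk h', show 8 + (b - 8) = b by omega]⟩

/-- consecutive positions -/
def Succ (t : ℕ) (a b : ℕ × ℕ × ℕ) : Prop :=
    (a.1 = 0 ∧ b.1 = 0 ∧ b.2.1 = a.2.1 + 1 ∧ a.2.1 + 1 < F.G ∧ a.2.1 + 1 ≠ F.g0 ∧
      a.2.1 + 1 ≠ F.g0 + F.g1 ∧ a.2.2 = b.2.2) ∨
    (a.1 = 0 ∧ b.1 = 1 ∧ b.2.1 < 12 ∧ b.2.1 % 4 = 0 ∧ a.2.1 = F.cum b.2.1 - 1 ∧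
      ((F.dir b.2.1 = 0 ∧ b.2.2 = 0) ∨ (F.dir b.2.1 ≠ 0 ∧ b.2.2 + 1 = t))) ∨
    (a.1 = 1 ∧ b.1 = 1 ∧ a.2.1 < 12 ∧ a.2.1 % 4 ≠ 3 ∧ b.2.1 = a.2.1 + 1 ∧ a.2.2 = b.2.2) ∨
    (a.1 = 1 ∧ b.1 = 1 ∧ a.2.1 < 12 ∧ a.2.1 % 4 = 3 ∧ b.2.1 = a.2.1 - 3 ∧
      ((F.dir a.2.1 = 0 ∧ b.2.2 = a.2.2 + 1) ∨ (F.dir a.2.1 ≠ 0 ∧ a.2.2 = b.2.2 + 1))) ∨
    (a.1 = 1 ∧ b.1 = 0 ∧ a.2.1 < 12 ∧ a.2.1 % 4 = 3 ∧ b.2.1 = F.cum' a.2.1 ∧
      ((F.dir a.2.1 = 0 ∧ a.2.2 + 1 = t) ∨ (F.dir a.2.1 ≠ 0 ∧ a.2.2 = 0)))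

theorem succ0 {t e : ℕ} (h : e + 1 < F.G) (h1 : e + 1 ≠ F.g0) (h2 : e + 1 ≠ F.g0 + F.g1) :
    F.Succ t (0, e, 0) (0, e + 1, 0) := Or.inl ⟨rfl, rfl, rfl, h, h1, h2, rfl⟩

theorem succ1 {t e o : ℕ} (ht : 1 ≤ t) (h : o < 12) (h1 : o % 4 = 0) (h2 : e + 1 = F.cum o) :
    F.Succ t (0, e, 0) (1, o, blk (F.dir o) t 0) :=
  Or.inr (Or.inl ⟨rfl, rfl, h, h1, by simp only; omega, by simp only [blk]; split_ifs <;> omega⟩)

theorem succ2 {t o i : ℕ} (h : o < 12) (h1 : o % 4 ≠ 3) : F.Succ t (1, o, i) (1, o + 1, i) :=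
  Or.inr (Or.inr (Or.inl ⟨rfl, rfl, h, h1, rfl, rfl⟩))

theorem succ3 {t o m : ℕ} (h : o + 3 < 12) (h1 : o % 4 = 0) (h2 : m + 1 < t) :
    F.Succ t (1, o + 3, blk (F.dir (o + 3)) t m) (1, o, blk (F.dir (o + 3)) t (m + 1)) :=
  Or.inr (Or.inr (Or.inr (Or.inl ⟨rfl, rfl, h, by simp only; omega, rfl,
    by simp only [blk]; split_ifs <;> omega⟩)))

theorem succ4 {t o m : ℕ} (h : o < 12) (h1 : o % 4 = 3) (h2 : m + 1 = t) :
    F.Succ t (1, o, blk (F.dir o) t m) (0, F.cum' o, 0) :=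
  Or.inr (Or.inr (Or.inr (Or.inr ⟨rfl, rfl, h, h1, rfl, by simp only [blk]; split_ifs <;> omega⟩)))

theorem succ_desc {t p : ℕ} (ht : 1 ≤ t) (h0 : 1 ≤ F.g0) (h1 : 1 ≤ F.g1) (h2 : 1 ≤ F.g2)
    (hp : p < F.G + 12 * t) : F.Succ t (F.desc t p) (F.desc t ((p + 1) % (F.G + 12 * t))) := by
  have hG : F.G = F.g0 + F.g1 + F.g2 := rfl
  have md : p + 1 < F.G + 12 * t → (p + 1) % (F.G + 12 * t) = p + 1 := Nat.mod_eq_of_lt
  rcases F.seg hp with h | ⟨m, a, r, b, rfl⟩ | ⟨e, a, b, rfl⟩ | ⟨m, a, r, b, rfl⟩ | ⟨e, a, b, rfl⟩ |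
    ⟨m, a, r, b, rfl⟩
  · rw [F.desc0 t h, md (by omega)]
    by_cases c : p + 1 < F.g0
    · rw [F.desc0 t c]
      exact F.succ0 (by omega) (by omega) (by omega)
    · rw [show p + 1 = F.g0 + 4 * 0 + 0 by omega, F.desc1 ht (by omega)]
      exact F.succ1 (o := 0) ht (by omega) rfl (by simp only [cum]; simp; omega)
  · rw [F.desc1 a b, md (by omega)]
    by_cases c : r < 3
    · rw [add_assoc _ r, F.desc1 a (by omega)]
      exact F.succ2 (by omega) (by omega)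
    obtain rfl : r = 3 := by omega
    by_cases c' : m + 1 < t
    · rw [show F.g0 + 4 * m + 3 + 1 = F.g0 + 4 * (m + 1) + 0 by omega, F.desc1 c' (by omega)]
      exact F.succ3 (o := 0) (by omega) rfl c'
    · rw [show F.g0 + 4 * m + 3 + 1 = F.g0 + 4 * t by omega, F.desc2 t le_rfl (by omega)]
      exact F.succ4 (o := 3) (by omega) rfl (by omega)
  · rw [F.desc2 t a b, md (by omega)]
    by_cases c : e + 1 < F.g0 + F.g1
    · rw [Nat.add_right_comm, F.desc2 t (by omega) c]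
      exact F.succ0 (by omega) (by omega) (by omega)
    · rw [show e + 4 * t + 1 = F.g0 + F.g1 + 4 * t + 4 * 0 + 0 by omega, F.desc3 ht (by omega)]
      exact F.succ1 (o := 4) ht (by omega) rfl (by simp only [cum]; simp; omega)
  · rw [F.desc3 a b, md (by omega)]
    by_cases c : r < 3
    · rw [add_assoc _ r, F.desc3 a (by omega)]
      exact F.succ2 (by omega) (by omega)
    obtain rfl : r = 3 := by omega
    by_cases c' : m + 1 < t
    · rw [show F.g0 + F.g1 + 4 * t + 4 * m + 3 + 1 = F.g0 + F.g1 + 4 * t + 4 * (m + 1) + 0 by omega,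
        F.desc3 c' (by omega)]
      exact F.succ3 (o := 4) (by omega) rfl c'
    · rw [show F.g0 + F.g1 + 4 * t + 4 * m + 3 + 1 = F.g0 + F.g1 + 8 * t by omega,
        F.desc4 t le_rfl (by omega)]
      exact F.succ4 (o := 7) (by omega) rfl (by omega)
  · rw [F.desc4 t a b, md (by omega)]
    by_cases c : e + 1 < F.g0 + F.g1 + F.g2
    · rw [Nat.add_right_comm, F.desc4 t (by omega) c]
      exact F.succ0 (by omega) (by omega) (by omega)
    · rw [show e + 8 * t + 1 = F.g0 + F.g1 + F.g2 + 8 * t + 4 * 0 + 0 by omega,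
        F.desc5 t 0 (by omega)]
      exact F.succ1 (o := 8) ht (by omega) rfl (by simp only [cum]; simp; omega)
  · rw [F.desc5 t m b]
    by_cases c : r < 3
    · rw [md (by omega), add_assoc _ r, F.desc5 t m (by omega)]
      exact F.succ2 (by omega) (by omega)
    obtain rfl : r = 3 := by omega
    by_cases c' : m + 1 < t
    · rw [md (by omega), show F.g0 + F.g1 + F.g2 + 8 * t + 4 * m + 3 + 1 =
        F.g0 + F.g1 + F.g2 + 8 * t + 4 * (m + 1) + 0 by omega, F.desc5 t _ (by omega)]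
      exact F.succ3 (o := 8) (by omega) rfl c'
    · rw [show F.g0 + F.g1 + F.g2 + 8 * t + 4 * m + 3 + 1 = F.G + 12 * t by omega, Nat.mod_self,
        F.desc0 t h0]
      exact F.succ4 (o := 11) (by omega) rfl (by omega)

def dE (a : ℕ) : SR := ((8 * a + 4, cond (Nat.blt a F.c0) 0 1), (0, 0), false)

def dB (o : ℕ) : SR := ((8 * (F.c0 + o) + 4, 2), (0, 0), false)

/-- structure -/
noncomputable def k0 : Bool :=
  Nat.beq F.E.length F.G && Nat.beq F.B.length 12 && Nat.ble 1 F.g0 && Nat.ble 1 F.g1 &&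
  Nat.ble 1 F.g2 && Nat.beq (F.G + 2) (2 * F.n0) && Nat.blt F.js F.c0 && Nat.ble F.c0 F.n0 &&
  F.E.all (fun x => all3 (isE F.A F.A') x && Nat.blt x.2.1.1.1 (8 * F.n0) && Nat.blt 0 x.2.1.2.1.1) &&
  F.B.all (fun x => all3 (isB F.A F.A') x && Nat.blt x.2.1.1.1 (8 * F.n0 + 48) &&
    Nat.blt 0 x.2.1.2.1.1) &&
  allN F.n0 (fun a => isE F.A F.A' (F.dE a) && (F.CE.getD a []).all (isE F.A F.A')) &&
  allN 6 (fun o => isB F.A F.A' (F.dB o) && (F.CB.getD o []).all (isB F.A F.A')) &&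
  allN F.G (fun e => Nat.ble F.G (e + 1) || Nat.beq (e + 1) F.g0 || Nat.beq (e + 1) (F.g0 + F.g1) ||
    chn eqS (F.E.getD e dSQ) (F.E.getD (e + 1) dSQ)) &&
  allN 12 (fun o => !Nat.beq (o % 4) 0 ||
    chn (relS (cond (Nat.beq (F.dir o) 0) 0 1) (cond (Nat.beq (F.dir o) 0) 1 0))
      (F.E.getD (F.cum o - 1) dSQ) (F.B.getD o dSQ)) &&
  allN 12 (fun o => cond (Nat.beq (o % 4) 3)
    (chn (relS 2 (cond (Nat.beq (F.dir o) 0) 2 0)) (F.B.getD o dSQ) (F.B.getD (o - 3) dSQ) &&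
      chn (fun s s' => relS (cond (Nat.beq (F.dir o) 0) 1 0) (cond (Nat.beq (F.dir o) 0) 0 1) s' s)
        (F.B.getD o dSQ) (F.E.getD (F.cum' o) dSQ))
    (chn eqS (F.B.getD o dSQ) (F.B.getD (o + 1) dSQ)))

/-- the sides of the cycles are links -/
noncomputable def k1 : Bool :=
  allN F.n0 (fun a => (prs (F.CE.getD a [])).all fun e => F.E.any (mt eqS e) ||
    F.B.any (mt (relS 0 1) e) || F.B.any (mt (relS 1 0) e)) &&
  allN 6 (fun o => (prs (F.CB.getD o [])).all fun e => F.B.any (mt eqS e) ||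
    (F.B.any (mt (relS 2 0) e) && F.E.any (mt (fun s s' => relS 0 1 s' s) e)) ||
    (F.B.any (mt (relS 2 2) e) && F.E.any (mt (fun s s' => relS 1 0 s' s) e)))

/-- pairs of special links -/
noncomputable def kEE : Bool := pw twoB (F.E.map (evQ 1 0))

/-- special links and dots -/
noncomputable def kE : Bool :=
  F.E.all (fun x => !same (ev 1 0 x.2.1) (ev 1 0 x.2.2.1)) &&
  !isZ (F.E.map fun x => kw (ev 1 0 x.2.1) (ev 1 0 x.2.2.1) (ev 1 0 (F.dE F.js))).sum &&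
  allN F.n0 (fun a => Nat.beq a F.js ||
    (!isZ (windL ((F.CE.getD a []).map (ev 1 0)) (ev 1 0 (F.dE a))) &&
    allN F.n0 fun a' => Nat.beq a' a || isZ (windL ((F.CE.getD a []).map (ev 1 0)) (ev 1 0 (F.dE a')))))

/-- special links against links of a block -/
noncomputable def kES (i0 k : ℕ) : Bool :=
  F.E.all (fun x => F.B.all fun y => twoB (evQ (i0 + 1 + k) 0 x) (evQ (i0 + 1 + k) i0 y))

/-- special dots against dots of a block -/
noncomputable def kD (i0 k : ℕ) : Bool :=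
  F.B.all (fun y => isZ (kw (ev (i0 + 1 + k) i0 y.2.1) (ev (i0 + 1 + k) i0 y.2.2.1)
    (ev (i0 + 1 + k) 0 (F.dE F.js)))) &&
  allN F.n0 (fun a => allN 6 fun o => (Nat.beq a F.js ||
    isZ (windL ((F.CE.getD a []).map (ev (i0 + 1 + k) 0)) (ev (i0 + 1 + k) i0 (F.dB o)))) &&
    isZ (windL ((F.CB.getD o []).map (ev (i0 + 1 + k) i0)) (ev (i0 + 1 + k) 0 (F.dE a))))

/-- blocks against blocks -/
noncomputable def kSS : Bool :=
  F.B.all (fun x => !same (ev 0 0 x.2.1) (ev 0 0 x.2.2.1)) && pw twoB (F.B.map (evQ 0 0)) &&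
  allN 3 (fun k => Nat.beq k 0 || F.B.all fun x => F.B.all fun y => twoB (evQ 0 0 x) (evQ 0 k y)) &&
  allN 6 (fun o => !isZ (windL ((F.CB.getD o []).map (ev 0 0)) (ev 0 0 (F.dB o))) &&
    allN 6 fun o' => allN 3 fun k => (Nat.beq k 0 && Nat.beq o' o) ||
      (isZ (windL ((F.CB.getD o []).map (ev 0 0)) (ev 0 k (F.dB o'))) &&
      isZ (windL ((F.CB.getD o []).map (ev 0 k)) (ev 0 0 (F.dB o')))))

theorem dE_left {t i a : ℕ} (h : a < F.c0) : ev t i (F.dE a) = dot a := by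
  simp [ev_eq, dE, dot, Nat.blt_eq.mpr h, val_eq]

theorem dE_right {t i a : ℕ} (h : ¬ a < F.c0) : ev t i (F.dE a) = dot (a + 6 * t) := by
  have : Nat.blt a F.c0 = false := Bool.eq_false_iff.mpr (fun e => h (Nat.blt_eq.mp e))
  simp only [ev_eq, dE, dot, this, val_eq, cond_false]
  simp; omega

theorem dB_eq (t i o : ℕ) : ev t i (F.dB o) = dot (F.c0 + 6 * i + o) := by
  simp only [ev_eq, dB, dot, val_eq]
  simp; omega

theorem mapQ {f : SR → Bool} {x : SQ} (hx : all3 f x = true) {A A' t i t0 i0 : ℕ} {Δ : ℕ → ℕ}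
    (h : ∀ s, f s = true → ev t i s = mp A A' Δ (ev t0 i0 s)) :
    evQ t i x = mpQ A A' Δ (evQ t0 i0 x) := by
  simp only [all3, Bool.and_eq_true] at hx
  simp only [evQ, mpQ, h _ hx.1.1, h _ hx.1.2, h _ hx.2]

theorem mapL {f : SR → Bool} {l : List SR} (hx : l.all f = true) {A A' t i t0 i0 : ℕ} {Δ : ℕ → ℕ}
    (h : ∀ s, f s = true → ev t i s = mp A A' Δ (ev t0 i0 s)) :
    l.map (ev t i) = (l.map (ev t0 i0)).map (mp A A' Δ) := by
  rw [List.map_map]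
  exact List.map_congr_left fun s hs => h s (List.all_eq_true.mp hx s hs)

theorem mt_ev {f : SR → SR → Bool} {e : SR × SR} {x : SQ} (h : mt f e x = true) {t i i' : ℕ}
    (hf : ∀ s s', f s s' = true → ev t i s = ev t i' s') :
    Prod.map (ev t i) (ev t i) e = ((evQ t i' x).2.1, (evQ t i' x).2.2.1) ∨
      Prod.map (ev t i) (ev t i) e = ((evQ t i' x).2.2.1, (evQ t i' x).2.1) := by
  simp only [mt, Bool.or_eq_true, Bool.and_eq_true] at h
  exact h.imp (fun a => Prod.ext (hf _ _ a.1) (hf _ _ a.2)) (fun a => Prod.ext (hf _ _ a.1) (hf _ _ a.2))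

theorem chn_ev {f : SR → SR → Bool} {x y : SQ} (h : chn f x y = true) {t i i' : ℕ}
    (hf : ∀ s s', f s s' = true → ev t i s = ev t i' s') :
    (evQ t i x).2.2.1 = (evQ t i' y).2.1 ∧ (evQ t i x).2.1 = (evQ t i' y).1 := by
  simp only [chn, Bool.and_eq_true] at h
  exact ⟨hf _ _ h.1, hf _ _ h.2⟩

theorem valid (h0 : F.k0 = true) (h1 : F.k1 = true) (hEE : F.kEE = true) (hE : F.kE = true)
    (hES : ∀ i0 < 2, ∀ k < 2, F.kES i0 k = true) (hD : ∀ i0 < 2, ∀ k < 2, F.kD i0 k = true)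
    (hSS : F.kSS = true) {t : ℕ} (ht : 1 ≤ t) :
    Valid (F.n0 + 6 * t) (F.G + 12 * t) (fun p => F.tri t (F.desc t p)) := by
  simp only [k0, Bool.and_eq_true, allN_iff, Nat.blt_eq, Nat.ble_eq, Bool.or_eq_true,
    Nat.beq_eq, Bool.not_eq_true', ← Bool.not_eq_true (Nat.beq _ _)] at h0
  obtain ⟨⟨⟨⟨⟨⟨⟨⟨⟨⟨⟨⟨⟨⟨lE, lB⟩, g0⟩, g1⟩, g2⟩, gn⟩, jc⟩, cn⟩, aE⟩, aB⟩, cE⟩, cB⟩, n1⟩, n2⟩, n3⟩ := h0
  simp only [k1, Bool.and_eq_true, allN_iff] at h1
  simp only [kE, Bool.and_eq_true, allN_iff, Bool.or_eq_true, Nat.beq_eq, Bool.not_eq_true',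
    ← Bool.not_eq_true (isZ _), isZ_iff] at hE
  simp only [kD, Bool.and_eq_true, allN_iff, Bool.or_eq_true, Nat.beq_eq, isZ_iff] at hD
  simp only [kSS, Bool.and_eq_true, allN_iff, Bool.or_eq_true, Nat.beq_eq, Bool.not_eq_true',
    ← Bool.not_eq_true (isZ _), isZ_iff] at hSS
  have aE' : ∀ e < F.G, all3 (isE F.A F.A') (F.E.getD e dSQ) = true ∧
      (F.E.getD e dSQ).2.1.1.1 < 8 * F.n0 ∧ 0 < (F.E.getD e dSQ).2.1.2.1.1 := fun e he => by
    simpa [and_assoc] using all_getD aE dSQ (lE ▸ he)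
  have aB' : ∀ e < 12, all3 (isB F.A F.A') (F.B.getD e dSQ) = true ∧
      (F.B.getD e dSQ).2.1.1.1 < 8 * F.n0 + 48 ∧ 0 < (F.B.getD e dSQ).2.1.2.1.1 := fun e he => by
    simpa [and_assoc] using all_getD aB dSQ (lB ▸ he)
  have tE : ∀ e, F.tri t (0, e, 0) = evQ t 0 (F.E.getD e dSQ) := fun e => rfl
  have tB : ∀ o i, F.tri t (1, o, i) = evQ t i (F.B.getD o dSQ) := fun o i => rfl
  have hcase : ∀ p < F.G + 12 * t, (∃ e < F.G, F.desc t p = (0, e, 0)) ∨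
      ∃ o < 12, ∃ i < t, F.desc t p = (1, o, i) := fun p hp => by
    rcases (F.desc_ok hp).1 with h | h
    · exact Or.inl ⟨_, h.2.1, Prod.ext h.1 (Prod.ext rfl h.2.2)⟩
    · exact Or.inr ⟨_, h.2.1, _, h.2.2, Prod.ext h.1 rfl⟩
  have lkE : ∀ e < F.E.length, ∃ p < F.G + 12 * t,
      F.tri t (F.desc t p) = evQ t 0 (F.E.getD e dSQ) := fun e he => by
    have := F.pos_ok (t := t) (a := (0, e, 0)) (Or.inl ⟨rfl, lE ▸ he, rfl⟩)
    exact ⟨_, this.1, by rw [this.2, tE]⟩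
  have lkB : ∀ o < F.B.length, ∀ i < t, ∃ p < F.G + 12 * t,
      F.tri t (F.desc t p) = evQ t i (F.B.getD o dSQ) := fun o ho i hi => by
    have := F.pos_ok (t := t) (a := (1, o, i)) (Or.inr ⟨rfl, lB ▸ ho, hi⟩)
    exact ⟨_, this.1, by rw [this.2, tB]⟩
  have gE : ∀ e < F.G, (F.E.map (evQ 1 0)).getD e dQ = evQ 1 0 (F.E.getD e dSQ) := fun e he =>
    List.getD_map F.E dSQ (evQ 1 0)
  have gB : ∀ e, (F.B.map (evQ 0 0)).getD e dQ = evQ 0 0 (F.B.getD e dSQ) := fun e =>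
    List.getD_map F.B dSQ (evQ 0 0)
  obtain ⟨Δ1, m1, e1⟩ := scEE F.A F.A' ht
  have two1 : ∀ e < F.G, ∀ o < 12, ∀ i < t,
      twoB (F.tri t (0, e, 0)) (F.tri t (1, o, i)) = true := by
    intro e he o ho i hi
    obtain ⟨Δ, m, i0, hi0, k, hk, a1, a2⟩ := scES F.A F.A' hi
    rw [tE, tB, mapQ (aE' e he).1 (fun s hs => a1 s hs 0), mapQ (aB' o ho).1 a2, twoB_mp m]
    exact all_getD (all_getD (hES i0 hi0 k hk) dSQ (lE ▸ he)) dSQ (lB ▸ ho)
  have two2 : ∀ o < 12, ∀ i, ∀ o' < 12, ∀ i', i < i' ∨ (i = i' ∧ o < o') →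
      twoB (F.tri t (1, o, i)) (F.tri t (1, o', i')) = true := by
    intro o ho i o' ho' i' h
    obtain ⟨Δ, m, k, hk, k0, a1, a2⟩ := scSS F.A F.A' t (show i ≤ i' by omega)
    rw [tB, tB, mapQ (aB' o ho).1 a1, mapQ (aB' o' ho').1 a2, twoB_mp m]
    by_cases hk0 : k = 0
    · rw [hk0, ← gB, ← gB]
      exact pw_getD hSS.1.1.2 dQ (by omega) (by simpa [lB] using ho')
    · exact all_getD (all_getD ((hSS.1.2 k hk).resolve_left hk0) dSQ (lB ▸ ho)) dSQ (lB ▸ ho')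
  refine ⟨by omega, fun p hp => ?_, fun p hp => ?_, fun p hp p' hp' hne => ?_,
    ⟨∅, by simp, by simp only [Finset.card_empty]; omega⟩, F.js,
    fun j => if j < F.c0 then (F.CE.getD j []).map (ev t 0) else if j < F.c0 + 6 * t then
      (F.CB.getD ((j - F.c0) % 6) []).map (ev t ((j - F.c0) / 6))
      else (F.CE.getD (j - 6 * t) []).map (ev t 0), ?_, ?_⟩
  · have := F.succ_desc ht g0 g1 g2 hp
    generalize F.desc t p = a at this
    generalize F.desc t ((p + 1) % (F.G + 12 * t)) = b at this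
    obtain ⟨a1, a2, a3⟩ := a
    obtain ⟨b1, b2, b3⟩ := b
    simp only [tri, Succ] at this ⊢
    rcases this with ⟨rfl, rfl, rfl, c1, c2, c3, rfl⟩ | ⟨rfl, rfl, c1, c2, rfl, c3⟩ |
      ⟨rfl, rfl, c1, c2, rfl, rfl⟩ | ⟨rfl, rfl, c1, c2, rfl, c3⟩ | ⟨rfl, rfl, c1, c2, rfl, c3⟩ <;>
      simp only [if_true, one_ne_zero, if_false]
    · refine chn_ev ((n1 a2 (by omega)).resolve_left (by omega)) fun s s' h => by rw [eqS_ev h]
    · refine chn_ev ((n2 b2 c1).resolve_left (not_not.mpr c2)) fun s s' h => relS_ev h ?_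
      rcases c3 with ⟨c3, c4⟩ | ⟨c3, c4⟩
      · simp [c3, c4, val_eq]
      · rw [show Nat.beq (F.dir b2) 0 = false from Bool.eq_false_iff.mpr (by simpa using c3)]
        simp [c4, val_eq]
    · have := n3 a2 c1
      rw [show Nat.beq (a2 % 4) 3 = false from Bool.eq_false_iff.mpr (by simpa using c2)] at this
      exact chn_ev this fun s s' h => by rw [eqS_ev h]
    · have := n3 a2 c1
      rw [show Nat.beq (a2 % 4) 3 = true from Nat.beq_eq ▸ c2, cond_true, Bool.and_eq_true] at this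
      refine chn_ev this.1 fun s s' h => relS_ev h ?_
      rcases c3 with ⟨c3, c4⟩ | ⟨c3, c4⟩
      · simp [c3, c4, val_eq]
      · rw [show Nat.beq (F.dir a2) 0 = false from Bool.eq_false_iff.mpr (by simpa using c3)]
        simp [c4, val_eq]
    · have := n3 a2 c1
      rw [show Nat.beq (a2 % 4) 3 = true from Nat.beq_eq ▸ c2, cond_true, Bool.and_eq_true] at this
      refine chn_ev this.2 fun s s' h => (relS_ev h ?_).symm
      rcases c3 with ⟨c3, c4⟩ | ⟨c3, c4⟩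
      · simp [c3, c4, val_eq]
      · rw [show Nat.beq (F.dir a2) 0 = false from Bool.eq_false_iff.mpr (by simpa using c3)]
        simp [c4, val_eq]
  · rcases hcase p hp with ⟨e, he, h⟩ | ⟨o, ho, i, hi, h⟩ <;> simp only [h]
    · obtain ⟨a1, a2, a3⟩ := aE' e he
      refine ⟨?_, ?_, ?_⟩
      · simp only [all3, isE, rgE, Bool.and_eq_true, Bool.or_eq_true, Nat.beq_eq] at a1
        simp only [tE, evQ, ev_eq, val_eq]
        split_ifs <;> omega
      · simp only [tE, evQ, ev_eq]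
        omega
      · rw [tE, mapQ a1 (fun s hs => e1 s hs 0)]
        simpa only [mpQ, evQ, same_mp m1, Bool.not_eq_true'] using all_getD hE.1.1 dSQ (lE ▸ he)
    · obtain ⟨a1, a2, a3⟩ := aB' o ho
      refine ⟨?_, ?_, ?_⟩
      · simp only [all3, isB, rgB, Bool.and_eq_true, Bool.or_eq_true, Nat.beq_eq] at a1
        simp only [tB, evQ, ev_eq, val_eq]
        split_ifs <;> omega
      · simp only [tB, evQ, ev_eq]
        omega
      · obtain ⟨Δ, m, k, hk, k0, b1, -⟩ := scSS F.A F.A' t (le_refl i)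
        rw [tB, mapQ a1 b1]
        simpa only [mpQ, evQ, same_mp m, Bool.not_eq_true'] using all_getD hSS.1.1.1 dSQ (lB ▸ ho)
  · have hd : F.desc t p ≠ F.desc t p' := fun e =>
      hne (by rw [← (F.desc_ok hp).2, e, (F.desc_ok hp').2])
    have two0 : ∀ e e', e < e' → e' < F.G → twoB (F.tri t (0, e, 0)) (F.tri t (0, e', 0)) = true := by
      intro e e' a b
      rw [tE, tE, mapQ (aE' e (by omega)).1 (fun s hs => e1 s hs 0),
        mapQ (aE' e' b).1 (fun s hs => e1 s hs 0), twoB_mp m1, ← gE e (by omega), ← gE e' b]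
      exact pw_getD hEE dQ a (by simpa [lE] using b)
    rcases hcase p hp with ⟨e, he, h⟩ | ⟨o, ho, i, hi, h⟩ <;>
      rcases hcase p' hp' with ⟨e', he', h'⟩ | ⟨o', ho', i', hi', h'⟩ <;>
      simp only [h, h', ne_eq, Prod.mk.injEq, true_and, and_true] at hd ⊢
    · rcases lt_or_gt_of_ne hd with a | a
      · exact Or.inl (two0 e e' a he')
      · exact Or.inr (two0 e' e a he)
    · exact Or.inl (two1 e he o' ho' i' hi')
    · exact Or.inr (two1 e' he' o ho i hi)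
    · by_cases a : i < i' ∨ (i = i' ∧ o < o')
      · exact Or.inl (two2 o ho i o' ho' i' a)
      · exact Or.inr (two2 o' ho' i' o ho i (by omega))
  · rw [← Finset.sum_subset (s₁ := (Finset.range F.G).image fun e => F.pos t (0, e, 0)),
      Finset.sum_image]
    · intro h
      apply hE.1.2
      rw [← h, ← sum_getD (fun x : SQ => kw (ev 1 0 x.2.1) (ev 1 0 x.2.2.1) (ev 1 0 (F.dE F.js)))
        F.E dSQ, lE]
      refine Finset.sum_congr rfl fun e he => ?_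
      rw [Finset.mem_range] at he
      rw [(F.pos_ok (t := t) (a := (0, e, 0)) (Or.inl ⟨rfl, he, rfl⟩)).2, tE,
        mapQ (aE' e he).1 (fun s hs => e1 s hs 0), ← F.dE_left (t := t) (i := 0) jc,
        e1 _ (cE _ (by omega)).1 0]
      simp only [mpQ, kw_mp m1, evQ]
    · intro e he e' he' h
      have a := (F.pos_ok (t := t) (a := (0, e, 0)) (Or.inl ⟨rfl, by simpa using he, rfl⟩)).2
      have b := (F.pos_ok (t := t) (a := (0, e', 0)) (Or.inl ⟨rfl, by simpa using he', rfl⟩)).2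
      rw [show F.pos t (0, e, 0) = F.pos t (0, e', 0) from h, b] at a
      simpa using a.symm
    · intro p hp
      obtain ⟨e, he, rfl⟩ := Finset.mem_image.mp hp
      exact Finset.mem_range.mpr
        (F.pos_ok (t := t) (a := (0, e, 0)) (Or.inl ⟨rfl, Finset.mem_range.mp he, rfl⟩)).1
    · intro p hp hp'
      rw [Finset.mem_range] at hp
      rcases hcase p hp with ⟨e, he, h⟩ | ⟨o, ho, i, hi, h⟩
      · exact absurd (Finset.mem_image.mpr ⟨e, Finset.mem_range.mpr he, by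
          rw [← h, (F.desc_ok hp).2]⟩) hp'
      · obtain ⟨Δ, m, i0, hi0, k, hk, a1, a2⟩ := scES F.A F.A' hi
        rw [h, tB, mapQ (aB' o ho).1 a2, ← F.dE_left (t := t) (i := 0) jc,
          a1 _ (cE _ (by omega)).1 0]
        simpa only [mpQ, kw_mp m, evQ, isZ_iff] using all_getD (hD i0 hi0 k hk).1 dSQ (lB ▸ ho)
  -- dots
  have hdot : ∀ j < F.n0 + 6 * t, (∃ a < F.n0, dot j = ev t 0 (F.dE a) ∧
      ((j < F.c0 ∧ a = j) ∨ (F.c0 + 6 * t ≤ j ∧ a = j - 6 * t))) ∨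
      ∃ o < 6, ∃ i < t, dot j = ev t i (F.dB o) ∧ j = F.c0 + 6 * i + o := by
    intro j hj
    by_cases a : j < F.c0
    · exact Or.inl ⟨j, by omega, (F.dE_left a).symm, Or.inl ⟨a, rfl⟩⟩
    by_cases b : j < F.c0 + 6 * t
    · refine Or.inr ⟨(j - F.c0) % 6, by omega, (j - F.c0) / 6, by omega, ?_, by omega⟩
      rw [dB_eq]; congr 1; omega
    · refine Or.inl ⟨j - 6 * t, by omega, ?_, Or.inr ⟨by omega, rfl⟩⟩
      rw [F.dE_right (by omega)]; congr 1; omega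
  intro j hj hjs
  rcases hdot j hj with ⟨a, ha, d1, d2⟩ | ⟨o, ho, i, hi, d1, d2⟩
  · have hcy : (if j < F.c0 then (F.CE.getD j []).map (ev t 0) else if j < F.c0 + 6 * t then
        (F.CB.getD ((j - F.c0) % 6) []).map (ev t ((j - F.c0) / 6))
        else (F.CE.getD (j - 6 * t) []).map (ev t 0)) = (F.CE.getD a []).map (ev t 0) := by
      rcases d2 with ⟨b, rfl⟩ | ⟨b, rfl⟩
      · rw [if_pos b]
      · rw [if_neg (by omega), if_neg (by omega)]
    have hE' := (hE.2 a ha).resolve_left (by omega)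
    simp only [hcy]
    refine ⟨fun e he => ?_, ?_, fun j' hj' hne => ?_⟩
    · rw [prs_map, List.mem_map] at he
      obtain ⟨e, he, rfl⟩ := he
      have := List.all_eq_true.mp (h1.1 a ha) e he
      simp only [Bool.or_eq_true] at this
      rcases this with (h | h) | h <;> obtain ⟨x, hx, h⟩ := any_getD h dSQ
      · obtain ⟨p, hp, hp'⟩ := lkE x hx
        exact ⟨p, hp, hp' ▸ mt_ev h fun s s' h => by rw [eqS_ev h]⟩
      · obtain ⟨p, hp, hp'⟩ := lkB x hx 0 (by omega)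
        exact ⟨p, hp, hp' ▸ mt_ev h fun s s' h => relS_ev h rfl⟩
      · obtain ⟨p, hp, hp'⟩ := lkB x hx (t - 1) (by omega)
        exact ⟨p, hp, hp' ▸ mt_ev h fun s s' h => relS_ev h (by simp [val_eq]; omega)⟩
    · rw [d1, mapL (cE a ha).2 (fun s hs => e1 s hs 0), e1 _ (cE a ha).1 0, windL_mp m1]
      exact hE'.1
    · rcases hdot j' hj' with ⟨a', ha', d1', d2'⟩ | ⟨o', ho', i', hi', d1', d2'⟩
      · rw [d1', mapL (cE a ha).2 (fun s hs => e1 s hs 0), e1 _ (cE a' ha').1 0, windL_mp m1]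
        exact (hE'.2 a' ha').resolve_left (by omega)
      · obtain ⟨Δ, m, i0, hi0, k, hk, a1, a2⟩ := scES F.A F.A' hi'
        rw [d1', mapL (cE a ha).2 (fun s hs => a1 s hs 0), a2 _ (cB o' ho').1, windL_mp m]
        exact ((hD i0 hi0 k hk).2 a ha o' ho').1.resolve_left (by omega)
  · have hcy : (if j < F.c0 then (F.CE.getD j []).map (ev t 0) else if j < F.c0 + 6 * t then
        (F.CB.getD ((j - F.c0) % 6) []).map (ev t ((j - F.c0) / 6))
        else (F.CE.getD (j - 6 * t) []).map (ev t 0)) = (F.CB.getD o []).map (ev t i) := by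
      rw [if_neg (by omega), if_pos (by omega), show (j - F.c0) % 6 = o by omega,
        show (j - F.c0) / 6 = i by omega]
    simp only [hcy]
    refine ⟨fun e he => ?_, ?_, fun j' hj' hne => ?_⟩
    · rw [prs_map, List.mem_map] at he
      obtain ⟨e, he, rfl⟩ := he
      have := List.all_eq_true.mp (h1.2 o ho) e he
      simp only [Bool.or_eq_true, Bool.and_eq_true] at this
      rcases this with (h | ⟨h, h'⟩) | ⟨h, h'⟩ <;> obtain ⟨x, hx, h⟩ := any_getD h dSQ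
      · obtain ⟨p, hp, hp'⟩ := lkB x hx i hi
        exact ⟨p, hp, hp' ▸ mt_ev h fun s s' h => by rw [eqS_ev h]⟩
      · by_cases hi0 : i = 0
        · obtain ⟨y, hy, h'⟩ := any_getD h' dSQ
          obtain ⟨p, hp, hp'⟩ := lkE y hy
          exact ⟨p, hp, hp' ▸ mt_ev h' fun s s' h => (relS_ev h (by simp [val_eq, hi0])).symm⟩
        · obtain ⟨p, hp, hp'⟩ := lkB x hx (i - 1) (by omega)
          exact ⟨p, hp, hp' ▸ mt_ev h fun s s' h => relS_ev h (by simp [val_eq]; omega)⟩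
      · by_cases hi0 : i + 1 = t
        · obtain ⟨y, hy, h'⟩ := any_getD h' dSQ
          obtain ⟨p, hp, hp'⟩ := lkE y hy
          exact ⟨p, hp, hp' ▸ mt_ev h' fun s s' h => (relS_ev h (by simp [val_eq, hi0])).symm⟩
        · obtain ⟨p, hp, hp'⟩ := lkB x hx (i + 1) (by omega)
          exact ⟨p, hp, hp' ▸ mt_ev h fun s s' h => relS_ev h (by simp [val_eq])⟩
    · obtain ⟨Δ, m, k, hk, k0, b1, -⟩ := scSS F.A F.A' t (le_refl i)
      rw [d1, mapL (cB o ho).2 b1, b1 _ (cB o ho).1, windL_mp m]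
      exact (hSS.2 o ho).1
    · rcases hdot j' hj' with ⟨a', ha', d1', d2'⟩ | ⟨o', ho', i', hi', d1', d2'⟩
      · obtain ⟨Δ, m, i0, hi0, k, hk, a1, a2⟩ := scES F.A F.A' hi
        rw [d1', mapL (cB o ho).2 a2, a1 _ (cE a' ha').1 0, windL_mp m]
        exact ((hD i0 hi0 k hk).2 a' ha' o ho).2
      · rcases le_total i i' with h | h
        · obtain ⟨Δ, m, k, hk, k0, b1, b2⟩ := scSS F.A F.A' t h
          rw [d1', mapL (cB o ho).2 b1, b2 _ (cB o' ho').1, windL_mp m]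
          exact (((hSS.2 o ho).2 o' ho' k hk).resolve_left (by omega)).1
        · obtain ⟨Δ, m, k, hk, k0, b1, b2⟩ := scSS F.A F.A' t h
          rw [d1', mapL (cB o ho).2 b2, b1 _ (cB o' ho').1, windL_mp m]
          exact (((hSS.2 o ho).2 o' ho' k hk).resolve_left (by omega)).2

end Fam

end Pool.Agent.MP_b0ee3d_lc
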