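import Mathlib
import Pool.Agent.MP_b0ee3d_lc.Fam

set_option autoImplicit false

namespace Pool.Agent.MP_b0ee3d_lc

def fam0 : Fam where
  n0 := 18
  c0 := 9
  A := 92
  A' := 6
  g0 := 16
  g1 := 11
  g2 := 7
  d0 := 1
  d1 := 1
  d2 := 0
  js := 2
  E := [
    (((68,1),(3,1),true),((84,1),(5,1),true),((109,1),(6,1),false),false),
    (((84,1),(5,1),true),((109,1),(6,1),false),((108,1),(14,1),true),true),
    (((109,1),(6,1),false),((108,1),(14,1),true),((36,0),(12,1),true),false),
    (((108,1),(14,1),true),((36,0),(12,1),true),((37,0),(17,1),false),true),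
    (((36,0),(12,1),true),((37,0),(17,1),false),((4,0),(15,1),true),false),
    (((37,0),(17,1),false),((4,0),(15,1),true),((116,1),(7,1),false),true),
    (((4,0),(15,1),true),((116,1),(7,1),false),((45,0),(9,1),false),false),
    (((116,1),(7,1),false),((45,0),(9,1),false),((141,1),(11,1),false),true),
    (((45,0),(9,1),false),((141,1),(11,1),false),((3,0),(16,1),true),false),
    (((141,1),(11,1),false),((3,0),(16,1),true),((4,0),(15,1),true),true),
    (((3,0),(16,1),true),((4,0),(15,1),true),((20,0),(13,1),false),false),
    (((4,0),(15,1),true),((20,0),(13,1),false),((36,0),(12,1),true),true),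
    (((20,0),(13,1),false),((36,0),(12,1),true),((100,1),(1,0),false),false),
    (((36,0),(12,1),true),((100,1),(1,0),false),((109,1),(6,1),false),true),
    (((100,1),(1,0),false),((109,1),(6,1),false),((76,1),(4,1),false),false),
    (((109,1),(6,1),false),((76,1),(4,1),false),((68,1),(3,1),true),true),
    (((76,0),(4,0),false),((68,0),(3,0),true),((43,0),(10,1),true),false),
    (((68,0),(3,0),true),((43,0),(10,1),true),((45,0),(9,1),false),true),
    (((43,0),(10,1),true),((45,0),(9,1),false),((132,1),(8,1),true),false),
    (((45,0),(9,1),false),((132,1),(8,1),true),((3,0),(16,1),true),true),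
    (((132,1),(8,1),true),((3,0),(16,1),true),((37,0),(17,1),false),false),
    (((3,0),(16,1),true),((37,0),(17,1),false),((20,0),(13,1),false),true),
    (((37,0),(17,1),false),((20,0),(13,1),false),((108,1),(14,1),true),false),
    (((20,0),(13,1),false),((108,1),(14,1),true),((100,1),(1,0),false),true),
    (((108,1),(14,1),true),((100,1),(1,0),false),((84,1),(5,1),true),false),
    (((100,1),(1,0),false),((84,1),(5,1),true),((76,1),(4,1),false),true),
    (((84,1),(5,1),true),((76,1),(4,1),false),((60,1),(2,1),false),false),
    (((76,0),(4,0),false),((60,0),(2,0),false),((43,0),(10,1),true),true),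
    (((60,0),(2,0),false),((43,0),(10,1),true),((141,1),(11,1),false),false),
    (((43,0),(10,1),true),((141,1),(11,1),false),((132,1),(8,1),true),true),
    (((141,1),(11,1),false),((132,1),(8,1),true),((116,1),(7,1),false),false),
    (((132,1),(8,1),true),((116,1),(7,1),false),((60,0),(2,0),false),true),
    (((116,1),(7,1),false),((60,0),(2,0),false),((68,0),(3,0),true),false),
    (((60,0),(2,0),false),((68,0),(3,0),true),((84,0),(5,0),true),true)]
  B := [
    (((124,2),(10,2),false),((116,2),(9,2),true),((100,2),(7,2),true),false),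
    (((116,2),(9,2),true),((100,2),(7,2),true),((92,2),(6,2),false),true),
    (((100,2),(7,2),true),((92,2),(6,2),false),((76,2),(4,2),false),false),
    (((92,2),(6,2),false),((76,2),(4,2),false),((68,2),(3,2),true),true),
    (((124,2),(10,2),false),((108,2),(8,2),false),((100,2),(7,2),true),true),
    (((108,2),(8,2),false),((100,2),(7,2),true),((84,2),(5,2),true),false),
    (((100,2),(7,2),true),((84,2),(5,2),true),((76,2),(4,2),false),true),
    (((84,2),(5,2),true),((76,2),(4,2),false),((60,2),(2,2),false),false),
    (((68,2),(3,2),true),((84,2),(5,2),true),((92,2),(6,2),false),false),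
    (((84,2),(5,2),true),((92,2),(6,2),false),((108,2),(8,2),false),true),
    (((92,2),(6,2),false),((108,2),(8,2),false),((116,2),(9,2),true),false),
    (((108,2),(8,2),false),((116,2),(9,2),true),((132,2),(11,2),true),true)]
  CE := [
    [((37,0),(17,1),false),((4,0),(15,1),true),((3,0),(16,1),true)],
    [((20,0),(13,1),false),((4,0),(15,1),true),((37,0),(17,1),false)], [],
    [((108,1),(14,1),true),((20,0),(13,1),false),((36,0),(12,1),true)],
    [((36,0),(12,1),true),((20,0),(13,1),false),((37,0),(17,1),false)],
    [((141,1),(11,1),false),((45,0),(9,1),false),((43,0),(10,1),true)],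
    [((45,0),(9,1),false),((116,1),(7,1),false),((60,0),(2,0),false),((43,0),(10,1),true)],
    [((43,0),(10,1),true),((60,0),(2,0),false),((68,0),(3,0),true)],
    [((60,0),(2,0),false),((76,0),(4,0),false),((68,0),(3,0),true)],
    [((76,1),(4,1),false),((84,1),(5,1),true),((68,1),(3,1),true)],
    [((76,1),(4,1),false),((109,1),(6,1),false),((84,1),(5,1),true)],
    [((84,1),(5,1),true),((109,1),(6,1),false),((100,1),(1,0),false)],
    [((100,1),(1,0),false),((108,1),(14,1),true),((36,0),(12,1),true)],
    [((109,1),(6,1),false),((108,1),(14,1),true),((100,1),(1,0),false)],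
    [((4,0),(15,1),true),((116,1),(7,1),false),((132,1),(8,1),true),((3,0),(16,1),true)],
    [((132,1),(8,1),true),((116,1),(7,1),false),((45,0),(9,1),false)],
    [((132,1),(8,1),true),((45,0),(9,1),false),((141,1),(11,1),false)],
    [((3,0),(16,1),true),((132,1),(8,1),true),((141,1),(11,1),false)]]
  CB := [
    [((68,2),(3,2),true),((76,2),(4,2),false),((84,2),(5,2),true)],
    [((76,2),(4,2),false),((92,2),(6,2),false),((84,2),(5,2),true)],
    [((84,2),(5,2),true),((92,2),(6,2),false),((100,2),(7,2),true)],
    [((92,2),(6,2),false),((108,2),(8,2),false),((100,2),(7,2),true)],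
    [((100,2),(7,2),true),((108,2),(8,2),false),((116,2),(9,2),true)],
    [((124,2),(10,2),false),((116,2),(9,2),true),((108,2),(8,2),false)]]

theorem fam0_k0 : fam0.k0 = true := by decide +kernel

theorem fam0_k1 : fam0.k1 = true := by decide +kernel

theorem fam0_kEE : fam0.kEE = true := by decide +kernel

theorem fam0_kE : fam0.kE = true := by decide +kernel

theorem fam0_kSS : fam0.kSS = true := by decide +kernel

theorem fam0_kES00 : fam0.kES 0 0 = true := by decide +kernel

theorem fam0_kES01 : fam0.kES 0 1 = true := by decide +kernel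

theorem fam0_kES10 : fam0.kES 1 0 = true := by decide +kernel

theorem fam0_kES11 : fam0.kES 1 1 = true := by decide +kernel

theorem fam0_kD00 : fam0.kD 0 0 = true := by decide +kernel

theorem fam0_kD01 : fam0.kD 0 1 = true := by decide +kernel

theorem fam0_kD10 : fam0.kD 1 0 = true := by decide +kernel

theorem fam0_kD11 : fam0.kD 1 1 = true := by decide +kernel

theorem fam0_valid {t : ℕ} (ht : 1 ≤ t) : Valid (fam0.n0 + 6 * t) (fam0.G + 12 * t)
    (fun p => fam0.tri t (fam0.desc t p)) :=
  fam0.valid fam0_k0 fam0_k1 fam0_kEE fam0_kE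
    (fun i hi k hk => by
      interval_cases i <;> interval_cases k
      exacts [fam0_kES00, fam0_kES01, fam0_kES10, fam0_kES11])
    (fun i hi k hk => by
      interval_cases i <;> interval_cases k
      exacts [fam0_kD00, fam0_kD01, fam0_kD10, fam0_kD11]) fam0_kSS ht

end Pool.Agent.MP_b0ee3d_lc
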