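import Mathlib
import Pool.Agent.MP_b0ee3d_lc.Fam

set_option autoImplicit false

namespace Pool.Agent.MP_b0ee3d_lc

def fam1 : Fam where
  n0 := 19
  c0 := 5
  A := 60
  A' := 6
  g0 := 8
  g1 := 11
  g2 := 17
  d0 := 0
  d1 := 0
  d2 := 0
  js := 2
  E := [
    (((36,1),(3,1),true),((52,1),(5,1),true),((53,1),(11,1),false),false),
    (((52,1),(5,1),true),((53,1),(11,1),false),((12,0),(10,1),true),true),
    (((53,1),(11,1),false),((12,0),(10,1),true),((124,1),(13,1),false),false),
    (((12,0),(10,1),true),((124,1),(13,1),false),((140,1),(14,1),true),true),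
    (((124,1),(13,1),false),((140,1),(14,1),true),((149,1),(17,1),false),false),
    (((140,1),(14,1),true),((149,1),(17,1),false),((3,0),(16,1),true),true),
    (((149,1),(17,1),false),((3,0),(16,1),true),((28,0),(2,0),false),false),
    (((3,0),(16,1),true),((28,0),(2,0),false),((44,0),(4,0),false),true),
    (((28,1),(2,1),false),((44,1),(4,1),false),((52,1),(5,1),true),false),
    (((44,1),(4,1),false),((52,1),(5,1),true),((68,1),(6,1),true),true),
    (((52,1),(5,1),true),((68,1),(6,1),true),((69,1),(12,1),false),false),
    (((68,1),(6,1),true),((69,1),(12,1),false),((108,1),(8,1),false),true),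
    (((69,1),(12,1),false),((108,1),(8,1),false),((100,1),(1,0),false),false),
    (((108,1),(8,1),false),((100,1),(1,0),false),((85,1),(18,1),true),true),
    (((100,1),(1,0),false),((85,1),(18,1),true),((140,1),(14,1),true),false),
    (((85,1),(18,1),true),((140,1),(14,1),true),((5,0),(15,1),false),true),
    (((140,1),(14,1),true),((5,0),(15,1),false),((3,0),(16,1),true),false),
    (((5,0),(15,1),false),((3,0),(16,1),true),((36,0),(3,0),true),true),
    (((3,0),(16,1),true),((36,0),(3,0),true),((44,0),(4,0),false),false),
    (((36,1),(3,1),true),((44,1),(4,1),false),((53,1),(11,1),false),true),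
    (((44,1),(4,1),false),((53,1),(11,1),false),((68,1),(6,1),true),false),
    (((53,1),(11,1),false),((68,1),(6,1),true),((84,1),(7,1),true),true),
    (((68,1),(6,1),true),((84,1),(7,1),true),((108,1),(8,1),false),false),
    (((84,1),(7,1),true),((108,1),(8,1),false),((116,1),(9,1),true),true),
    (((108,1),(8,1),false),((116,1),(9,1),true),((85,1),(18,1),true),false),
    (((116,1),(9,1),true),((85,1),(18,1),true),((149,1),(17,1),false),true),
    (((85,1),(18,1),true),((149,1),(17,1),false),((5,0),(15,1),false),false),
    (((149,1),(17,1),false),((5,0),(15,1),false),((124,1),(13,1),false),true),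
    (((5,0),(15,1),false),((124,1),(13,1),false),((116,1),(9,1),true),false),
    (((124,1),(13,1),false),((116,1),(9,1),true),((100,1),(1,0),false),true),
    (((116,1),(9,1),true),((100,1),(1,0),false),((84,1),(7,1),true),false),
    (((100,1),(1,0),false),((84,1),(7,1),true),((69,1),(12,1),false),true),
    (((84,1),(7,1),true),((69,1),(12,1),false),((12,0),(10,1),true),false),
    (((69,1),(12,1),false),((12,0),(10,1),true),((28,0),(2,0),false),true),
    (((12,0),(10,1),true),((28,0),(2,0),false),((36,0),(3,0),true),false),
    (((28,0),(2,0),false),((36,0),(3,0),true),((52,0),(5,0),true),true)]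
  B := [
    (((28,2),(2,2),false),((44,2),(4,2),false),((52,2),(5,2),true),false),
    (((44,2),(4,2),false),((52,2),(5,2),true),((68,2),(7,2),true),true),
    (((52,2),(5,2),true),((68,2),(7,2),true),((76,2),(8,2),false),false),
    (((68,2),(7,2),true),((76,2),(8,2),false),((92,2),(10,2),false),true),
    (((36,2),(3,2),true),((44,2),(4,2),false),((60,2),(6,2),false),true),
    (((44,2),(4,2),false),((60,2),(6,2),false),((68,2),(7,2),true),false),
    (((60,2),(6,2),false),((68,2),(7,2),true),((84,2),(9,2),true),true),
    (((68,2),(7,2),true),((84,2),(9,2),true),((92,2),(10,2),false),false),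
    (((36,2),(3,2),true),((52,2),(5,2),true),((60,2),(6,2),false),false),
    (((52,2),(5,2),true),((60,2),(6,2),false),((76,2),(8,2),false),true),
    (((60,2),(6,2),false),((76,2),(8,2),false),((84,2),(9,2),true),false),
    (((76,2),(8,2),false),((84,2),(9,2),true),((100,2),(11,2),true),true)]
  CE := [
    [((149,1),(17,1),false),((5,0),(15,1),false),((3,0),(16,1),true)],
    [((5,0),(15,1),false),((124,1),(13,1),false),((12,0),(10,1),true),((28,0),(2,0),false),((3,0),(16,1),true)],
    [], [((3,0),(16,1),true),((28,0),(2,0),false),((36,0),(3,0),true)],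
    [((28,0),(2,0),false),((44,0),(4,0),false),((36,0),(3,0),true)],
    [((44,1),(4,1),false),((52,1),(5,1),true),((36,1),(3,1),true)],
    [((44,1),(4,1),false),((53,1),(11,1),false),((52,1),(5,1),true)],
    [((52,1),(5,1),true),((53,1),(11,1),false),((68,1),(6,1),true)],
    [((53,1),(11,1),false),((12,0),(10,1),true),((69,1),(12,1),false),((68,1),(6,1),true)],
    [((68,1),(6,1),true),((69,1),(12,1),false),((84,1),(7,1),true)],
    [((69,1),(12,1),false),((108,1),(8,1),false),((84,1),(7,1),true)],
    [((84,1),(7,1),true),((108,1),(8,1),false),((100,1),(1,0),false)],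
    [((100,1),(1,0),false),((116,1),(9,1),true),((85,1),(18,1),true)],
    [((108,1),(8,1),false),((116,1),(9,1),true),((100,1),(1,0),false)],
    [((69,1),(12,1),false),((12,0),(10,1),true),((124,1),(13,1),false),((116,1),(9,1),true),((108,1),(8,1),false)],
    [((116,1),(9,1),true),((124,1),(13,1),false),((140,1),(14,1),true),((85,1),(18,1),true)],
    [((140,1),(14,1),true),((124,1),(13,1),false),((5,0),(15,1),false)],
    [((140,1),(14,1),true),((5,0),(15,1),false),((149,1),(17,1),false)],
    [((85,1),(18,1),true),((140,1),(14,1),true),((149,1),(17,1),false)]]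
  CB := [
    [((36,2),(3,2),true),((44,2),(4,2),false),((52,2),(5,2),true)],
    [((44,2),(4,2),false),((60,2),(6,2),false),((52,2),(5,2),true)],
    [((52,2),(5,2),true),((60,2),(6,2),false),((68,2),(7,2),true)],
    [((60,2),(6,2),false),((76,2),(8,2),false),((68,2),(7,2),true)],
    [((68,2),(7,2),true),((76,2),(8,2),false),((84,2),(9,2),true)],
    [((92,2),(10,2),false),((84,2),(9,2),true),((76,2),(8,2),false)]]

theorem fam1_k0 : fam1.k0 = true := by decide +kernel

theorem fam1_k1 : fam1.k1 = true := by decide +kernel

theorem fam1_kEE : fam1.kEE = true := by decide +kernel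

theorem fam1_kE : fam1.kE = true := by decide +kernel

theorem fam1_kSS : fam1.kSS = true := by decide +kernel

theorem fam1_kES00 : fam1.kES 0 0 = true := by decide +kernel

theorem fam1_kES01 : fam1.kES 0 1 = true := by decide +kernel

theorem fam1_kES10 : fam1.kES 1 0 = true := by decide +kernel

theorem fam1_kES11 : fam1.kES 1 1 = true := by decide +kernel

theorem fam1_kD00 : fam1.kD 0 0 = true := by decide +kernel

theorem fam1_kD01 : fam1.kD 0 1 = true := by decide +kernel

theorem fam1_kD10 : fam1.kD 1 0 = true := by decide +kernel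

theorem fam1_kD11 : fam1.kD 1 1 = true := by decide +kernel

theorem fam1_valid {t : ℕ} (ht : 1 ≤ t) : Valid (fam1.n0 + 6 * t) (fam1.G + 12 * t)
    (fun p => fam1.tri t (fam1.desc t p)) :=
  fam1.valid fam1_k0 fam1_k1 fam1_kEE fam1_kE
    (fun i hi k hk => by
      interval_cases i <;> interval_cases k
      exacts [fam1_kES00, fam1_kES01, fam1_kES10, fam1_kES11])
    (fun i hi k hk => by
      interval_cases i <;> interval_cases k
      exacts [fam1_kD00, fam1_kD01, fam1_kD10, fam1_kD11]) fam1_kSS ht

end Pool.Agent.MP_b0ee3d_lc
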