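import Mathlib
import Pool.Agent.MP_b0ee3d_lc.Fam

set_option autoImplicit false

namespace Pool.Agent.MP_b0ee3d_lc

def fam2 : Fam where
  n0 := 20
  c0 := 6
  A := 68
  A' := 8
  g0 := 17
  g1 := 11
  g2 := 10
  d0 := 1
  d1 := 1
  d2 := 0
  js := 3
  E := [
    (((44,1),(5,1),false),((60,1),(7,1),false),((68,1),(1,0),true),false),
    (((60,1),(7,1),false),((68,1),(1,0),true),((21,0),(8,1),true),true),
    (((68,1),(1,0),true),((21,0),(8,1),true),((85,1),(3,0),true),false),
    (((21,0),(8,1),true),((85,1),(3,0),true),((100,1),(9,1),false),true),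
    (((85,1),(3,0),true),((100,1),(9,1),false),((116,1),(12,1),true),false),
    (((100,1),(9,1),false),((116,1),(12,1),true),((133,1),(15,1),false),true),
    (((116,1),(12,1),true),((133,1),(15,1),false),((5,0),(16,1),true),false),
    (((133,1),(15,1),false),((5,0),(16,1),true),((157,1),(18,1),true),true),
    (((5,0),(16,1),true),((157,1),(18,1),true),((101,1),(19,1),false),false),
    (((157,1),(18,1),true),((101,1),(19,1),false),((116,1),(12,1),true),true),
    (((101,1),(19,1),false),((116,1),(12,1),true),((125,1),(14,1),true),false),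
    (((116,1),(12,1),true),((125,1),(14,1),true),((11,0),(11,1),false),true),
    (((125,1),(14,1),true),((11,0),(11,1),false),((21,0),(8,1),true),false),
    (((11,0),(11,1),false),((21,0),(8,1),true),((84,1),(2,0),false),true),
    (((21,0),(8,1),true),((84,1),(2,0),false),((60,1),(7,1),false),false),
    (((84,1),(2,0),false),((60,1),(7,1),false),((52,1),(6,1),true),true),
    (((60,1),(7,1),false),((52,1),(6,1),true),((36,1),(4,1),true),false),
    (((52,0),(6,0),true),((36,0),(4,0),true),((3,0),(17,1),false),true),
    (((36,0),(4,0),true),((3,0),(17,1),false),((157,1),(18,1),true),false),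
    (((3,0),(17,1),false),((157,1),(18,1),true),((148,1),(13,1),false),true),
    (((157,1),(18,1),true),((148,1),(13,1),false),((133,1),(15,1),false),false),
    (((148,1),(13,1),false),((133,1),(15,1),false),((125,1),(14,1),true),true),
    (((133,1),(15,1),false),((125,1),(14,1),true),((13,0),(10,1),true),false),
    (((125,1),(14,1),true),((13,0),(10,1),true),((85,1),(3,0),true),true),
    (((13,0),(10,1),true),((85,1),(3,0),true),((84,1),(2,0),false),false),
    (((85,1),(3,0),true),((84,1),(2,0),false),((68,1),(1,0),true),true),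
    (((84,1),(2,0),false),((68,1),(1,0),true),((52,1),(6,1),true),false),
    (((68,1),(1,0),true),((52,1),(6,1),true),((44,1),(5,1),false),true),
    (((52,0),(6,0),true),((44,0),(5,0),false),((3,0),(17,1),false),false),
    (((44,0),(5,0),false),((3,0),(17,1),false),((5,0),(16,1),true),true),
    (((3,0),(17,1),false),((5,0),(16,1),true),((148,1),(13,1),false),false),
    (((5,0),(16,1),true),((148,1),(13,1),false),((101,1),(19,1),false),true),
    (((148,1),(13,1),false),((101,1),(19,1),false),((100,1),(9,1),false),false),
    (((101,1),(19,1),false),((100,1),(9,1),false),((13,0),(10,1),true),true),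
    (((100,1),(9,1),false),((13,0),(10,1),true),((11,0),(11,1),false),false),
    (((13,0),(10,1),true),((11,0),(11,1),false),((36,0),(4,0),true),true),
    (((11,0),(11,1),false),((36,0),(4,0),true),((44,0),(5,0),false),false),
    (((36,0),(4,0),true),((44,0),(5,0),false),((60,0),(7,0),false),true)]
  B := [
    (((100,2),(12,2),true),((84,2),(10,2),true),((76,2),(9,2),false),true),
    (((84,2),(10,2),true),((76,2),(9,2),false),((60,2),(7,2),false),false),
    (((76,2),(9,2),false),((60,2),(7,2),false),((52,2),(6,2),true),true),
    (((60,2),(7,2),false),((52,2),(6,2),true),((36,2),(4,2),true),false),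
    (((100,2),(12,2),true),((92,2),(11,2),false),((76,2),(9,2),false),false),
    (((92,2),(11,2),false),((76,2),(9,2),false),((68,2),(8,2),true),true),
    (((76,2),(9,2),false),((68,2),(8,2),true),((52,2),(6,2),true),false),
    (((68,2),(8,2),true),((52,2),(6,2),true),((44,2),(5,2),false),true),
    (((44,2),(5,2),false),((60,2),(7,2),false),((68,2),(8,2),true),false),
    (((60,2),(7,2),false),((68,2),(8,2),true),((84,2),(10,2),true),true),
    (((68,2),(8,2),true),((84,2),(10,2),true),((92,2),(11,2),false),false),
    (((84,2),(10,2),true),((92,2),(11,2),false),((108,2),(13,2),false),true)]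
  CE := [
    [((157,1),(18,1),true),((5,0),(16,1),true),((3,0),(17,1),false)],
    [((13,0),(10,1),true),((11,0),(11,1),false),((125,1),(14,1),true)],
    [((21,0),(8,1),true),((11,0),(11,1),false),((13,0),(10,1),true),((85,1),(3,0),true)], [],
    [((3,0),(17,1),false),((36,0),(4,0),true),((44,0),(5,0),false)],
    [((36,0),(4,0),true),((52,0),(6,0),true),((44,0),(5,0),false)],
    [((52,1),(6,1),true),((60,1),(7,1),false),((44,1),(5,1),false)],
    [((52,1),(6,1),true),((68,1),(1,0),true),((60,1),(7,1),false)],
    [((60,1),(7,1),false),((68,1),(1,0),true),((84,1),(2,0),false)],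
    [((68,1),(1,0),true),((21,0),(8,1),true),((84,1),(2,0),false)],
    [((84,1),(2,0),false),((21,0),(8,1),true),((85,1),(3,0),true)],
    [((85,1),(3,0),true),((13,0),(10,1),true),((100,1),(9,1),false)],
    [((13,0),(10,1),true),((125,1),(14,1),true),((116,1),(12,1),true),((100,1),(9,1),false)],
    [((100,1),(9,1),false),((116,1),(12,1),true),((101,1),(19,1),false)],
    [((116,1),(12,1),true),((133,1),(15,1),false),((148,1),(13,1),false),((101,1),(19,1),false)],
    [((116,1),(12,1),true),((125,1),(14,1),true),((133,1),(15,1),false)],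
    [((5,0),(16,1),true),((133,1),(15,1),false),((125,1),(14,1),true),((11,0),(11,1),false),((36,0),(4,0),true),((3,0),(17,1),false)],
    [((148,1),(13,1),false),((133,1),(15,1),false),((5,0),(16,1),true)],
    [((148,1),(13,1),false),((5,0),(16,1),true),((157,1),(18,1),true)],
    [((101,1),(19,1),false),((148,1),(13,1),false),((157,1),(18,1),true)]]
  CB := [
    [((44,2),(5,2),false),((52,2),(6,2),true),((60,2),(7,2),false)],
    [((52,2),(6,2),true),((68,2),(8,2),true),((60,2),(7,2),false)],
    [((60,2),(7,2),false),((68,2),(8,2),true),((76,2),(9,2),false)],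
    [((68,2),(8,2),true),((84,2),(10,2),true),((76,2),(9,2),false)],
    [((76,2),(9,2),false),((84,2),(10,2),true),((92,2),(11,2),false)],
    [((100,2),(12,2),true),((92,2),(11,2),false),((84,2),(10,2),true)]]

theorem fam2_k0 : fam2.k0 = true := by decide +kernel

theorem fam2_k1 : fam2.k1 = true := by decide +kernel

theorem fam2_kEE : fam2.kEE = true := by decide +kernel

theorem fam2_kE : fam2.kE = true := by decide +kernel

theorem fam2_kSS : fam2.kSS = true := by decide +kernel

theorem fam2_kES00 : fam2.kES 0 0 = true := by decide +kernel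

theorem fam2_kES01 : fam2.kES 0 1 = true := by decide +kernel

theorem fam2_kES10 : fam2.kES 1 0 = true := by decide +kernel

theorem fam2_kES11 : fam2.kES 1 1 = true := by decide +kernel

theorem fam2_kD00 : fam2.kD 0 0 = true := by decide +kernel

theorem fam2_kD01 : fam2.kD 0 1 = true := by decide +kernel

theorem fam2_kD10 : fam2.kD 1 0 = true := by decide +kernel

theorem fam2_kD11 : fam2.kD 1 1 = true := by decide +kernel

theorem fam2_valid {t : ℕ} (ht : 1 ≤ t) : Valid (fam2.n0 + 6 * t) (fam2.G + 12 * t)
    (fun p => fam2.tri t (fam2.desc t p)) :=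
  fam2.valid fam2_k0 fam2_k1 fam2_kEE fam2_kE
    (fun i hi k hk => by
      interval_cases i <;> interval_cases k
      exacts [fam2_kES00, fam2_kES01, fam2_kES10, fam2_kES11])
    (fun i hi k hk => by
      interval_cases i <;> interval_cases k
      exacts [fam2_kD00, fam2_kD01, fam2_kD10, fam2_kD11]) fam2_kSS ht

end Pool.Agent.MP_b0ee3d_lc
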