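import Mathlib
import Pool.Agent.MP_b0ee3d_lc.Fam

set_option autoImplicit false

namespace Pool.Agent.MP_b0ee3d_lc

def fam3 : Fam where
  n0 := 15
  c0 := 7
  A := 76
  A' := 7
  g0 := 9
  g1 := 9
  g2 := 10
  d0 := 0
  d1 := 0
  d2 := 0
  js := 2
  E := [
    (((52,1),(4,1),true),((68,1),(6,1),true),((109,1),(12,1),false),false),
    (((68,1),(6,1),true),((109,1),(12,1),false),((92,1),(1,0),true),true),
    (((109,1),(12,1),false),((92,1),(1,0),true),((101,1),(7,1),true),false),
    (((92,1),(1,0),true),((101,1),(7,1),true),((108,1),(10,1),true),true),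
    (((101,1),(7,1),true),((108,1),(10,1),true),((3,0),(13,1),true),false),
    (((108,1),(10,1),true),((3,0),(13,1),true),((29,0),(14,1),false),true),
    (((3,0),(13,1),true),((29,0),(14,1),false),((28,0),(8,1),true),false),
    (((29,0),(14,1),false),((28,0),(8,1),true),((52,0),(4,0),true),true),
    (((28,0),(8,1),true),((52,0),(4,0),true),((60,0),(5,0),false),false),
    (((52,1),(4,1),true),((60,1),(5,1),false),((109,1),(12,1),false),true),
    (((60,1),(5,1),false),((109,1),(12,1),false),((77,1),(2,0),false),false),
    (((109,1),(12,1),false),((77,1),(2,0),false),((101,1),(7,1),true),true),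
    (((77,1),(2,0),false),((101,1),(7,1),true),((117,1),(11,1),false),false),
    (((101,1),(7,1),true),((117,1),(11,1),false),((3,0),(13,1),true),true),
    (((117,1),(11,1),false),((3,0),(13,1),true),((12,0),(9,1),false),false),
    (((3,0),(13,1),true),((12,0),(9,1),false),((28,0),(8,1),true),true),
    (((12,0),(9,1),false),((28,0),(8,1),true),((44,0),(3,0),false),false),
    (((28,0),(8,1),true),((44,0),(3,0),false),((60,0),(5,0),false),true),
    (((44,1),(3,1),false),((60,1),(5,1),false),((68,1),(6,1),true),false),
    (((60,1),(5,1),false),((68,1),(6,1),true),((77,1),(2,0),false),true),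
    (((68,1),(6,1),true),((77,1),(2,0),false),((92,1),(1,0),true),false),
    (((77,1),(2,0),false),((92,1),(1,0),true),((117,1),(11,1),false),true),
    (((92,1),(1,0),true),((117,1),(11,1),false),((108,1),(10,1),true),false),
    (((117,1),(11,1),false),((108,1),(10,1),true),((12,0),(9,1),false),true),
    (((108,1),(10,1),true),((12,0),(9,1),false),((29,0),(14,1),false),false),
    (((12,0),(9,1),false),((29,0),(14,1),false),((44,0),(3,0),false),true),
    (((29,0),(14,1),false),((44,0),(3,0),false),((52,0),(4,0),true),false),
    (((44,0),(3,0),false),((52,0),(4,0),true),((68,0),(6,0),true),true)]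
  B := [
    (((52,2),(4,2),true),((60,2),(5,2),false),((76,2),(7,2),false),true),
    (((60,2),(5,2),false),((76,2),(7,2),false),((84,2),(8,2),true),false),
    (((76,2),(7,2),false),((84,2),(8,2),true),((100,2),(10,2),true),true),
    (((84,2),(8,2),true),((100,2),(10,2),true),((108,2),(11,2),false),false),
    (((44,2),(3,2),false),((60,2),(5,2),false),((68,2),(6,2),true),false),
    (((60,2),(5,2),false),((68,2),(6,2),true),((84,2),(8,2),true),true),
    (((68,2),(6,2),true),((84,2),(8,2),true),((92,2),(9,2),false),false),
    (((84,2),(8,2),true),((92,2),(9,2),false),((108,2),(11,2),false),true),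
    (((52,2),(4,2),true),((68,2),(6,2),true),((76,2),(7,2),false),false),
    (((68,2),(6,2),true),((76,2),(7,2),false),((92,2),(9,2),false),true),
    (((76,2),(7,2),false),((92,2),(9,2),false),((100,2),(10,2),true),false),
    (((92,2),(9,2),false),((100,2),(10,2),true),((116,2),(12,2),true),true)]
  CE := [
    [((3,0),(13,1),true),((29,0),(14,1),false),((12,0),(9,1),false)],
    [((108,1),(10,1),true),((3,0),(13,1),true),((12,0),(9,1),false)], [],
    [((12,0),(9,1),false),((29,0),(14,1),false),((28,0),(8,1),true)],
    [((29,0),(14,1),false),((44,0),(3,0),false),((28,0),(8,1),true)],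
    [((28,0),(8,1),true),((44,0),(3,0),false),((52,0),(4,0),true)],
    [((44,0),(3,0),false),((60,0),(5,0),false),((52,0),(4,0),true)],
    [((60,1),(5,1),false),((68,1),(6,1),true),((52,1),(4,1),true)],
    [((60,1),(5,1),false),((109,1),(12,1),false),((68,1),(6,1),true)],
    [((68,1),(6,1),true),((109,1),(12,1),false),((77,1),(2,0),false)],
    [((77,1),(2,0),false),((92,1),(1,0),true),((101,1),(7,1),true)],
    [((109,1),(12,1),false),((92,1),(1,0),true),((77,1),(2,0),false)],
    [((92,1),(1,0),true),((117,1),(11,1),false),((101,1),(7,1),true)],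
    [((101,1),(7,1),true),((117,1),(11,1),false),((108,1),(10,1),true)],
    [((117,1),(11,1),false),((3,0),(13,1),true),((108,1),(10,1),true)]]
  CB := [
    [((52,2),(4,2),true),((60,2),(5,2),false),((68,2),(6,2),true)],
    [((60,2),(5,2),false),((76,2),(7,2),false),((68,2),(6,2),true)],
    [((68,2),(6,2),true),((76,2),(7,2),false),((84,2),(8,2),true)],
    [((76,2),(7,2),false),((92,2),(9,2),false),((84,2),(8,2),true)],
    [((84,2),(8,2),true),((92,2),(9,2),false),((100,2),(10,2),true)],
    [((108,2),(11,2),false),((100,2),(10,2),true),((92,2),(9,2),false)]]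

theorem fam3_k0 : fam3.k0 = true := by decide +kernel

theorem fam3_k1 : fam3.k1 = true := by decide +kernel

theorem fam3_kEE : fam3.kEE = true := by decide +kernel

theorem fam3_kE : fam3.kE = true := by decide +kernel

theorem fam3_kSS : fam3.kSS = true := by decide +kernel

theorem fam3_kES00 : fam3.kES 0 0 = true := by decide +kernel

theorem fam3_kES01 : fam3.kES 0 1 = true := by decide +kernel

theorem fam3_kES10 : fam3.kES 1 0 = true := by decide +kernel

theorem fam3_kES11 : fam3.kES 1 1 = true := by decide +kernel

theorem fam3_kD00 : fam3.kD 0 0 = true := by decide +kernel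

theorem fam3_kD01 : fam3.kD 0 1 = true := by decide +kernel

theorem fam3_kD10 : fam3.kD 1 0 = true := by decide +kernel

theorem fam3_kD11 : fam3.kD 1 1 = true := by decide +kernel

theorem fam3_valid {t : ℕ} (ht : 1 ≤ t) : Valid (fam3.n0 + 6 * t) (fam3.G + 12 * t)
    (fun p => fam3.tri t (fam3.desc t p)) :=
  fam3.valid fam3_k0 fam3_k1 fam3_kEE fam3_kE
    (fun i hi k hk => by
      interval_cases i <;> interval_cases k
      exacts [fam3_kES00, fam3_kES01, fam3_kES10, fam3_kES11])
    (fun i hi k hk => by
      interval_cases i <;> interval_cases k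
      exacts [fam3_kD00, fam3_kD01, fam3_kD10, fam3_kD11]) fam3_kSS ht

end Pool.Agent.MP_b0ee3d_lc
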