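import Mathlib
import Pool.Agent.MP_b0ee3d_lc.Fam

set_option autoImplicit false

namespace Pool.Agent.MP_b0ee3d_lc

def fam4 : Fam where
  n0 := 16
  c0 := 10
  A := 100
  A' := 10
  g0 := 9
  g1 := 14
  g2 := 7
  d0 := 0
  d1 := 1
  d2 := 0
  js := 2
  E := [
    (((76,1),(7,1),true),((92,1),(9,1),true),((101,1),(11,1),false),false),
    (((92,1),(9,1),true),((101,1),(11,1),false),((116,1),(10,1),true),true),
    (((101,1),(11,1),false),((116,1),(10,1),true),((117,1),(15,1),false),false),
    (((116,1),(10,1),true),((117,1),(15,1),false),((3,0),(13,1),true),true),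
    (((117,1),(15,1),false),((3,0),(13,1),true),((29,0),(2,0),false),false),
    (((3,0),(13,1),true),((29,0),(2,0),false),((45,0),(5,0),false),true),
    (((29,0),(2,0),false),((45,0),(5,0),false),((60,0),(4,0),true),false),
    (((45,0),(5,0),false),((60,0),(4,0),true),((76,0),(7,0),true),true),
    (((60,0),(4,0),true),((76,0),(7,0),true),((84,0),(8,0),false),false),
    (((76,1),(7,1),true),((84,1),(8,1),false),((101,1),(11,1),false),true),
    (((84,1),(8,1),false),((101,1),(11,1),false),((125,1),(14,1),true),false),
    (((101,1),(11,1),false),((125,1),(14,1),true),((117,1),(15,1),false),true),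
    (((125,1),(14,1),true),((117,1),(15,1),false),((5,0),(12,1),false),false),
    (((117,1),(15,1),false),((5,0),(12,1),false),((20,0),(3,0),true),true),
    (((5,0),(12,1),false),((20,0),(3,0),true),((45,0),(5,0),false),false),
    (((20,0),(3,0),true),((45,0),(5,0),false),((44,0),(1,0),true),true),
    (((45,0),(5,0),false),((44,0),(1,0),true),((3,0),(13,1),true),false),
    (((44,0),(1,0),true),((3,0),(13,1),true),((5,0),(12,1),false),true),
    (((3,0),(13,1),true),((5,0),(12,1),false),((116,1),(10,1),true),false),
    (((5,0),(12,1),false),((116,1),(10,1),true),((125,1),(14,1),true),true),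
    (((116,1),(10,1),true),((125,1),(14,1),true),((92,1),(9,1),true),false),
    (((125,1),(14,1),true),((92,1),(9,1),true),((84,1),(8,1),false),true),
    (((92,1),(9,1),true),((84,1),(8,1),false),((68,1),(6,1),false),false),
    (((84,0),(8,0),false),((68,0),(6,0),false),((60,0),(4,0),true),true),
    (((68,0),(6,0),false),((60,0),(4,0),true),((44,0),(1,0),true),false),
    (((60,0),(4,0),true),((44,0),(1,0),true),((29,0),(2,0),false),true),
    (((44,0),(1,0),true),((29,0),(2,0),false),((20,0),(3,0),true),false),
    (((29,0),(2,0),false),((20,0),(3,0),true),((68,0),(6,0),false),true),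
    (((20,0),(3,0),true),((68,0),(6,0),false),((76,0),(7,0),true),false),
    (((68,0),(6,0),false),((76,0),(7,0),true),((92,0),(9,0),true),true)]
  B := [
    (((76,2),(7,2),true),((84,2),(8,2),false),((100,2),(10,2),false),true),
    (((84,2),(8,2),false),((100,2),(10,2),false),((108,2),(11,2),true),false),
    (((100,2),(10,2),false),((108,2),(11,2),true),((124,2),(13,2),true),true),
    (((108,2),(11,2),true),((124,2),(13,2),true),((132,2),(14,2),false),false),
    (((132,2),(14,2),false),((116,2),(12,2),false),((108,2),(11,2),true),true),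
    (((116,2),(12,2),false),((108,2),(11,2),true),((92,2),(9,2),true),false),
    (((108,2),(11,2),true),((92,2),(9,2),true),((84,2),(8,2),false),true),
    (((92,2),(9,2),true),((84,2),(8,2),false),((68,2),(6,2),false),false),
    (((76,2),(7,2),true),((92,2),(9,2),true),((100,2),(10,2),false),false),
    (((92,2),(9,2),true),((100,2),(10,2),false),((116,2),(12,2),false),true),
    (((100,2),(10,2),false),((116,2),(12,2),false),((124,2),(13,2),true),false),
    (((116,2),(12,2),false),((124,2),(13,2),true),((140,2),(15,2),true),true)]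
  CE := [
    [((117,1),(15,1),false),((5,0),(12,1),false),((3,0),(13,1),true)],
    [((5,0),(12,1),false),((20,0),(3,0),true),((29,0),(2,0),false),((3,0),(13,1),true)], [],
    [((29,0),(2,0),false),((20,0),(3,0),true),((45,0),(5,0),false)],
    [((3,0),(13,1),true),((29,0),(2,0),false),((44,0),(1,0),true)],
    [((29,0),(2,0),false),((45,0),(5,0),false),((44,0),(1,0),true)],
    [((44,0),(1,0),true),((45,0),(5,0),false),((60,0),(4,0),true)],
    [((45,0),(5,0),false),((20,0),(3,0),true),((68,0),(6,0),false),((60,0),(4,0),true)],
    [((60,0),(4,0),true),((68,0),(6,0),false),((76,0),(7,0),true)],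
    [((68,0),(6,0),false),((84,0),(8,0),false),((76,0),(7,0),true)],
    [((84,1),(8,1),false),((92,1),(9,1),true),((76,1),(7,1),true)],
    [((84,1),(8,1),false),((101,1),(11,1),false),((92,1),(9,1),true)],
    [((92,1),(9,1),true),((101,1),(11,1),false),((125,1),(14,1),true)],
    [((101,1),(11,1),false),((116,1),(10,1),true),((125,1),(14,1),true)],
    [((116,1),(10,1),true),((5,0),(12,1),false),((117,1),(15,1),false)],
    [((125,1),(14,1),true),((116,1),(10,1),true),((117,1),(15,1),false)]]
  CB := [
    [((76,2),(7,2),true),((84,2),(8,2),false),((92,2),(9,2),true)],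
    [((84,2),(8,2),false),((100,2),(10,2),false),((92,2),(9,2),true)],
    [((92,2),(9,2),true),((100,2),(10,2),false),((108,2),(11,2),true)],
    [((100,2),(10,2),false),((116,2),(12,2),false),((108,2),(11,2),true)],
    [((108,2),(11,2),true),((116,2),(12,2),false),((124,2),(13,2),true)],
    [((132,2),(14,2),false),((124,2),(13,2),true),((116,2),(12,2),false)]]

theorem fam4_k0 : fam4.k0 = true := by decide +kernel

theorem fam4_k1 : fam4.k1 = true := by decide +kernel

theorem fam4_kEE : fam4.kEE = true := by decide +kernel

theorem fam4_kE : fam4.kE = true := by decide +kernel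

theorem fam4_kSS : fam4.kSS = true := by decide +kernel

theorem fam4_kES00 : fam4.kES 0 0 = true := by decide +kernel

theorem fam4_kES01 : fam4.kES 0 1 = true := by decide +kernel

theorem fam4_kES10 : fam4.kES 1 0 = true := by decide +kernel

theorem fam4_kES11 : fam4.kES 1 1 = true := by decide +kernel

theorem fam4_kD00 : fam4.kD 0 0 = true := by decide +kernel

theorem fam4_kD01 : fam4.kD 0 1 = true := by decide +kernel

theorem fam4_kD10 : fam4.kD 1 0 = true := by decide +kernel

theorem fam4_kD11 : fam4.kD 1 1 = true := by decide +kernel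

theorem fam4_valid {t : ℕ} (ht : 1 ≤ t) : Valid (fam4.n0 + 6 * t) (fam4.G + 12 * t)
    (fun p => fam4.tri t (fam4.desc t p)) :=
  fam4.valid fam4_k0 fam4_k1 fam4_kEE fam4_kE
    (fun i hi k hk => by
      interval_cases i <;> interval_cases k
      exacts [fam4_kES00, fam4_kES01, fam4_kES10, fam4_kES11])
    (fun i hi k hk => by
      interval_cases i <;> interval_cases k
      exacts [fam4_kD00, fam4_kD01, fam4_kD10, fam4_kD11]) fam4_kSS ht

end Pool.Agent.MP_b0ee3d_lc
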