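import Mathlib
import Pool.Agent.MP_b0ee3d_lc.Fam

set_option autoImplicit false

namespace Pool.Agent.MP_b0ee3d_lc

def fam5 : Fam where
  n0 := 11
  c0 := 7
  A := 76
  A' := 5
  g0 := 6
  g1 := 7
  g2 := 7
  d0 := 0
  d1 := 0
  d2 := 0
  js := 2
  E := [
    (((52,1),(2,1),false),((68,1),(4,1),false),((85,1),(8,1),true),false),
    (((68,1),(4,1),false),((85,1),(8,1),true),((3,0),(9,1),false),true),
    (((85,1),(8,1),true),((3,0),(9,1),false),((12,0),(6,1),true),false),
    (((3,0),(9,1),false),((12,0),(6,1),true),((28,0),(5,1),false),true),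
    (((12,0),(6,1),true),((28,0),(5,1),false),((44,0),(1,0),true),false),
    (((28,0),(5,1),false),((44,0),(1,0),true),((60,0),(3,0),true),true),
    (((44,1),(1,1),true),((60,1),(3,1),true),((68,1),(4,1),false),false),
    (((60,1),(3,1),true),((68,1),(4,1),false),((77,1),(7,1),false),true),
    (((68,1),(4,1),false),((77,1),(7,1),false),((3,0),(9,1),false),false),
    (((77,1),(7,1),false),((3,0),(9,1),false),((29,0),(10,1),true),true),
    (((3,0),(9,1),false),((29,0),(10,1),true),((28,0),(5,1),false),false),
    (((29,0),(10,1),true),((28,0),(5,1),false),((52,0),(2,0),false),true),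
    (((28,0),(5,1),false),((52,0),(2,0),false),((60,0),(3,0),true),false),
    (((52,1),(2,1),false),((60,1),(3,1),true),((85,1),(8,1),true),true),
    (((60,1),(3,1),true),((85,1),(8,1),true),((77,1),(7,1),false),false),
    (((85,1),(8,1),true),((77,1),(7,1),false),((12,0),(6,1),true),true),
    (((77,1),(7,1),false),((12,0),(6,1),true),((29,0),(10,1),true),false),
    (((12,0),(6,1),true),((29,0),(10,1),true),((44,0),(1,0),true),true),
    (((29,0),(10,1),true),((44,0),(1,0),true),((52,0),(2,0),false),false),
    (((44,0),(1,0),true),((52,0),(2,0),false),((68,0),(4,0),false),true)]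
  B := [
    (((44,2),(1,2),true),((60,2),(3,2),true),((68,2),(4,2),false),false),
    (((60,2),(3,2),true),((68,2),(4,2),false),((84,2),(6,2),false),true),
    (((68,2),(4,2),false),((84,2),(6,2),false),((92,2),(7,2),true),false),
    (((84,2),(6,2),false),((92,2),(7,2),true),((108,2),(9,2),true),true),
    (((52,2),(2,2),false),((60,2),(3,2),true),((76,2),(5,2),true),true),
    (((60,2),(3,2),true),((76,2),(5,2),true),((84,2),(6,2),false),false),
    (((76,2),(5,2),true),((84,2),(6,2),false),((100,2),(8,2),false),true),
    (((84,2),(6,2),false),((100,2),(8,2),false),((108,2),(9,2),true),false),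
    (((52,2),(2,2),false),((68,2),(4,2),false),((76,2),(5,2),true),false),
    (((68,2),(4,2),false),((76,2),(5,2),true),((92,2),(7,2),true),true),
    (((76,2),(5,2),true),((92,2),(7,2),true),((100,2),(8,2),false),false),
    (((92,2),(7,2),true),((100,2),(8,2),false),((116,2),(10,2),false),true)]
  CE := [
    [((3,0),(9,1),false),((29,0),(10,1),true),((12,0),(6,1),true)],
    [((77,1),(7,1),false),((3,0),(9,1),false),((12,0),(6,1),true)], [],
    [((12,0),(6,1),true),((29,0),(10,1),true),((28,0),(5,1),false)],
    [((29,0),(10,1),true),((44,0),(1,0),true),((28,0),(5,1),false)],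
    [((28,0),(5,1),false),((44,0),(1,0),true),((52,0),(2,0),false)],
    [((44,0),(1,0),true),((60,0),(3,0),true),((52,0),(2,0),false)],
    [((60,1),(3,1),true),((68,1),(4,1),false),((52,1),(2,1),false)],
    [((60,1),(3,1),true),((85,1),(8,1),true),((68,1),(4,1),false)],
    [((68,1),(4,1),false),((85,1),(8,1),true),((77,1),(7,1),false)],
    [((85,1),(8,1),true),((3,0),(9,1),false),((77,1),(7,1),false)]]
  CB := [
    [((52,2),(2,2),false),((60,2),(3,2),true),((68,2),(4,2),false)],
    [((60,2),(3,2),true),((76,2),(5,2),true),((68,2),(4,2),false)],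
    [((68,2),(4,2),false),((76,2),(5,2),true),((84,2),(6,2),false)],
    [((76,2),(5,2),true),((92,2),(7,2),true),((84,2),(6,2),false)],
    [((84,2),(6,2),false),((92,2),(7,2),true),((100,2),(8,2),false)],
    [((108,2),(9,2),true),((100,2),(8,2),false),((92,2),(7,2),true)]]

theorem fam5_k0 : fam5.k0 = true := by decide +kernel

theorem fam5_k1 : fam5.k1 = true := by decide +kernel

theorem fam5_kEE : fam5.kEE = true := by decide +kernel

theorem fam5_kE : fam5.kE = true := by decide +kernel

theorem fam5_kSS : fam5.kSS = true := by decide +kernel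

theorem fam5_kES00 : fam5.kES 0 0 = true := by decide +kernel

theorem fam5_kES01 : fam5.kES 0 1 = true := by decide +kernel

theorem fam5_kES10 : fam5.kES 1 0 = true := by decide +kernel

theorem fam5_kES11 : fam5.kES 1 1 = true := by decide +kernel

theorem fam5_kD00 : fam5.kD 0 0 = true := by decide +kernel

theorem fam5_kD01 : fam5.kD 0 1 = true := by decide +kernel

theorem fam5_kD10 : fam5.kD 1 0 = true := by decide +kernel

theorem fam5_kD11 : fam5.kD 1 1 = true := by decide +kernel

theorem fam5_valid {t : ℕ} (ht : 1 ≤ t) : Valid (fam5.n0 + 6 * t) (fam5.G + 12 * t)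
    (fun p => fam5.tri t (fam5.desc t p)) :=
  fam5.valid fam5_k0 fam5_k1 fam5_kEE fam5_kE
    (fun i hi k hk => by
      interval_cases i <;> interval_cases k
      exacts [fam5_kES00, fam5_kES01, fam5_kES10, fam5_kES11])
    (fun i hi k hk => by
      interval_cases i <;> interval_cases k
      exacts [fam5_kD00, fam5_kD01, fam5_kD10, fam5_kD11]) fam5_kSS ht

end Pool.Agent.MP_b0ee3d_lc
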