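import Mathlib
import Pool.Agent.MP_b0ee3d_lc.Layout

set_option autoImplicit false

/-! Placing the records of a layout relative to given dots. -/

namespace Pool.Agent.MP_b0ee3d_lc

open Complex

theorem sg_ori1 {a b c : R} {Sa Sb Sc Ha Hb Hc D : ℝ}
    (bc : b.1 < c.1 → Sb + 1 ≤ Sc) (cb : c.1 < b.1 → Sc + 1 ≤ Sb) (e : b.1 = c.1 → Sb = Sc)
    (ab : a.1 < b.1 → Sa + 1 ≤ Sb) (ba : b.1 < a.1 → Sb + 1 ≤ Sa)
    (d1 : |Sa - Sc| ≤ D) (d2 : |Sb - Sa| ≤ D) (h1 : 2 * D * |Hb| < |Ha|) (h2 : 2 * D * |Hc| < |Ha|)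
    (h3 : c.2.1 < b.2.1 → |Hc| < |Hb| ∧ Sg b.2.2 Hb) (h4 : b.2.1 < c.2.1 → |Hb| < |Hc| ∧ Sg c.2.2 Hc)
    (h5 : Sg a.2.2 Ha) (n1 : b.2.1 ≠ c.2.1) (n2 : b.1 = c.1 → a.1 ≠ b.1) :
    Sg (ori1 a b c) (Ha * (Sc - Sb) + Hb * (Sa - Sc) + Hc * (Sb - Sa)) := by
  have k1 : |Hb * (Sa - Sc) + Hc * (Sb - Sa)| < |Ha| := by
    refine (abs_add_le _ _).trans_lt ?_
    rw [abs_mul, abs_mul]
    nlinarith [mul_le_mul_of_nonneg_left d1 (abs_nonneg Hb),
      mul_le_mul_of_nonneg_left d2 (abs_nonneg Hc)]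
  have k2 := abs_lt.mp k1
  have lsf : ∀ {x y : R}, ¬ x.1 < y.1 → ls x y = false := fun h =>
    Bool.eq_false_iff.mpr (fun e => h (Nat.blt_eq.mp e))
  have lst : ∀ {x y : R}, x.1 < y.1 → ls x y = true := fun h => Nat.blt_eq.mpr h
  unfold ori1
  rcases lt_trichotomy b.1 c.1 with h | h | h
  · have := bc h
    rw [lst h, cond_true]
    revert h5
    cases a.2.2 <;> simp only [Sg, if_true, Bool.false_eq_true, if_false] <;> intro h5
    · rw [abs_of_neg h5] at k2; nlinarith [k2.2]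
    · rw [abs_of_pos h5] at k2; nlinarith [k2.1]
  · have e' := e h
    subst e'
    rw [lsf h.not_lt, lsf h.not_gt, cond_false, cond_false,
      show Ha * (Sb - Sb) + Hb * (Sa - Sb) + Hc * (Sb - Sa) = (Hb - Hc) * (Sa - Sb) by ring]
    rcases lt_or_gt_of_ne n1 with h' | h'
    · have t : ll c b = false := Bool.eq_false_iff.mpr (fun e => h'.not_gt (Nat.blt_eq.mp e))
      obtain ⟨k3, k4⟩ := h4 h'
      have k5 := abs_lt.mp k3
      rw [t, cond_false]
      rcases lt_or_gt_of_ne (n2 h) with h'' | h''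
      · have := ab h''
        rw [lst (h ▸ h'')]
        revert k4
        cases c.2.2 <;> simp only [Sg, eqb, if_true, Bool.false_eq_true, if_false, cond_true,
          cond_false, Bool.not_true] <;> intro k4
        · rw [abs_of_neg k4] at k5; nlinarith [k5.1]
        · rw [abs_of_pos k4] at k5; nlinarith [k5.2]
      · have := ba h''
        rw [lsf (h ▸ h''.not_gt)]
        revert k4
        cases c.2.2 <;> simp only [Sg, eqb, if_true, Bool.false_eq_true, if_false, cond_true,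
          cond_false, Bool.not_false] <;> intro k4
        · rw [abs_of_neg k4] at k5; nlinarith [k5.1]
        · rw [abs_of_pos k4] at k5; nlinarith [k5.2]
    · have t : ll c b = true := Nat.blt_eq.mpr h'
      obtain ⟨k3, k4⟩ := h3 h'
      have k5 := abs_lt.mp k3
      rw [t, cond_true]
      rcases lt_or_gt_of_ne (n2 h) with h'' | h''
      · have := ab h''
        rw [lsf h''.not_gt]
        revert k4
        cases b.2.2 <;> simp only [Sg, eqb, if_true, Bool.false_eq_true, if_false, cond_true,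
          cond_false, Bool.not_false] <;> intro k4
        · rw [abs_of_neg k4] at k5; nlinarith [k5.1]
        · rw [abs_of_pos k4] at k5; nlinarith [k5.2]
      · have := ba h''
        rw [lst h'']
        revert k4
        cases b.2.2 <;> simp only [Sg, eqb, if_true, Bool.false_eq_true, if_false, cond_true,
          cond_false, Bool.not_true] <;> intro k4
        · rw [abs_of_neg k4] at k5; nlinarith [k5.1]
        · rw [abs_of_pos k4] at k5; nlinarith [k5.2]
  · have := cb h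
    rw [lsf h.not_gt, lst h, cond_false, cond_true]
    revert h5
    cases a.2.2 <;> simp only [Sg, if_true, Bool.false_eq_true, if_false, Bool.not_true,
      Bool.not_false] <;> intro h5
    · rw [abs_of_neg h5] at k2; nlinarith [k2.1]
    · rw [abs_of_pos h5] at k2; nlinarith [k2.2]

theorem model_of {n : ℕ} {pt : R → ℂ} {ρ : ℂ} {S H : R → ℝ} {D : ℝ} (hD : 1 ≤ D)
    (hdet : ∀ a b c, det (pt b - pt a) (pt c - pt a) =
      H a * (S c - S b) + H b * (S a - S c) + H c * (S b - S a))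
    (him : ∀ a b, (ρ * (pt a - pt b)).im = H a - H b)
    (s1 : ∀ a b : R, b.1 < 8 * n → a.1 < b.1 → S a + 1 ≤ S b)
    (s2 : ∀ a b : R, a.1 = b.1 → S a = S b)
    (s3 : ∀ a b : R, a.1 < 8 * n → b.1 < 8 * n → |S a - S b| ≤ D)
    (h1 : ∀ a b : R, a.1 < 8 * n → b.1 < 8 * n → a.2.1 < b.2.1 →
      2 * D * |H a| < |H b| ∧ Sg b.2.2 (H b)) : Model n pt ρ := by
  have h2 : ∀ a b : R, a.1 < 8 * n → b.1 < 8 * n → a.2.1 < b.2.1 →
      |H a| < |H b| ∧ Sg b.2.2 (H b) := fun a b ha hb h =>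
    ⟨by nlinarith [(h1 a b ha hb h).1, abs_nonneg (H a)], (h1 a b ha hb h).2⟩
  have key : ∀ a b c : R, a.1 < 8 * n → b.1 < 8 * n → c.1 < 8 * n → b.2.1 < a.2.1 → c.2.1 < a.2.1 →
      b.2.1 ≠ c.2.1 → (b.1 = c.1 → a.1 ≠ b.1) →
      Sg (ori1 a b c) (H a * (S c - S b) + H b * (S a - S c) + H c * (S b - S a)) :=
    fun a b c ha hb hc l1 l2 l3 l4 => sg_ori1 (s1 b c hc) (s1 c b hb) (s2 b c) (s1 a b hb)
      (s1 b a ha) (s3 a c ha hc) (s3 b a hb ha) (h1 b a hb ha l1).1 (h1 c a hc ha l2).1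
      (h2 c b hc hb) (h2 b c hb hc) (h1 b a hb ha l1).2 l3 l4
  refine ⟨fun a b c ha hb hc ab ac bc hs => ?_, fun a j ha hl hj => ?_, fun a b ha hb hne e => ?_⟩
  · rw [hdet, ori]
    cases e1 : (ll b a && ll c a)
    · rw [cond_false]
      rw [← Bool.not_eq_true, Bool.and_eq_true, ll, ll, Nat.blt_eq, Nat.blt_eq] at e1
      cases e2 : ll c b
      · rw [← Bool.not_eq_true, ll, Nat.blt_eq] at e2
        have := key c a b hc ha hb (by omega) (by omega) ab (fun e => absurd e hs)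
        rw [cond_false]
        convert this using 1; ring
      · rw [ll, Nat.blt_eq] at e2
        have := key b c a hb hc ha e2 (by omega) ac.symm (fun e => e ▸ hs.symm)
        rw [cond_true]
        convert this using 1; ring
    · rw [Bool.and_eq_true, ll, ll, Nat.blt_eq, Nat.blt_eq] at e1
      exact key a b c ha hb hc e1.1 e1.2 bc (fun _ => hs)
  · obtain ⟨k1, k2⟩ := h2 (dot j) a (by simp only [dot]; omega) ha hl
    have k3 := abs_lt.mp k1
    rw [him]
    revert k2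
    cases a.2.2 <;> simp only [Sg, if_true, Bool.false_eq_true, if_false] <;> intro k2
    · rw [abs_of_neg k2] at k3; linarith [k3.1]
    · rw [abs_of_pos k2] at k3; linarith [k3.2]
  · have := him a b
    rw [e, sub_self, mul_zero, zero_im, eq_comm, sub_eq_zero] at this
    rcases lt_or_gt_of_ne hne with h | h
    · exact (h2 a b ha hb h).1.ne (by rw [this])
    · exact (h2 b a hb ha h).1.ne (by rw [this])

/-- signed height -/
def hgt (β : ℕ) (a : R) : ℤ :=
  if a.2.1 = 0 then 0 else if a.2.2 then 2 ^ ((12 * β + 13) * a.2.1) else -2 ^ ((12 * β + 13) * a.2.1)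

/-- horizontal offset -/
def ofs (a : R) : ℤ := (a.1 % 8 : ℕ) - 4

/-- the point of a record, relative to the dots `d` -/
def place (β : ℕ) (d : ℕ → ℚ × ℚ) (a : R) : ℚ × ℚ :=
  ((d (a.1 / 8)).1 + ((ofs a - hgt β a * (8 * 2 ^ (2 * β)) : ℤ) : ℚ),
    (d (a.1 / 8)).2 + ((hgt β a * (24 * 2 ^ (5 * β) + 1) - ofs a * (3 * 2 ^ (3 * β)) : ℤ) : ℚ))

theorem place_dot (β : ℕ) (d : ℕ → ℚ × ℚ) (j : ℕ) : place β d (dot j) = d j := by
  have h1 : (8 * j + 4) / 8 = j := by omega
  have h2 : (8 * j + 4) % 8 = 4 := by omega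
  simp [place, dot, hgt, ofs, h1, h2]

theorem rat_gap {x y : ℚ} {B : ℝ} (hx : (x.den : ℝ) ≤ B) (hy : (y.den : ℝ) ≤ B) (h : x < y) :
    1 ≤ B ^ 2 * ((y : ℝ) - x) := by
  have h1 : (x.num : ℝ) = x * x.den := by exact_mod_cast (Rat.mul_den_eq_num x).symm
  have h2 : (y.num : ℝ) = y * y.den := by exact_mod_cast (Rat.mul_den_eq_num y).symm
  have h3 : (0 : ℝ) < x.den := by exact_mod_cast x.den_pos
  have h4 : (0 : ℝ) < y.den := by exact_mod_cast y.den_pos
  have h5 : (0 : ℝ) < (y : ℝ) - x := by exact_mod_cast sub_pos.mpr h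
  have h6 : (0 : ℝ) < ((y.num * x.den - x.num * y.den : ℤ) : ℝ) := by
    push_cast; rw [h1, h2]
    nlinarith [mul_pos (mul_pos h3 h4) h5]
  have h7 : (1 : ℝ) ≤ ((y.num * x.den - x.num * y.den : ℤ) : ℝ) := by
    exact_mod_cast (show 0 < y.num * x.den - x.num * y.den by exact_mod_cast h6)
  push_cast at h7
  rw [h1, h2] at h7
  have h8 : (x.den : ℝ) * y.den ≤ B ^ 2 := by nlinarith
  nlinarith [mul_le_mul_of_nonneg_right h8 h5.le]

theorem rat_abs {x : ℚ} {B : ℝ} (hx : |(x.num : ℝ)| ≤ B) : |(x : ℝ)| ≤ B := by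
  have h1 : (x.num : ℝ) = x * x.den := by exact_mod_cast (Rat.mul_den_eq_num x).symm
  have h3 : (1 : ℝ) ≤ x.den := by exact_mod_cast x.den_pos
  rw [h1, abs_mul, abs_of_pos (show (0 : ℝ) < x.den by linarith)] at hx
  nlinarith [abs_nonneg (x : ℝ)]

theorem model_place {n β : ℕ} {d : ℕ → ℚ × ℚ}
    (hb : ∀ j < n, |((d j).1.num : ℝ)| ≤ 2 ^ β ∧ ((d j).1.den : ℝ) ≤ 2 ^ β ∧
      |((d j).2.num : ℝ)| ≤ 2 ^ β ∧ ((d j).2.den : ℝ) ≤ 2 ^ β)
    (hs : ∀ j' < n, ∀ j < j', (d j).1 < (d j').1 ∨ ((d j).1 = (d j').1 ∧ (d j).2 < (d j').2)) :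
    Model n (fun a => ⟨(place β d a).1, (place β d a).2⟩) (1 + (3 * 2 ^ (3 * β) : ℝ) * I) := by
  set B : ℝ := 2 ^ β with hB
  have hB1 : 1 ≤ B := one_le_pow₀ (by norm_num)
  have p2 : (2 : ℝ) ^ (2 * β) = B ^ 2 := by rw [hB, ← pow_mul, mul_comm]
  have p3 : (2 : ℝ) ^ (3 * β) = B ^ 3 := by rw [hB, ← pow_mul, mul_comm]
  have p5 : (2 : ℝ) ^ (5 * β) = B ^ 5 := by rw [hB, ← pow_mul, mul_comm]
  have p12 : (2 : ℝ) ^ (12 * β + 13) = 8192 * B ^ 12 := by
    rw [hB, ← pow_mul, pow_add, mul_comm β]; norm_num [mul_comm]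
  let s : ℕ → ℝ := fun j => (24 * B ^ 5 + 1) * (d j).1 + 8 * B ^ 2 * (d j).2
  let h : ℕ → ℝ := fun j => 3 * B ^ 3 * (d j).1 + (d j).2
  have b2 : B ≤ B ^ 2 := le_self_pow₀ hB1 (by norm_num)
  have pw : ∀ i j : ℕ, i ≤ j → B ^ i ≤ B ^ j := fun i j h => pow_le_pow_right₀ hB1 h
  have hs1 : ∀ j < n, |s j| ≤ 33 * B ^ 6 ∧ |h j| ≤ 33 * B ^ 6 := by
    intro j hj
    have a1 := rat_abs (hb j hj).1
    have a2 := rat_abs (hb j hj).2.2.1
    have := pw 1 6 (by norm_num)
    have := pw 3 6 (by norm_num)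
    have := pw 4 6 (by norm_num)
    constructor
    · refine (abs_add_le _ _).trans ?_
      rw [abs_mul, abs_mul, abs_of_pos (by positivity : 0 < 24 * B ^ 5 + 1),
        abs_of_pos (by positivity : 0 < 8 * B ^ 2)]
      nlinarith [mul_le_mul_of_nonneg_left a1 (by positivity : 0 ≤ 24 * B ^ 5 + 1),
        mul_le_mul_of_nonneg_left a2 (by positivity : 0 ≤ 8 * B ^ 2)]
    · refine (abs_add_le _ _).trans ?_
      rw [abs_mul, abs_of_pos (by positivity : 0 < 3 * B ^ 3)]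
      nlinarith [mul_le_mul_of_nonneg_left a1 (by positivity : 0 ≤ 3 * B ^ 3)]
  have hs2 : ∀ j' < n, ∀ j < j', s j + 8 ≤ s j' := by
    intro j' hj' j hj
    have a1 := abs_le.mp (rat_abs (hb j (by omega)).2.2.1)
    have a2 := abs_le.mp (rat_abs (hb j' hj').2.2.1)
    simp only [s]
    rcases hs j' hj' j hj with h1 | ⟨h1, h2⟩
    · have a3 := rat_gap (hb j (by omega)).2.1 (hb j' hj').2.1 h1
      have a4 : ((d j).1 : ℝ) < (d j').1 := by exact_mod_cast h1
      have := pw 0 3 (by norm_num)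
      nlinarith [mul_le_mul_of_nonneg_left a3 (by positivity : 0 ≤ 24 * B ^ 3),
        mul_le_mul_of_nonneg_left a1.2 (by positivity : 0 ≤ 8 * B ^ 2),
        mul_le_mul_of_nonneg_left a2.1 (by positivity : 0 ≤ 8 * B ^ 2)]
    · have a3 := rat_gap (hb j (by omega)).2.2.2 (hb j' hj').2.2.2 h2
      rw [h1]
      nlinarith
  have ho : ∀ a : R, -4 ≤ (ofs a : ℝ) ∧ (ofs a : ℝ) ≤ 3 := fun a => by
    have : -4 ≤ ofs a ∧ ofs a ≤ 3 := by unfold ofs; omega
    exact_mod_cast this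
  have b6 := pw 0 6 (by norm_num)
  refine model_of (S := fun a => s (a.1 / 8) + ofs a) (H := fun a => h (a.1 / 8) + hgt β a)
    (D := 74 * B ^ 6) (by linarith) (fun a b c => ?_) (fun a b => ?_) (fun a b hb' hab => ?_)
    (fun a b e => by simp only [ofs, e]) (fun a b ha hb' => ?_) (fun a b ha hb' hab => ?_)
  · simp only [det, place, s, h, sub_re, sub_im]
    push_cast
    rw [p2, p3, p5]
    ring
  · simp only [place, h, mul_im, add_re, one_re, mul_re, ofReal_re, I_re, ofReal_im, I_im, sub_im,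
      add_im, one_im, sub_re]
    push_cast
    rw [p2, p3, p5]
    ring
  · by_cases e : a.1 / 8 = b.1 / 8
    · rw [e]
      have : ofs a + 1 ≤ ofs b := by unfold ofs; omega
      have : (ofs a : ℝ) + 1 ≤ ofs b := by exact_mod_cast this
      linarith
    · have := hs2 (b.1 / 8) (by omega) (a.1 / 8) (by omega)
      linarith [(ho a).2, (ho b).1]
  · have a1 := abs_le.mp (hs1 (a.1 / 8) (by omega)).1
    have a2 := abs_le.mp (hs1 (b.1 / 8) (by omega)).1
    rw [abs_le]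
    constructor <;> linarith [a1.1, a1.2, a2.1, a2.2, (ho a).1, (ho a).2, (ho b).1, (ho b).2]
  · have a1 := (hs1 (a.1 / 8) (by omega)).2
    have a2 := abs_le.mp (hs1 (b.1 / 8) (by omega)).2
    set m : ℝ := (8192 * B ^ 12) ^ a.2.1 with hm
    have hM : (1 : ℝ) ≤ 8192 * B ^ 12 := by linarith [pw 0 12 (by norm_num)]
    have m1 : 1 ≤ m := one_le_pow₀ hM
    have a3 : |(hgt β a : ℝ)| ≤ m := by
      unfold hgt
      split_ifs <;> push_cast
      · simpa using by linarith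
      · rw [pow_mul, p12, abs_of_pos (by positivity)]
      · rw [abs_neg, pow_mul, p12, abs_of_pos (by positivity)]
    have a4 : 8192 * B ^ 12 * m ≤ (8192 * B ^ 12) ^ b.2.1 := by
      rw [hm, ← pow_succ']
      exact pow_le_pow_right₀ hM hab
    have a5 : |h (a.1 / 8) + hgt β a| ≤ 33 * B ^ 6 + m := (abs_add_le _ _).trans (by linarith)
    have a6 : 2 * (74 * B ^ 6) * (33 * B ^ 6 + m) + 33 * B ^ 6 < 8192 * B ^ 12 * m := by
      have c1 : B ^ 12 = B ^ 6 * B ^ 6 := by ring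
      rw [c1]
      rw [pow_zero] at b6
      generalize B ^ 6 = C at *
      have hC : 0 < C := by linarith
      nlinarith [mul_le_mul_of_nonneg_left m1 (by positivity : 0 ≤ C * C),
        mul_le_mul_of_nonneg_left b6 (by positivity : 0 ≤ C * m),
        mul_le_mul_of_nonneg_left b6 hC.le, mul_le_mul_of_nonneg_left m1 hC.le]
    have a7 := mul_le_mul_of_nonneg_left a5 (by positivity : 0 ≤ 2 * (74 * B ^ 6))
    have a8 : 0 ≤ 2 * (74 * B ^ 6) * (33 * B ^ 6 + m) := by positivity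
    have a9 : (hgt β b : ℝ) = if b.2.2 then (8192 * B ^ 12) ^ b.2.1 else -(8192 * B ^ 12) ^ b.2.1 := by
      rw [hgt, if_neg (show b.2.1 ≠ 0 by omega)]
      split_ifs <;> push_cast <;> rw [pow_mul, p12]
    rw [a9]
    cases b.2.2 <;> simp only [Sg, if_true, Bool.false_eq_true, if_false]
    · rw [abs_of_neg (a := h (b.1 / 8) + -_) (by linarith [a2.2])]
      constructor <;> linarith [a2.2]
    · rw [abs_of_pos (a := h (b.1 / 8) + _ ^ b.2.1) (by linarith [a2.1])]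
      constructor <;> linarith [a2.1]

end Pool.Agent.MP_b0ee3d_lc
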