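import Mathlib
import Pool.Agent.MP_b0ee3d_lc.Fam

set_option autoImplicit false

namespace Pool.Agent.MP_b0ee3d_lc

def tab1 : List Q := [
    ((4,3,true),(5,1,true),(3,2,false),false), ((5,1,true),(3,2,false),(4,3,true),false),
    ((3,2,false),(4,3,true),(5,1,true),false)]

def cyc1 : List (List R) := [
    []]

theorem ok1 : tabOK 1 tab1 cyc1 0 [0, 1, 2] = true := by decide +kernel

def tab2 : List Q := [
    ((5,1,false),(13,5,false),(12,3,true),false), ((13,5,false),(12,3,true),(11,4,false),false),
    ((12,3,true),(11,4,false),(13,5,false),false), ((11,4,false),(13,5,false),(3,2,true),true),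
    ((13,5,false),(3,2,true),(5,1,false),false), ((3,2,true),(5,1,false),(13,5,false),false)]

def cyc2 : List (List R) := [
    [], [(13,5,false),(11,4,false),(12,3,true)]]

theorem ok2 : tabOK 2 tab2 cyc2 0 [1, 2, 4, 5] = true := by decide +kernel

def tab3 : List Q := [
    ((5,1,true),(3,5,false),(22,7,false),false), ((3,5,false),(22,7,false),(20,2,true),false),
    ((22,7,false),(20,2,true),(3,5,false),false), ((20,2,true),(3,5,false),(21,6,true),true),
    ((3,5,false),(21,6,true),(11,3,true),false), ((21,6,true),(11,3,true),(13,4,false),false),
    ((11,3,true),(13,4,false),(21,6,true),false), ((13,4,false),(21,6,true),(5,1,true),true),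
    ((21,6,true),(5,1,true),(3,5,false),false)]

def cyc3 : List (List R) := [
    [], [(21,6,true),(13,4,false),(11,3,true)], [(3,5,false),(20,2,true),(22,7,false)]]

theorem ok3 : tabOK 3 tab3 cyc3 0 [1, 2, 5, 6, 8] = true := by decide +kernel

def tab4 : List Q := [
    ((3,5,false),(12,2,true),(29,3,false),false), ((12,2,true),(29,3,false),(2,4,true),false),
    ((29,3,false),(2,4,true),(12,2,true),false), ((2,4,true),(12,2,true),(4,6,false),true),
    ((12,2,true),(4,6,false),(29,3,false),false), ((4,6,false),(29,3,false),(21,1,false),true),
    ((29,3,false),(21,1,false),(2,4,true),false), ((21,1,false),(2,4,true),(3,5,false),true),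
    ((2,4,true),(3,5,false),(12,2,true),false)]

def cyc4 : List (List R) := [
    [(12,2,true),(3,5,false),(2,4,true)], [(12,2,true),(29,3,false),(4,6,false)], [],
    [(29,3,false),(21,1,false),(2,4,true)]]

theorem ok4 : tabOK 4 tab4 cyc4 2 [4, 6, 8] = true := by decide +kernel

def tab5 : List Q := [
    ((3,5,true),(29,6,false),(28,2,true),false), ((29,6,false),(28,2,true),(3,5,true),false),
    ((28,2,true),(3,5,true),(12,4,false),false), ((3,5,true),(12,4,false),(28,2,true),false),
    ((12,4,false),(28,2,true),(37,1,false),true), ((28,2,true),(37,1,false),(29,6,false),false),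
    ((37,1,false),(29,6,false),(12,4,false),true), ((29,6,false),(12,4,false),(13,3,false),true),
    ((12,4,false),(13,3,false),(3,5,true),false), ((13,3,false),(3,5,true),(29,6,false),true)]

def cyc5 : List (List R) := [
    [(29,6,false),(12,4,false),(3,5,true)], [(3,5,true),(12,4,false),(13,3,false)], [],
    [(29,6,false),(28,2,true),(12,4,false)], [(29,6,false),(37,1,false),(28,2,true)]]

theorem ok5 : tabOK 5 tab5 cyc5 2 [5, 8] = true := by decide +kernel

def tab6 : List Q := [
    ((12,4,false),(3,7,false),(45,5,true),false), ((3,7,false),(45,5,true),(43,2,false),false),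
    ((45,5,true),(43,2,false),(3,7,false),false), ((43,2,false),(3,7,false),(5,8,true),true),
    ((3,7,false),(5,8,true),(20,3,true),false), ((5,8,true),(20,3,true),(37,6,false),false),
    ((20,3,true),(37,6,false),(5,8,true),false), ((37,6,false),(5,8,true),(12,4,false),true),
    ((5,8,true),(12,4,false),(37,6,false),false), ((12,4,false),(37,6,false),(29,1,false),true),
    ((37,6,false),(29,1,false),(20,3,true),false), ((29,1,false),(20,3,true),(12,4,false),true),
    ((20,3,true),(12,4,false),(3,7,false),true)]

def cyc6 : List (List R) := [
    [(3,7,false),(5,8,true),(12,4,false)], [(5,8,true),(20,3,true),(12,4,false)],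
    [(20,3,true),(37,6,false),(12,4,false)], [(20,3,true),(29,1,false),(37,6,false)], [],
    [(3,7,false),(43,2,false),(45,5,true)]]

theorem ok6 : tabOK 6 tab6 cyc6 4 [1, 2, 10] = true := by decide +kernel

def tab7 : List Q := [
    ((36,3,false),(44,4,false),(3,6,false),false), ((44,4,false),(3,6,false),(2,7,true),false),
    ((3,6,false),(2,7,true),(20,2,true),false), ((2,7,true),(20,2,true),(3,6,false),false),
    ((20,2,true),(3,6,false),(53,5,true),true), ((3,6,false),(53,5,true),(36,3,false),false),
    ((53,5,true),(36,3,false),(2,7,true),false), ((36,3,false),(2,7,true),(4,1,false),true),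
    ((2,7,true),(4,1,false),(20,2,true),false), ((4,1,false),(20,2,true),(44,4,false),true),
    ((20,2,true),(44,4,false),(53,5,true),true), ((44,4,false),(53,5,true),(29,8,true),true),
    ((53,5,true),(29,8,true),(36,3,false),false), ((29,8,true),(36,3,false),(44,4,false),true)]

def cyc7 : List (List R) := [
    [(2,7,true),(4,1,false),(20,2,true)], [], [(44,4,false),(20,2,true),(3,6,false)],
    [(44,4,false),(36,3,false),(2,7,true),(20,2,true)], [(53,5,true),(29,8,true),(36,3,false)],
    [(44,4,false),(53,5,true),(36,3,false)], [(44,4,false),(3,6,false),(53,5,true)]]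

theorem ok7 : tabOK 7 tab7 cyc7 1 [8, 12] = true := by decide +kernel

def tab8 : List Q := [
    ((28,2,true),(13,4,true),(45,6,true),false), ((13,4,true),(45,6,true),(3,8,true),false),
    ((45,6,true),(3,8,true),(61,7,false),false), ((3,8,true),(61,7,false),(45,6,true),false),
    ((61,7,false),(45,6,true),(4,5,false),true), ((45,6,true),(4,5,false),(28,2,true),false),
    ((4,5,false),(28,2,true),(37,3,false),false), ((28,2,true),(37,3,false),(61,7,false),false),
    ((37,3,false),(61,7,false),(53,1,false),true), ((61,7,false),(53,1,false),(3,8,true),false),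
    ((53,1,false),(3,8,true),(4,5,false),true), ((3,8,true),(4,5,false),(13,4,true),true),
    ((4,5,false),(13,4,true),(37,3,false),true), ((13,4,true),(37,3,false),(12,9,false),true),
    ((37,3,false),(12,9,false),(28,2,true),false), ((12,9,false),(28,2,true),(13,4,true),true)]

def cyc8 : List (List R) := [
    [(45,6,true),(4,5,false),(3,8,true)], [(13,4,true),(4,5,false),(45,6,true)],
    [(13,4,true),(28,2,true),(4,5,false)], [(28,2,true),(37,3,false),(12,9,false)],
    [(13,4,true),(37,3,false),(28,2,true)], [],
    [(45,6,true),(3,8,true),(53,1,false),(61,7,false)], [(3,8,true),(61,7,false),(53,1,false)]]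

theorem ok8 : tabOK 8 tab8 cyc8 5 [9, 14] = true := by decide +kernel

def tab9 : List Q := [
    ((3,6,false),(69,7,true),(60,4,false),false), ((69,7,true),(60,4,false),(44,3,true),false),
    ((60,4,false),(44,3,true),(29,2,false),false), ((44,3,true),(29,2,false),(3,6,false),false),
    ((29,2,false),(3,6,false),(12,5,true),false), ((3,6,false),(12,5,true),(60,4,false),false),
    ((12,5,true),(60,4,false),(13,8,false),true), ((60,4,false),(13,8,false),(29,2,false),false),
    ((13,8,false),(29,2,false),(20,1,true),true), ((29,2,false),(20,1,true),(12,5,true),false),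
    ((20,1,true),(12,5,true),(69,7,true),true), ((12,5,true),(69,7,true),(13,8,false),true),
    ((69,7,true),(13,8,false),(44,3,true),true), ((13,8,false),(44,3,true),(20,1,true),true),
    ((44,3,true),(20,1,true),(3,6,false),true), ((20,1,true),(3,6,false),(69,7,true),true)]

def cyc9 : List (List R) := [
    [(69,7,true),(3,6,false),(12,5,true)], [(3,6,false),(20,1,true),(12,5,true)],
    [(29,2,false),(20,1,true),(3,6,false)], [(44,3,true),(20,1,true),(29,2,false)],
    [(44,3,true),(29,2,false),(13,8,false)], [(60,4,false),(44,3,true),(13,8,false)], [],
    [(69,7,true),(12,5,true),(60,4,false)], [(69,7,true),(60,4,false),(13,8,false)]]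

theorem ok9 : tabOK 9 tab9 cyc9 6 [] = true := by decide +kernel

def tab10 : List Q := [
    ((77,8,true),(3,7,false),(28,2,false),false), ((3,7,false),(28,2,false),(21,6,true),false),
    ((28,2,false),(21,6,true),(68,5,false),false), ((21,6,true),(68,5,false),(45,9,false),false),
    ((68,5,false),(45,9,false),(37,3,true),false), ((45,9,false),(37,3,true),(28,2,false),false),
    ((37,3,true),(28,2,false),(12,1,true),true), ((28,2,false),(12,1,true),(77,8,true),false),
    ((12,1,true),(77,8,true),(45,9,false),false), ((77,8,true),(45,9,false),(52,4,true),true),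
    ((45,9,false),(52,4,true),(21,6,true),false), ((52,4,true),(21,6,true),(12,1,true),true),
    ((21,6,true),(12,1,true),(3,7,false),true), ((12,1,true),(3,7,false),(37,3,true),true),
    ((3,7,false),(37,3,true),(52,4,true),true), ((37,3,true),(52,4,true),(68,5,false),true),
    ((52,4,true),(68,5,false),(77,8,true),true), ((68,5,false),(77,8,true),(3,7,false),true)]

def cyc10 : List (List R) := [
    [], [(3,7,false),(28,2,false),(12,1,true)], [(12,1,true),(28,2,false),(21,6,true)],
    [(28,2,false),(37,3,true),(52,4,true),(21,6,true)], [(3,7,false),(37,3,true),(28,2,false)],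
    [(52,4,true),(37,3,true),(45,9,false)], [(52,4,true),(45,9,false),(68,5,false)],
    [(21,6,true),(52,4,true),(68,5,false)], [(12,1,true),(21,6,true),(68,5,false),(77,8,true)],
    [(68,5,false),(45,9,false),(77,8,true)]]

theorem ok10 : tabOK 10 tab10 cyc10 0 [] = true := by decide +kernel

def tab11 : List Q := [
    ((76,6,false),(85,8,true),(60,1,false),false), ((85,8,true),(60,1,false),(44,2,true),false),
    ((60,1,false),(44,2,true),(28,5,false),false), ((44,2,true),(28,5,false),(4,7,true),false),
    ((28,5,false),(4,7,true),(3,10,false),false), ((4,7,true),(3,10,false),(76,6,false),false),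
    ((3,10,false),(76,6,false),(68,4,false),false),
    ((76,6,false),(68,4,false),(60,1,false),false), ((68,4,false),(60,1,false),(61,9,true),true),
    ((60,1,false),(61,9,true),(28,5,false),false), ((61,9,true),(28,5,false),(12,3,true),true),
    ((28,5,false),(12,3,true),(3,10,false),false), ((12,3,true),(3,10,false),(85,8,true),true),
    ((3,10,false),(85,8,true),(68,4,false),true), ((85,8,true),(68,4,false),(44,2,true),true),
    ((68,4,false),(44,2,true),(61,9,true),true), ((44,2,true),(61,9,true),(4,7,true),true),
    ((61,9,true),(4,7,true),(12,3,true),true), ((4,7,true),(12,3,true),(76,6,false),true),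
    ((12,3,true),(76,6,false),(85,8,true),true)]

def cyc11 : List (List R) := [
    [(4,7,true),(3,10,false),(12,3,true)], [(12,3,true),(3,10,false),(76,6,false)],
    [(28,5,false),(4,7,true),(12,3,true)], [(61,9,true),(4,7,true),(28,5,false)],
    [(44,2,true),(61,9,true),(28,5,false)], [], [(68,4,false),(60,1,false),(44,2,true)],
    [(60,1,false),(61,9,true),(44,2,true)], [(85,8,true),(60,1,false),(68,4,false)],
    [(85,8,true),(68,4,false),(76,6,false)], [(85,8,true),(76,6,false),(3,10,false)]]

theorem ok11 : tabOK 11 tab11 cyc11 5 [] = true := by decide +kernel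

def tab12 : List Q := [
    ((53,11,true),(36,4,true),(69,5,false),false), ((36,4,true),(69,5,false),(60,2,true),false),
    ((69,5,false),(60,2,true),(93,9,true),false), ((60,2,true),(93,9,true),(84,8,false),false),
    ((93,9,true),(84,8,false),(12,7,true),false), ((84,8,false),(12,7,true),(53,11,true),false),
    ((12,7,true),(53,11,true),(52,3,false),false),
    ((53,11,true),(52,3,false),(69,5,false),false),
    ((52,3,false),(69,5,false),(76,1,false),true), ((69,5,false),(76,1,false),(93,9,true),false),
    ((76,1,false),(93,9,true),(3,10,false),true), ((93,9,true),(3,10,false),(12,7,true),false),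
    ((3,10,false),(12,7,true),(21,6,false),true), ((12,7,true),(21,6,false),(76,1,false),false),
    ((21,6,false),(76,1,false),(60,2,true),true), ((76,1,false),(60,2,true),(52,3,false),true),
    ((60,2,true),(52,3,false),(36,4,true),true), ((52,3,false),(36,4,true),(21,6,false),true),
    ((36,4,true),(21,6,false),(84,8,false),true), ((21,6,false),(84,8,false),(3,10,false),true),
    ((84,8,false),(3,10,false),(53,11,true),true), ((3,10,false),(53,11,true),(36,4,true),true)]

def cyc12 : List (List R) := [
    [(3,10,false),(12,7,true),(53,11,true)], [(84,8,false),(12,7,true),(3,10,false)],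
    [(84,8,false),(21,6,false),(12,7,true)], [],
    [(36,4,true),(21,6,false),(76,1,false),(69,5,false)],
    [(36,4,true),(69,5,false),(52,3,false)], [(36,4,true),(52,3,false),(53,11,true)],
    [(52,3,false),(69,5,false),(60,2,true)], [(69,5,false),(76,1,false),(60,2,true)],
    [(60,2,true),(76,1,false),(93,9,true)], [(76,1,false),(21,6,false),(84,8,false),(93,9,true)],
    [(93,9,true),(84,8,false),(3,10,false)]]

theorem ok12 : tabOK 12 tab12 cyc12 3 [] = true := by decide +kernel

def tab13 : List Q := [
    ((36,6,false),(101,11,true),(100,3,false),false),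
    ((101,11,true),(100,3,false),(84,2,true),false),
    ((100,3,false),(84,2,true),(68,1,false),false),
    ((84,2,true),(68,1,false),(60,9,false),false),
    ((68,1,false),(60,9,false),(20,7,false),false),
    ((60,9,false),(20,7,false),(21,12,true),false),
    ((20,7,false),(21,12,true),(101,11,true),false),
    ((21,12,true),(101,11,true),(45,5,true),true), ((101,11,true),(45,5,true),(84,2,true),false),
    ((45,5,true),(84,2,true),(3,10,false),true), ((84,2,true),(3,10,false),(4,8,true),false),
    ((3,10,false),(4,8,true),(20,7,false),false), ((4,8,true),(20,7,false),(52,4,true),true),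
    ((20,7,false),(52,4,true),(68,1,false),false), ((52,4,true),(68,1,false),(3,10,false),true),
    ((68,1,false),(3,10,false),(100,3,false),true),
    ((3,10,false),(100,3,false),(45,5,true),true), ((100,3,false),(45,5,true),(36,6,false),true),
    ((45,5,true),(36,6,false),(21,12,true),false), ((36,6,false),(21,12,true),(4,8,true),true),
    ((21,12,true),(4,8,true),(60,9,false),true), ((4,8,true),(60,9,false),(52,4,true),true),
    ((60,9,false),(52,4,true),(36,6,false),true), ((52,4,true),(36,6,false),(101,11,true),true)]

def cyc13 : List (List R) := [
    [(3,10,false),(4,8,true),(60,9,false),(68,1,false)], [(60,9,false),(4,8,true),(20,7,false)],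
    [(20,7,false),(4,8,true),(21,12,true)], [(52,4,true),(20,7,false),(21,12,true),(36,6,false)],
    [(101,11,true),(36,6,false),(21,12,true)], [(101,11,true),(45,5,true),(36,6,false)],
    [(60,9,false),(20,7,false),(52,4,true)], [(68,1,false),(60,9,false),(52,4,true)], [],
    [(84,2,true),(3,10,false),(68,1,false)], [(100,3,false),(3,10,false),(84,2,true)],
    [(45,5,true),(100,3,false),(84,2,true)], [(101,11,true),(100,3,false),(45,5,true)]]

theorem ok13 : tabOK 13 tab13 cyc13 8 [] = true := by decide +kernel

def tab14 : List Q := [
    ((12,6,false),(5,11,true),(84,2,false),false), ((5,11,true),(84,2,false),(92,3,false),false),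
    ((84,2,false),(92,3,false),(108,4,true),false),
    ((92,3,false),(108,4,true),(44,7,false),false),
    ((108,4,true),(44,7,false),(28,8,true),false), ((44,7,false),(28,8,true),(3,9,false),false),
    ((28,8,true),(3,9,false),(93,12,true),false), ((3,9,false),(93,12,true),(84,2,false),false),
    ((93,12,true),(84,2,false),(68,1,true),true), ((84,2,false),(68,1,true),(52,10,true),false),
    ((68,1,true),(52,10,true),(44,7,false),false),
    ((52,10,true),(44,7,false),(109,13,false),true),
    ((44,7,false),(109,13,false),(3,9,false),false),
    ((109,13,false),(3,9,false),(12,6,false),true),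
    ((3,9,false),(12,6,false),(52,10,true),false), ((12,6,false),(52,10,true),(53,5,false),true),
    ((52,10,true),(53,5,false),(92,3,false),false),
    ((53,5,false),(92,3,false),(93,12,true),true), ((92,3,false),(93,12,true),(5,11,true),true),
    ((93,12,true),(5,11,true),(68,1,true),true), ((5,11,true),(68,1,true),(53,5,false),true),
    ((68,1,true),(53,5,false),(108,4,true),true),
    ((53,5,false),(108,4,true),(109,13,false),true),
    ((108,4,true),(109,13,false),(28,8,true),true),
    ((109,13,false),(28,8,true),(12,6,false),true), ((28,8,true),(12,6,false),(5,11,true),true)]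

def cyc14 : List (List R) := [
    [], [(5,11,true),(12,6,false),(52,10,true),(68,1,true)],
    [(28,8,true),(12,6,false),(3,9,false)], [(109,13,false),(28,8,true),(3,9,false)],
    [(44,7,false),(28,8,true),(109,13,false)],
    [(44,7,false),(52,10,true),(12,6,false),(28,8,true)],
    [(53,5,false),(52,10,true),(44,7,false),(108,4,true)],
    [(53,5,false),(68,1,true),(52,10,true)],
    [(84,2,false),(68,1,true),(53,5,false),(92,3,false)], [(5,11,true),(68,1,true),(84,2,false)],
    [(5,11,true),(84,2,false),(93,12,true)], [(93,12,true),(84,2,false),(92,3,false)],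
    [(92,3,false),(53,5,false),(108,4,true)], [(108,4,true),(44,7,false),(109,13,false)]]

theorem ok14 : tabOK 14 tab14 cyc14 0 [] = true := by decide +kernel

def tab15 : List Q := [
    ((12,10,true),(45,13,true),(60,1,true),false), ((45,13,true),(60,1,true),(68,7,false),false),
    ((60,1,true),(68,7,false),(77,4,true),false), ((68,7,false),(77,4,true),(92,3,false),false),
    ((77,4,true),(92,3,false),(116,6,true),false),
    ((92,3,false),(116,6,true),(29,8,false),false),
    ((116,6,true),(29,8,false),(20,9,true),false), ((29,8,false),(20,9,true),(3,11,false),false),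
    ((20,9,true),(3,11,false),(45,13,true),false), ((3,11,false),(45,13,true),(44,2,false),true),
    ((45,13,true),(44,2,false),(68,7,false),false),
    ((44,2,false),(68,7,false),(93,14,true),true),
    ((68,7,false),(93,14,true),(92,3,false),false),
    ((93,14,true),(92,3,false),(100,5,false),true),
    ((92,3,false),(100,5,false),(29,8,false),false),
    ((100,5,false),(29,8,false),(117,12,false),true),
    ((29,8,false),(117,12,false),(3,11,false),false),
    ((117,12,false),(3,11,false),(12,10,true),true),
    ((3,11,false),(12,10,true),(44,2,false),false), ((12,10,true),(44,2,false),(60,1,true),true),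
    ((44,2,false),(60,1,true),(93,14,true),true), ((60,1,true),(93,14,true),(77,4,true),true),
    ((93,14,true),(77,4,true),(100,5,false),true), ((77,4,true),(100,5,false),(116,6,true),true),
    ((100,5,false),(116,6,true),(117,12,false),true),
    ((116,6,true),(117,12,false),(20,9,true),true),
    ((117,12,false),(20,9,true),(12,10,true),true), ((20,9,true),(12,10,true),(45,13,true),true)]

def cyc15 : List (List R) := [
    [(45,13,true),(12,10,true),(3,11,false)], [(20,9,true),(3,11,false),(12,10,true)],
    [(117,12,false),(3,11,false),(20,9,true)], [(29,8,false),(117,12,false),(20,9,true)], [],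
    [(45,13,true),(44,2,false),(12,10,true)], [(45,13,true),(60,1,true),(44,2,false)],
    [(44,2,false),(60,1,true),(68,7,false)], [(60,1,true),(93,14,true),(68,7,false)],
    [(68,7,false),(93,14,true),(77,4,true)], [(77,4,true),(92,3,false),(100,5,false)],
    [(93,14,true),(92,3,false),(77,4,true)], [(92,3,false),(116,6,true),(100,5,false)],
    [(100,5,false),(116,6,true),(29,8,false)], [(116,6,true),(117,12,false),(29,8,false)]]

theorem ok15 : tabOK 15 tab15 cyc15 4 [] = true := by decide +kernel

def tab16 : List Q := [
    ((28,8,true),(37,10,false),(69,7,false),false),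
    ((37,10,false),(69,7,false),(53,5,false),false),
    ((69,7,false),(53,5,false),(125,9,true),false),
    ((53,5,false),(125,9,true),(116,2,false),false),
    ((125,9,true),(116,2,false),(100,3,true),false),
    ((116,2,false),(100,3,true),(3,15,false),false),
    ((100,3,true),(3,15,false),(4,12,true),false),
    ((3,15,false),(4,12,true),(20,11,false),false),
    ((4,12,true),(20,11,false),(84,1,true),false),
    ((20,11,false),(84,1,true),(100,3,true),false),
    ((84,1,true),(100,3,true),(108,14,false),true),
    ((100,3,true),(108,14,false),(125,9,true),false),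
    ((108,14,false),(125,9,true),(68,4,true),true),
    ((125,9,true),(68,4,true),(69,7,false),false), ((68,4,true),(69,7,false),(44,6,true),true),
    ((69,7,false),(44,6,true),(28,8,true),false), ((44,6,true),(28,8,true),(20,11,false),false),
    ((28,8,true),(20,11,false),(93,13,false),true),
    ((20,11,false),(93,13,false),(3,15,false),false),
    ((93,13,false),(3,15,false),(108,14,false),true),
    ((3,15,false),(108,14,false),(116,2,false),true),
    ((108,14,false),(116,2,false),(68,4,true),true),
    ((116,2,false),(68,4,true),(53,5,false),true), ((68,4,true),(53,5,false),(44,6,true),true),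
    ((53,5,false),(44,6,true),(37,10,false),true), ((44,6,true),(37,10,false),(84,1,true),true),
    ((37,10,false),(84,1,true),(93,13,false),true), ((84,1,true),(93,13,false),(4,12,true),true),
    ((93,13,false),(4,12,true),(28,8,true),true), ((4,12,true),(28,8,true),(37,10,false),true)]

def cyc16 : List (List R) := [
    [(3,15,false),(93,13,false),(4,12,true)], [(93,13,false),(20,11,false),(4,12,true)],
    [(4,12,true),(20,11,false),(28,8,true)],
    [(37,10,false),(28,8,true),(20,11,false),(84,1,true)],
    [(37,10,false),(44,6,true),(28,8,true)], [(37,10,false),(69,7,false),(44,6,true)],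
    [(44,6,true),(69,7,false),(53,5,false)], [(53,5,false),(68,4,true),(125,9,true)],
    [(69,7,false),(68,4,true),(53,5,false)], [], [(93,13,false),(84,1,true),(20,11,false)],
    [(100,3,true),(84,1,true),(93,13,false),(3,15,false)],
    [(108,14,false),(100,3,true),(3,15,false)], [(116,2,false),(100,3,true),(108,14,false)],
    [(68,4,true),(116,2,false),(125,9,true)], [(125,9,true),(116,2,false),(108,14,false)]]

theorem ok16 : tabOK 16 tab16 cyc16 9 [] = true := by decide +kernel

def tab18 : List Q := [
    ((4,2,false),(93,10,true),(108,11,false),false),
    ((93,10,true),(108,11,false),(117,15,true),false),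
    ((108,11,false),(117,15,true),(141,13,true),false),
    ((117,15,true),(141,13,true),(132,12,false),false),
    ((141,13,true),(132,12,false),(84,7,true),false),
    ((132,12,false),(84,7,true),(68,6,false),false),
    ((84,7,true),(68,6,false),(53,5,false),false), ((68,6,false),(53,5,false),(28,1,true),false),
    ((53,5,false),(28,1,true),(13,9,true),false), ((28,1,true),(13,9,true),(4,2,false),false),
    ((13,9,true),(4,2,false),(3,16,true),false), ((4,2,false),(3,16,true),(108,11,false),false),
    ((3,16,true),(108,11,false),(124,4,false),true),
    ((108,11,false),(124,4,false),(141,13,true),false),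
    ((124,4,false),(141,13,true),(77,14,false),true),
    ((141,13,true),(77,14,false),(84,7,true),false),
    ((77,14,false),(84,7,true),(45,8,true),true), ((84,7,true),(45,8,true),(53,5,false),false),
    ((45,8,true),(53,5,false),(21,17,false),true),
    ((53,5,false),(21,17,false),(13,9,true),false),
    ((21,17,false),(13,9,true),(44,3,false),true), ((13,9,true),(44,3,false),(45,8,true),false),
    ((44,3,false),(45,8,true),(68,6,false),true), ((45,8,true),(68,6,false),(77,14,false),true),
    ((68,6,false),(77,14,false),(132,12,false),true),
    ((77,14,false),(132,12,false),(124,4,false),true),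
    ((132,12,false),(124,4,false),(117,15,true),true),
    ((124,4,false),(117,15,true),(3,16,true),true),
    ((117,15,true),(3,16,true),(93,10,true),true), ((3,16,true),(93,10,true),(44,3,false),true),
    ((93,10,true),(44,3,false),(28,1,true),true), ((44,3,false),(28,1,true),(21,17,false),true),
    ((28,1,true),(21,17,false),(4,2,false),true), ((21,17,false),(4,2,false),(93,10,true),true)]

def cyc18 : List (List R) := [
    [(93,10,true),(3,16,true),(4,2,false)], [(21,17,false),(13,9,true),(4,2,false)],
    [(28,1,true),(13,9,true),(21,17,false)], [(53,5,false),(28,1,true),(21,17,false)],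
    [(28,1,true),(44,3,false),(13,9,true)], [(93,10,true),(4,2,false),(13,9,true),(44,3,false)],
    [(45,8,true),(44,3,false),(28,1,true),(53,5,false)], [(68,6,false),(45,8,true),(53,5,false)],
    [(84,7,true),(45,8,true),(68,6,false)], [(77,14,false),(84,7,true),(68,6,false)],
    [(132,12,false),(84,7,true),(77,14,false)], [], [(93,10,true),(108,11,false),(3,16,true)],
    [(3,16,true),(108,11,false),(117,15,true)], [(108,11,false),(124,4,false),(117,15,true)],
    [(117,15,true),(124,4,false),(141,13,true)], [(124,4,false),(132,12,false),(141,13,true)],
    [(141,13,true),(132,12,false),(77,14,false)]]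

theorem ok18 : tabOK 18 tab18 cyc18 11 [] = true := by decide +kernel

def tab19 : List Q := [
    ((20,11,true),(3,14,false),(100,18,true),false),
    ((3,14,false),(100,18,true),(52,6,false),false),
    ((100,18,true),(52,6,false),(77,5,false),false),
    ((52,6,false),(77,5,false),(117,15,true),false),
    ((77,5,false),(117,15,true),(108,2,false),false),
    ((117,15,true),(108,2,false),(116,4,false),false),
    ((108,2,false),(116,4,false),(45,8,false),false),
    ((116,4,false),(45,8,false),(133,10,false),false),
    ((45,8,false),(133,10,false),(29,16,false),false),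
    ((133,10,false),(29,16,false),(149,17,false),false),
    ((29,16,false),(149,17,false),(3,14,false),false),
    ((149,17,false),(3,14,false),(12,12,true),true),
    ((3,14,false),(12,12,true),(52,6,false),false), ((12,12,true),(52,6,false),(68,1,true),true),
    ((52,6,false),(68,1,true),(117,15,true),false), ((68,1,true),(117,15,true),(92,3,true),true),
    ((117,15,true),(92,3,true),(116,4,false),false),
    ((92,3,true),(116,4,false),(125,7,true),true),
    ((116,4,false),(125,7,true),(148,13,true),false),
    ((125,7,true),(148,13,true),(29,16,false),false),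
    ((148,13,true),(29,16,false),(36,9,true),true),
    ((29,16,false),(36,9,true),(45,8,false),false), ((36,9,true),(45,8,false),(125,7,true),true),
    ((45,8,false),(125,7,true),(108,2,false),true),
    ((125,7,true),(108,2,false),(92,3,true),true), ((108,2,false),(92,3,true),(77,5,false),true),
    ((92,3,true),(77,5,false),(68,1,true),true), ((77,5,false),(68,1,true),(100,18,true),true),
    ((68,1,true),(100,18,true),(12,12,true),true),
    ((100,18,true),(12,12,true),(20,11,true),true),
    ((12,12,true),(20,11,true),(149,17,false),false),
    ((20,11,true),(149,17,false),(148,13,true),true),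
    ((149,17,false),(148,13,true),(133,10,false),true),
    ((148,13,true),(133,10,false),(36,9,true),true),
    ((133,10,false),(36,9,true),(20,11,true),true), ((36,9,true),(20,11,true),(3,14,false),true)]

def cyc19 : List (List R) := [
    [(3,14,false),(100,18,true),(12,12,true)], [(3,14,false),(12,12,true),(20,11,true)],
    [(3,14,false),(20,11,true),(149,17,false)],
    [(36,9,true),(29,16,false),(149,17,false),(20,11,true)],
    [(133,10,false),(29,16,false),(36,9,true)], [(45,8,false),(133,10,false),(36,9,true)],
    [(12,12,true),(100,18,true),(52,6,false)], [(100,18,true),(68,1,true),(52,6,false)],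
    [(52,6,false),(68,1,true),(77,5,false)], [(68,1,true),(117,15,true),(77,5,false)],
    [(77,5,false),(117,15,true),(92,3,true)], [], [(92,3,true),(108,2,false),(116,4,false)],
    [(117,15,true),(108,2,false),(92,3,true)], [(108,2,false),(125,7,true),(116,4,false)],
    [(116,4,false),(125,7,true),(45,8,false)],
    [(125,7,true),(148,13,true),(133,10,false),(45,8,false)],
    [(133,10,false),(148,13,true),(29,16,false)], [(29,16,false),(148,13,true),(149,17,false)]]

theorem ok19 : tabOK 19 tab19 cyc19 11 [] = true := by decide +kernel

def tab20 : List Q := [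
    ((124,8,true),(108,6,false),(100,5,false),false),
    ((108,6,false),(100,5,false),(84,1,true),false),
    ((100,5,false),(84,1,true),(37,17,true),false), ((84,1,true),(37,17,true),(60,3,true),false),
    ((37,17,true),(60,3,true),(36,9,false),false), ((60,3,true),(36,9,false),(3,16,true),false),
    ((36,9,false),(3,16,true),(157,18,false),false),
    ((3,16,true),(157,18,false),(149,13,true),false),
    ((157,18,false),(149,13,true),(148,11,false),false),
    ((149,13,true),(148,11,false),(132,10,true),false),
    ((148,11,false),(132,10,true),(93,7,true),false),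
    ((132,10,true),(93,7,true),(100,5,false),false),
    ((93,7,true),(100,5,false),(69,4,false),true),
    ((100,5,false),(69,4,false),(37,17,true),false),
    ((69,4,false),(37,17,true),(44,2,false),true),
    ((37,17,true),(44,2,false),(36,9,false),false),
    ((44,2,false),(36,9,false),(28,12,false),true),
    ((36,9,false),(28,12,false),(20,14,false),false),
    ((28,12,false),(20,14,false),(149,13,true),false),
    ((20,14,false),(149,13,true),(117,19,true),true),
    ((149,13,true),(117,19,true),(132,10,true),false),
    ((117,19,true),(132,10,true),(124,8,true),true),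
    ((132,10,true),(124,8,true),(20,14,false),false),
    ((124,8,true),(20,14,false),(5,15,true),true), ((20,14,false),(5,15,true),(3,16,true),false),
    ((5,15,true),(3,16,true),(44,2,false),true), ((3,16,true),(44,2,false),(60,3,true),true),
    ((44,2,false),(60,3,true),(69,4,false),true), ((60,3,true),(69,4,false),(84,1,true),true),
    ((69,4,false),(84,1,true),(93,7,true),true), ((84,1,true),(93,7,true),(108,6,false),true),
    ((93,7,true),(108,6,false),(28,12,false),true),
    ((108,6,false),(28,12,false),(5,15,true),true),
    ((28,12,false),(5,15,true),(157,18,false),true),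
    ((5,15,true),(157,18,false),(117,19,true),true),
    ((157,18,false),(117,19,true),(148,11,false),true),
    ((117,19,true),(148,11,false),(124,8,true),true),
    ((148,11,false),(124,8,true),(108,6,false),true)]

def cyc20 : List (List R) := [
    [(3,16,true),(5,15,true),(157,18,false)],
    [(5,15,true),(20,14,false),(149,13,true),(157,18,false)],
    [(5,15,true),(28,12,false),(20,14,false)],
    [(36,9,false),(28,12,false),(5,15,true),(3,16,true)],
    [(44,2,false),(36,9,false),(3,16,true)], [(37,17,true),(60,3,true),(44,2,false)],
    [(60,3,true),(36,9,false),(44,2,false)], [], [(69,4,false),(60,3,true),(37,17,true)],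
    [(84,1,true),(69,4,false),(37,17,true)], [(100,5,false),(69,4,false),(84,1,true)],
    [(93,7,true),(100,5,false),(84,1,true)], [(108,6,false),(100,5,false),(93,7,true)],
    [(108,6,false),(93,7,true),(132,10,true),(124,8,true)],
    [(108,6,false),(124,8,true),(20,14,false),(28,12,false)],
    [(149,13,true),(20,14,false),(124,8,true),(148,11,false)],
    [(148,11,false),(124,8,true),(132,10,true)], [(117,19,true),(148,11,false),(132,10,true)],
    [(149,13,true),(148,11,false),(117,19,true)], [(157,18,false),(149,13,true),(117,19,true)]]

theorem ok20 : tabOK 20 tab20 cyc20 7 [] = true := by decide +kernel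

end Pool.Agent.MP_b0ee3d_lc
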