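import Pool.Agent.MP_b0ee3d_lc.Defs

set_option autoImplicit false

namespace Pool.Agent.MP_b0ee3d_lc

/-- The `i`-th side without its two ends. -/
def olink (q : List ℂ) (i : ℕ) : Set ℂ := openSegment ℝ (vtx q i) (vtx q (i + 1))

/-- `q` lists the corners of a closed polygon that is a sona map on the dots `P` and goes straight
through every crossing; the number of its sides is the length of `q`. -/
def IsStraight (P q : List ℂ) : Prop :=
  3 ≤ q.length ∧
  (∀ i < q.length, vtx q i ≠ vtx q (i + 1) ∧ link q i ∩ link q (i + 1) = {vtx q (i + 1)}) ∧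
  (∀ i < q.length, ∀ j < q.length, i ≠ j → (i + 1) % q.length ≠ j → (j + 1) % q.length ≠ i →
    (link q i ∩ link q j).Subsingleton ∧ link q i ∩ link q j ⊆ olink q i ∩ olink q j) ∧
  (∀ x : ℂ, ∀ k < q.length, ∀ j < k, ∀ i < j, ¬ (x ∈ link q i ∧ x ∈ link q j ∧ x ∈ link q k)) ∧
  (∀ p ∈ P, p ∈ off q ∧ Bornology.IsBounded (connectedComponentIn (off q) p)) ∧
  (∀ x ∈ off q, Bornology.IsBounded (connectedComponentIn (off q) x) →
    ∃! p, p ∈ P ∧ p ∈ connectedComponentIn (off q) x)

/-- The closed polygon with corners `q` avoids the dots and no two dots lie in one component of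
its complement. -/
def Sep (P q : List ℂ) : Prop :=
  ∀ p ∈ P, p ∈ off q ∧ ∀ p' ∈ P, p' ∈ connectedComponentIn (off q) p → p' = p

end Pool.Agent.MP_b0ee3d_lc
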