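import Pool.Agent.MP_b0ee3d_lc.Defs2

set_option autoImplicit false

namespace Pool.Agent.MP_b0ee3d_lc

/-- The crossing points of the closed polygon with corners `q`. -/
def cross (q : List ℂ) : Set ℂ := {x | ∃ i < q.length, ∃ j < i, x ∈ olink q i ∧ x ∈ olink q j}

/-- The number of links over all edges: every crossing cuts two sides. -/
noncomputable def links (q : List ℂ) : ℕ := q.length + 2 * (cross q).ncard

end Pool.Agent.MP_b0ee3d_lc
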